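import Pool.Agent.R895.Main

/-!
# The relative and the absolute case
-/

set_option autoImplicit false

namespace Pool.Agent.R895

open Pool.Agent.Y167 (cone AffGrp)
open Pool.Agent.Y167.CC (LinGrp Preserves IsFundDomain)

/-- The inclusion `ℂ^r → ℂ^p × ℂ^r`. -/
def incl (p r : ℕ) : (Fin r → ℂ) →ₗ[ℂ] (Fin p ⊕ Fin r → ℂ) where
  toFun u := Sum.elim 0 u
  map_add' u w := by
    ext i
    cases i <;> simp
  map_smul' a u := by
    ext i
    cases i <;> simp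

/-- The projection `ℂ^p × ℂ^r → ℂ^p`. -/
def proj (p r : ℕ) : (Fin p ⊕ Fin r → ℂ) →ₗ[ℂ] (Fin p → ℂ) where
  toFun v := fun i => v (Sum.inl i)
  map_add' _ _ := rfl
  map_smul' _ _ := rfl

theorem incl_isExt (p r : ℕ) : IsExt Sum.inr (incl p r) := by
  classical
  intro u
  funext i
  show (Sum.elim (0 : Fin p → ℂ) u) i = ext Sum.inr u i
  unfold ext
  cases i with
  | inl a => simp
  | inr b => simp

theorem isPb_mem {ι : Type*} [Fintype ι] {r m : ℕ} {ρ : Fin r → ι}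
    {j : (Fin r → ℂ) →ₗ[ℂ] (ι → ℂ)} (hj : IsExt ρ j) (hρ : Function.Injective ρ)
    {g : N1 (kum ι m) j ≃ₗ[ℝ] N1 (kum ι m) j} {u : (Fin r → ℂ) ≃ₗ[ℂ] (Fin r → ℂ)}
    (h : IsPb g u) : ∃ f : (ι → ℂ) ≃ₗ[ℂ] (ι → ℂ), Normalizes (kum ι m) f ∧
      (∀ v, ∀ i ∈ co ρ, f v i = v i) ∧ IsPullback f g := by
  refine ⟨blk hj hρ u, normalizes (fun v hv => blk_lat hj hρ h.lat hv) (fun v hv => by
    rw [blk_symm]
    exact blk_lat hj hρ h.lat' hv), fun v i hi => blk_co hj hρ v hi,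
    fun x v w v' w' hv hw => ?_, h.coef⟩
  rw [blk_j] at hv hw
  rw [h.form, hj.inj hρ hv, hj.inj hρ hw]

end Pool.Agent.R895
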