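import Pool.Agent.R895.Defs
import Pool.Agent.R895.Th
import Pool.Agent.W594.SYZ.TQ2
import Pool.Agent.Y167.Dom

/-!
# Line bundles and sections given by theta functions
-/

set_option autoImplicit false

namespace Pool.Agent.R895

open Complex Filter Topology Asymptotics
open Matrix hiding IsHermitian
open Pool.Agent.W594.SYZ2 (IsHermitian)
open Pool.Agent.W594.SYZ2.TQ (h_add_right h_smul_right h_zero_left h_zero_right h_neg_left
  h_sub_left h_re_symm)
open Pool.Agent.Y167 (AffGrp)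

variable {ι : Type*} [Fintype ι] {m : ℕ}

theorem kum_spec (γ : kum ι m) : ∃ (ζ : ℂ) (l : ι → ℂ), ζ ^ m = 1 ∧ ζ ^ 6 = 1 ∧ Lat l ∧
    ∀ v, (γ : (ι → ℂ) ≃ᵃ[ℂ] (ι → ℂ)) v = ζ • v + l := γ.2

/-- The factor of automorphy with Chern form `6 κ h`. -/
noncomputable def thE (h : (ι → ℂ) → (ι → ℂ) → ℂ) (γ : kum ι m) (v : ι → ℂ) : ℂ :=
  exp (6 * (Real.pi * kap * (h ((γ : (ι → ℂ) ≃ᵃ[ℂ] (ι → ℂ)) v) ((γ : (ι → ℂ) ≃ᵃ[ℂ] (ι → ℂ)) 0) -
    h ((γ : (ι → ℂ) ≃ᵃ[ℂ] (ι → ℂ)) 0) ((γ : (ι → ℂ) ≃ᵃ[ℂ] (ι → ℂ)) 0) / 2)))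

variable {h : (ι → ℂ) → (ι → ℂ) → ℂ}

theorem herm_real (hh : IsHermitian h) (v : ι → ℂ) : h v v = ((h v v).re : ℂ) :=
  (Complex.conj_eq_iff_re.1 (hh.symm v v).symm).symm

theorem thE_eq (hh : IsHermitian h) {γ : kum ι m} {ζ : ℂ} {l : ι → ℂ}
    (hγ : ∀ v, (γ : (ι → ℂ) ≃ᵃ[ℂ] (ι → ℂ)) v = ζ • v + l) (v : ι → ℂ) :
    thE h γ v = exp (6 * (Real.pi * kap * (ζ * h v l + h l l / 2))) := by
  unfold thE
  rw [hγ, hγ, smul_zero, zero_add, hh.add_left, hh.smul_left]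
  congr 3
  ring

theorem exp_int_shift {z : ℂ} (hz : IsEis z) (X : ℂ) :
    exp (6 * (Real.pi * kap * (X - I * (z.im : ℂ)))) = exp (6 * (Real.pi * kap * X)) := by
  obtain ⟨n, hn⟩ := kap_im hz
  rw [exp_eq_exp_iff_exists_int]
  refine ⟨-(3 * n), ?_⟩
  have h1 : (kap : ℂ) * (z.im : ℂ) = n := by
    rw [← ofReal_mul, hn, ofReal_intCast]
  push_cast
  linear_combination (-6 * Real.pi * I) * h1

theorem kap_om : (kap : ℂ) * (2 * om + 1) = 2 * I := by
  have hk : (kap : ℂ) * ((√3 : ℝ) : ℂ) = 2 := by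
    rw [← ofReal_mul, kap_sqrt]; norm_num
  have ho : om = -1 / 2 + ((√3 : ℝ) : ℂ) / 2 * I := by
    apply Complex.ext
    · simp [om]
    · simp [om]
  rw [ho]
  linear_combination I * hk

theorem thE_mul (hh : IsHermitian h) (hint : ∀ u w, Lat u → Lat w → IsEis (h u w))
    (γ δ : kum ι m) (v : ι → ℂ) :
    thE h (γ * δ) v = thE h γ ((δ : (ι → ℂ) ≃ᵃ[ℂ] (ι → ℂ)) v) * thE h δ v := by
  obtain ⟨ζ, l, h1, h2, h3, h4⟩ := kum_spec γ
  obtain ⟨ξ, k, h5, h6, h7, h8⟩ := kum_spec δ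
  have h9 : ∀ v, ((γ * δ : kum ι m) : (ι → ℂ) ≃ᵃ[ℂ] (ι → ℂ)) v = (ζ * ξ) • v + (ζ • k + l) := by
    intro v
    have : ((γ * δ : kum ι m) : (ι → ℂ) ≃ᵃ[ℂ] (ι → ℂ)) v =
      (γ : (ι → ℂ) ≃ᵃ[ℂ] (ι → ℂ)) ((δ : (ι → ℂ) ≃ᵃ[ℂ] (ι → ℂ)) v) := rfl
    rw [this, h8, h4, smul_add, smul_smul, add_assoc]
  rw [thE_eq hh h9, thE_eq hh h4, thE_eq hh h8, h8]
  have hlk : Lat (ζ • k) := fun i => (IsEis.of_pow_six h2).mul (h7 i)
  have hz := hint (ζ • k) l hlk h3
  have hzn : ζ * (starRingEnd ℂ) ζ = 1 := by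
    rw [Complex.mul_conj]
    have h10 : ‖ζ‖ ^ 6 = 1 := by rw [← norm_pow, h2, norm_one]
    have h11 : ‖ζ‖ = 1 := (pow_eq_one_iff_of_nonneg (norm_nonneg _) (by norm_num)).1 h10
    rw [normSq_eq_norm_sq, h11]; norm_num
  rw [← exp_add]
  have hX : exp (6 * (Real.pi * kap * (ζ * h (ξ • v + k) l + h l l / 2))
      + 6 * (Real.pi * kap * (ξ * h v k + h k k / 2))) =
      exp (6 * (Real.pi * kap * (ζ * h (ξ • v + k) l + h l l / 2 + (ξ * h v k + h k k / 2)))) := by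
    congr 1; ring
  rw [hX, ← exp_int_shift hz (ζ * h (ξ • v + k) l + h l l / 2 + (ξ * h v k + h k k / 2))]
  congr 3
  have e1 : h l (ζ • k) = (starRingEnd ℂ) (h (ζ • k) l) := hh.symm _ _
  have e2 : h (ζ • k) l - (starRingEnd ℂ) (h (ζ • k) l) = 2 * ((h (ζ • k) l).im : ℂ) * I := by
    rw [Complex.sub_conj]; push_cast; ring
  have e3 : h v (ζ • k) = (starRingEnd ℂ) ζ * h v k := h_smul_right hh _ _ _
  have e4 : h (ζ • k) (ζ • k) = h k k := by
    rw [hh.smul_left, h_smul_right hh]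
    linear_combination h k k * hzn
  have e5 : h (ζ • k + l) (ζ • k + l) = h k k + h (ζ • k) l + (starRingEnd ℂ) (h (ζ • k) l)
      + h l l := by
    rw [hh.add_left, h_add_right hh, h_add_right hh, e1, e4]; ring
  have e6 : h v (ζ • k + l) = (starRingEnd ℂ) ζ * h v k + h v l := by
    rw [h_add_right hh, e3]
  have e7 : h (ξ • v + k) l = ξ * h v l + h k l := by rw [hh.add_left, hh.smul_left]
  have e8 : h (ζ • k) l = ζ * h k l := hh.smul_left _ _ _
  rw [e5, e6, e7]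
  rw [e8] at e2 ⊢
  linear_combination (ξ * h v k) * hzn + (1 / 2 : ℂ) * (-e2)

theorem thE_one (hh : IsHermitian h) {γ : kum ι m} (hγ : (γ : (ι → ℂ) ≃ᵃ[ℂ] (ι → ℂ)) 0 = 0)
    (v : ι → ℂ) : thE h γ v = 1 := by
  unfold thE
  rw [hγ, h_zero_right hh, h_zero_right hh]
  simp

/-- The stabilisers of all points act trivially. -/
theorem thE_stab (hh : IsHermitian h) (hint : ∀ u w, Lat u → Lat w → IsEis (h u w))
    (γ : kum ι m) (v : ι → ℂ) (hv : (γ : (ι → ℂ) ≃ᵃ[ℂ] (ι → ℂ)) v = v) : thE h γ v = 1 := by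
  obtain ⟨ζ, l, h1, h2, h3, h4⟩ := kum_spec γ
  rw [thE_eq hh h4]
  have hl : l = (1 - ζ) • v := by
    rw [h4] at hv
    rw [sub_smul, one_smul]
    exact eq_sub_of_add_eq' hv
  have e1 : h v l = (starRingEnd ℂ) (1 - ζ) * h v v := by rw [hl, h_smul_right hh]
  have e2 : h l l = (1 - ζ) * ((starRingEnd ℂ) (1 - ζ) * h v v) := by
    conv_lhs => rw [hl]
    rw [hh.smul_left, h_smul_right hh]
  obtain ⟨n, hn⟩ := (hint l l h3 h3).real (by rw [herm_real hh l, ofReal_im])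
  have hom := om_sq
  have hk := kap_om
  have hcom := conj_om
  rw [e1]
  rcases six_cases h2 with rfl | rfl | rfl | rfl | rfl | rfl
  · rw [e2]
    simp
  · rw [e2]
    have : (starRingEnd ℂ) (1 - -1 : ℂ) = 2 := by
      rw [map_sub, map_neg, map_one]; norm_num
    rw [this]
    have : (6 : ℂ) * (Real.pi * kap * (-1 * (2 * h v v) + (1 - -1) * (2 * h v v) / 2)) = 0 := by
      ring
    rw [this, exp_zero]
  · have hc : (starRingEnd ℂ) (1 - om) = 2 + om := by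
      rw [map_sub, map_one, hcom]; ring
    rw [hc] at e2 ⊢
    have ht : h v v = n / 3 := by
      rw [hn] at e2
      have : (1 - om) * ((2 + om) * h v v) = 3 * h v v := by linear_combination (-h v v) * hom
      rw [this] at e2
      rw [e2]
      ring
    rw [hn, ht, exp_eq_one_iff]
    refine ⟨n, ?_⟩
    linear_combination (2 * Real.pi * kap * n) * hom + (Real.pi * n) * hk
  · have hc : (starRingEnd ℂ) (1 - om * om) = 1 - om := by
      rw [hom, map_sub, map_sub, map_neg, map_one, hcom]; ring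
    rw [hc] at e2 ⊢
    have ht : h v v = n / 3 := by
      rw [hn] at e2
      have : (1 - om * om) * ((1 - om) * h v v) = 3 * h v v := by
        linear_combination (om * h v v - 2 * h v v) * hom
      rw [this] at e2
      rw [e2]
      ring
    rw [hn, ht, exp_eq_one_iff]
    refine ⟨-n, ?_⟩
    push_cast
    linear_combination (2 * Real.pi * kap * n * (2 - om)) * hom - (Real.pi * n) * hk
  · have hc : (starRingEnd ℂ) (1 - -om) = -om := by
      rw [map_sub, map_neg, map_one, hcom]; ring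
    rw [hc] at e2 ⊢
    have ht : h v v = n := by
      rw [hn] at e2
      have : (1 - -om) * (-om * h v v) = h v v := by linear_combination (-h v v) * hom
      rw [this] at e2
      exact e2.symm
    rw [hn, ht, exp_eq_one_iff]
    refine ⟨-(3 * n), ?_⟩
    push_cast
    linear_combination (6 * Real.pi * kap * n) * hom - (3 * Real.pi * n) * hk
  · have hc : (starRingEnd ℂ) (1 - -(om * om)) = -(om * om) := by
      rw [hom, map_sub, map_neg, map_sub, map_neg, map_one, hcom]; ring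
    rw [hc] at e2 ⊢
    have ht : h v v = n := by
      rw [hn] at e2
      have : (1 - -(om * om)) * (-(om * om) * h v v) = h v v := by
        linear_combination (-(om * om - om + 1) * h v v) * hom
      rw [this] at e2
      exact e2.symm
    rw [hn, ht, exp_eq_one_iff]
    refine ⟨3 * n, ?_⟩
    push_cast
    linear_combination (6 * Real.pi * kap * n * (om * om - om)) * hom + (3 * Real.pi * n) * hk

end Pool.Agent.R895
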