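import Pool.Agent.R895.Bun

/-!
# Line bundles and sections given by theta functions, continued
-/

set_option autoImplicit false

namespace Pool.Agent.R895

open Complex Filter Topology Asymptotics
open Matrix hiding IsHermitian
open Pool.Agent.W594.SYZ2 (IsHermitian)
open Pool.Agent.W594.SYZ2.TQ (h_add_right h_smul_right h_zero_left h_zero_right h_neg_left
  h_sub_left h_re_symm)
open Pool.Agent.Y167 (AffGrp)

variable {ι : Type*} [Fintype ι] {m : ℕ} {h : (ι → ℂ) → (ι → ℂ) → ℂ}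

theorem herm_differentiable (hh : IsHermitian h) (w : ι → ℂ) : Differentiable ℂ fun v => h v w := by
  let L : (ι → ℂ) →ₗ[ℂ] ℂ :=
    { toFun := fun v => h v w
      map_add' := fun u v => hh.add_left u v w
      map_smul' := fun a v => hh.smul_left a v w }
  exact (LinearMap.toContinuousLinearMap L).differentiable

/-- The line bundle with Chern form `6 κ h` and coefficient `6 b`. -/
noncomputable def thB [Nonempty ι] (m : ℕ) (hh : IsHermitian h)
    (hint : ∀ u w, Lat u → Lat w → IsEis (h u w)) (b : ℕ) : BlBundle (kum ι m) where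
  e := thE h
  k := 6 * b
  holo := fun γ => by
    obtain ⟨ζ, l, -, -, -, h4⟩ := kum_spec γ
    have h5 : thE h γ = fun v => exp (6 * (Real.pi * kap * (ζ * h v l + h l l / 2))) :=
      funext fun v => thE_eq hh h4 v
    rw [h5]
    have h6 := herm_differentiable hh l
    fun_prop
  ne_zero := fun γ v => exp_ne_zero _
  mul := thE_mul hh hint
  stab := fun γ v hv _ => thE_stab hh hint γ v hv
  exc := fun γ ζ hγ' => by
    have hγ : ∀ v, (γ : (ι → ℂ) ≃ᵃ[ℂ] (ι → ℂ)) v = ζ • v := hγ'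
    have h0 : (γ : (ι → ℂ) ≃ᵃ[ℂ] (ι → ℂ)) 0 = 0 := by rw [hγ, smul_zero]
    rw [thE_one hh h0]
    obtain ⟨ξ, l, -, h2, -, h4⟩ := kum_spec γ
    have hl : l = 0 := by
      have := h4 0
      rw [h0, smul_zero, zero_add] at this
      exact this.symm
    have hz : ζ = ξ := by
      have h5 := hγ (fun _ => 1)
      rw [h4, hl, add_zero] at h5
      have h6 := congrFun h5 (Classical.arbitrary ι)
      simpa using h6.symm
    have h7 : (6 * b : ℤ) = ((6 * b : ℕ) : ℤ) := by push_cast; ring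
    rw [h7, zpow_natCast, pow_mul, hz, h2, one_pow]

theorem norm_root {ζ : ℂ} (h : ζ ^ 6 = 1) : ζ * (starRingEnd ℂ) ζ = 1 := by
  rw [Complex.mul_conj]
  have h10 : ‖ζ‖ ^ 6 = 1 := by rw [← norm_pow, h, norm_one]
  have h11 : ‖ζ‖ = 1 := (pow_eq_one_iff_of_nonneg (norm_nonneg _) (by norm_num)).1 h10
  rw [normSq_eq_norm_sq, h11]; norm_num

theorem thB_chern [Nonempty ι] (m : ℕ) (hh : IsHermitian h)
    (hint : ∀ u w, Lat u → Lat w → IsEis (h u w)) (b : ℕ) :
    (thB m hh hint b).IsChern fun u w => 6 * kap * h u w := by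
  refine ⟨⟨fun u v w => ?_, fun a v w => ?_, fun v w => ?_⟩, fun _ => 0, differentiable_const _,
    fun γ v => ?_⟩
  · rw [hh.add_left]; ring
  · rw [hh.smul_left]; ring
  · rw [map_mul, map_mul, conj_ofReal, ← hh.symm]
    congr 2
    exact (Complex.conj_natCast 6).symm
  · obtain ⟨ζ, l, -, h2, -, h4⟩ := kum_spec γ
    have h5 : (thB m hh hint b).e γ v =
        exp (6 * (Real.pi * kap * (ζ * h v l + h l l / 2))) := thE_eq hh h4 v
    have h4 : ∀ v, act γ v = ζ • v + l := h4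
    rw [h5, norm_exp, ← Real.exp_nat_mul, h4]
    congr 1
    beta_reduce
    have hzn := norm_root h2
    have e1 : h (ζ • v + l) (ζ • v + l) = h v v + ζ * h v l +
        (starRingEnd ℂ) (ζ * h v l) + h l l := by
      have e2 : h l v = (starRingEnd ℂ) (h v l) := hh.symm _ _
      rw [hh.add_left, h_add_right hh, h_add_right hh, hh.smul_left, hh.smul_left,
        h_smul_right hh, h_smul_right hh, e2, map_mul]
      linear_combination h v v * hzn
    rw [e1]
    have e3 : ∀ z : ℂ, (6 * (kap : ℂ) * z).re = 6 * kap * z.re := by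
      intro z
      have : (6 * (kap : ℂ) * z) = ((6 * kap : ℝ) : ℂ) * z := by push_cast; ring
      rw [this, re_ofReal_mul]
    have e4 : (6 * (Real.pi * kap * (ζ * h v l + h l l / 2)) : ℂ).re =
        6 * (Real.pi * kap * ((ζ * h v l).re + (h l l).re / 2)) := by
      have : (6 * (Real.pi * kap * (ζ * h v l + h l l / 2)) : ℂ) =
          ((6 * (Real.pi * kap) : ℝ) : ℂ) * (ζ * h v l + h l l / 2) := by push_cast; ring
      rw [this, re_ofReal_mul, add_re]
      have : (h l l / 2).re = (h l l).re / 2 := by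
        rw [← Complex.div_ofNat_re]
      rw [this]
      ring
    rw [e3, e3, e4, add_re, add_re, add_re, conj_re]
    push_cast
    simp only [zero_re]
    ring

/-- The product of theta functions given by the linear functions `l i`: those in `T` vanish at the
lattice points. -/
noncomputable def sec {M : ℕ} (l : Fin M → ι → ℂ) (T : Finset (Fin M)) (a : Fin M → ℂ)
    (v : ι → ℂ) : ℂ := (∏ i ∈ T, th 0 (l i ⬝ᵥ v)) * ∏ i ∈ Tᶜ, th (a i) (l i ⬝ᵥ v)

theorem sec_eq {M : ℕ} (l : Fin M → ι → ℂ) (T : Finset (Fin M)) (a : Fin M → ℂ) (v : ι → ℂ) :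
    sec l T a v = ∏ i, th (if i ∈ T then 0 else a i) (l i ⬝ᵥ v) := by
  unfold sec
  rw [← Finset.prod_mul_prod_compl T]
  congr 1
  · exact Finset.prod_congr rfl fun i hi => by rw [if_pos hi]
  · exact Finset.prod_congr rfl fun i hi => by rw [if_neg (Finset.mem_compl.1 hi)]

theorem lat_dot {l v : ι → ℂ} (hl : Lat l) (hv : Lat v) : IsEis (l ⬝ᵥ v) :=
  IsEis.dotProduct hl hv

theorem dot_differentiable (l : ι → ℂ) : Differentiable ℂ fun v : ι → ℂ => l ⬝ᵥ v := by
  unfold dotProduct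
  fun_prop

theorem prod_differentiable {κ : Type*} (T : Finset κ) (f : κ → (ι → ℂ) → ℂ)
    (hf : ∀ i, Differentiable ℂ (f i)) : Differentiable ℂ fun v => ∏ i ∈ T, f i v := by
  classical
  induction T using Finset.induction_on with
  | empty => simp
  | insert i s hi ih =>
    have h1 : (fun v => ∏ j ∈ insert i s, f j v) = fun v => f i v * ∏ j ∈ s, f j v :=
      funext fun v => Finset.prod_insert hi
    rw [h1]
    exact (hf i).mul ih

theorem sec_differentiable {M : ℕ} (l : Fin M → ι → ℂ) (T : Finset (Fin M)) (a : Fin M → ℂ) :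
    Differentiable ℂ (sec l T a) := by
  have h1 : ∀ (a : ℂ) (l : ι → ℂ), Differentiable ℂ fun v : ι → ℂ => th a (l ⬝ᵥ v) :=
    fun a l => (th_entire a).comp (dot_differentiable l)
  unfold sec
  refine Differentiable.mul ?_ ?_
  · exact prod_differentiable T _ fun i => h1 0 (l i)
  · exact prod_differentiable Tᶜ _ fun i => h1 (a i) (l i)

theorem prod_O {κ : Type*} (T : Finset κ) (f : κ → (ι → ℂ) → ℂ)
    (hf : ∀ i ∈ T, f i =O[𝓝 0] fun v : ι → ℂ => ‖v‖ ^ 6) :
    (fun v => ∏ i ∈ T, f i v) =O[𝓝 0] fun v : ι → ℂ => ‖v‖ ^ (6 * T.card) := by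
  classical
  induction T using Finset.induction_on with
  | empty =>
    simp only [Finset.prod_empty, Finset.card_empty, mul_zero, pow_zero]
    exact isBigO_of_le _ fun v => by simp
  | insert i s hi ih =>
    have h1 := (hf i (Finset.mem_insert_self _ _)).mul
      (ih fun j hj => hf j (Finset.mem_insert_of_mem hj))
    refine h1.congr (fun v => ?_) (fun v => ?_)
    · rw [Finset.prod_insert hi]
    · rw [Finset.card_insert_of_notMem hi]
      ring

theorem sec_O {M : ℕ} (l : Fin M → ι → ℂ) (T : Finset (Fin M)) (a : Fin M → ℂ) :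
    sec l T a =O[𝓝 0] fun v => ‖v‖ ^ (6 * T.card) := by
  have h1 : ∀ l : ι → ℂ, (fun v : ι → ℂ => th 0 (l ⬝ᵥ v)) =O[𝓝 0] fun v => ‖v‖ ^ 6 := by
    intro l
    have h2 : Tendsto (fun v : ι → ℂ => l ⬝ᵥ v) (𝓝 0) (𝓝 0) := by
      have := (dot_differentiable l).continuous.tendsto 0
      simpa using this
    have h3 := th_zero_O.comp_tendsto h2
    refine h3.trans ?_
    have h4 : (fun v : ι → ℂ => l ⬝ᵥ v) =O[𝓝 0] fun v => v := by
      have h5 := ((dot_differentiable l) 0).hasFDerivAt.isBigO_sub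
      simpa using h5
    exact (h4.norm_norm).pow 6
  have h2 := prod_O T (fun i v => th 0 (l i ⬝ᵥ v)) fun i _ => h1 (l i)
  have h3 : (fun v : ι → ℂ => ∏ i ∈ Tᶜ, th (a i) (l i ⬝ᵥ v)) =O[𝓝 0] fun _ => (1 : ℝ) := by
    have h4 : Differentiable ℂ fun v : ι → ℂ => ∏ i ∈ Tᶜ, th (a i) (l i ⬝ᵥ v) :=
      prod_differentiable Tᶜ _ fun i => (th_entire (a i)).comp (dot_differentiable (l i))
    exact h4.continuous.continuousAt.isBigO_one ℝ
  have h4 := h2.mul h3
  simp only [mul_one] at h4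
  exact h4

/-- The product of theta functions is a section. -/
theorem sec_isSection [Nonempty ι] (hh : IsHermitian h)
    (hint : ∀ u w, Lat u → Lat w → IsEis (h u w)) (b N : ℕ) {M : ℕ} (l : Fin M → ι → ℂ)
    (hl : ∀ i, Lat (l i)) (hsum : ∀ u w, N * h u w = ∑ i, (l i ⬝ᵥ u) * (starRingEnd ℂ) (l i ⬝ᵥ w))
    (T : Finset (Fin M)) (hT : T.card = N * b) (a : Fin M → ℂ) :
    ((thB m hh hint b).pow N).IsSection (sec l T a) := by
  refine ⟨sec_differentiable l T a, fun γ v => ?_, ?_⟩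
  · obtain ⟨ζ, k, -, h2, h3, h4⟩ := kum_spec γ
    have h5 : ((thB m hh hint b).pow N).e γ v =
        exp (6 * (Real.pi * kap * (ζ * h v k + h k k / 2))) ^ N := by
      rw [← thE_eq hh h4 v]; rfl
    have h4 : ∀ v, act γ v = ζ • v + k := h4
    rw [h5, h4, sec_eq, sec_eq]
    have h6 : ∀ i, th (if i ∈ T then 0 else a i) (l i ⬝ᵥ (ζ • v + k)) =
        exp (6 * (Real.pi * kap * (ζ * ((l i ⬝ᵥ v) * (starRingEnd ℂ) (l i ⬝ᵥ k)) +
          (l i ⬝ᵥ k) * (starRingEnd ℂ) (l i ⬝ᵥ k) / 2))) *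
          th (if i ∈ T then 0 else a i) (l i ⬝ᵥ v) := by
      intro i
      rw [dotProduct_add, dotProduct_smul, smul_eq_mul, th_add _ _ (lat_dot (hl i) h3),
        th_rot _ _ h2, mul_assoc ζ]
    rw [Finset.prod_congr rfl fun i _ => h6 i, Finset.prod_mul_distrib, ← exp_sum, ← exp_nat_mul]
    congr 2
    rw [← Finset.mul_sum, ← Finset.mul_sum, Finset.sum_add_distrib, ← Finset.mul_sum,
      ← Finset.sum_div, ← hsum, ← hsum]
    ring
  · have h1 : ((thB m hh hint b).pow N).k.toNat = 6 * T.card := by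
      have h2 : ((thB m hh hint b).pow N).k = N * (6 * b) := rfl
      rw [h2, hT]
      have : (N * (6 * b) : ℤ) = ((6 * (N * b) : ℕ) : ℤ) := by push_cast; ring
      rw [this, Int.toNat_natCast]
    rw [h1]
    exact sec_O l T a

theorem sec_nonvanishing [Nonempty ι] (hh : IsHermitian h)
    (hint : ∀ u w, Lat u → Lat w → IsEis (h u w)) (b N : ℕ) {M : ℕ} (l : Fin M → ι → ℂ)
    (T : Finset (Fin M)) (hT : T.card = N * b) (a : Fin M → ℂ) (ha : ∀ i, th (a i) 0 ≠ 0)
    {u : ι → ℂ} (hu : ∀ i ∈ T, l i ⬝ᵥ u ≠ 0) :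
    ((thB m hh hint b).pow N).NonvanishingAt (sec l T a) u := by
  have h1 : ((thB m hh hint b).pow N).k = ((6 * T.card : ℕ) : ℤ) := by
    have h2 : ((thB m hh hint b).pow N).k = N * (6 * b) := rfl
    rw [h2, hT]
    push_cast
    ring
  choose! d hd1 hd2 using fun i (hi : i ∈ T) => th_zero_lim (hu i hi)
  refine ⟨(∏ i ∈ T, d i) * ∏ i ∈ Tᶜ, th (a i) 0, ?_, ?_⟩
  · exact mul_ne_zero (Finset.prod_ne_zero_iff.2 fun i hi => hd1 i hi)
      (Finset.prod_ne_zero_iff.2 fun i _ => ha i)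
  · rw [h1]
    have h2 : ∀ t : ℂ, sec l T a (t • u) / t ^ ((6 * T.card : ℕ) : ℤ) =
        (∏ i ∈ T, (th 0 (t * (l i ⬝ᵥ u)) / t ^ 6)) * ∏ i ∈ Tᶜ, th (a i) (t * (l i ⬝ᵥ u)) := by
      intro t
      unfold sec
      rw [Finset.prod_div_distrib, Finset.prod_const, zpow_natCast, pow_mul]
      simp only [dotProduct_smul, smul_eq_mul]
      ring
    simp only [h2]
    refine Tendsto.mul (tendsto_finsetProd _ fun i hi => hd2 i hi) (tendsto_finsetProd _ fun i _ => ?_)
    have h3 : Continuous fun t : ℂ => th (a i) (t * (l i ⬝ᵥ u)) := by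
      have h4 : Continuous fun t : ℂ => t * (l i ⬝ᵥ u) := by fun_prop
      exact (th_entire (a i)).continuous.comp h4
    have h5 := h3.tendsto 0
    rw [zero_mul] at h5
    exact h5.mono_left nhdsWithin_le_nhds

/-- An integral multiple of `h` is a sum of squares of integral linear functions such that `b` of
them (relative to the multiple) are not in `J`. -/
def Dec (h : (ι → ℂ) → (ι → ℂ) → ℂ) (b : ℕ) (J : Set (ι → ℂ)) : Prop :=
  ∃ (N M : ℕ) (l : Fin M → ι → ℂ), 1 ≤ N ∧ (∀ i, Lat (l i)) ∧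
    (∀ u w, N * h u w = ∑ i, (l i ⬝ᵥ u) * (starRingEnd ℂ) (l i ⬝ᵥ w)) ∧
      ∃ T : Finset (Fin M), T.card = N * b ∧ ∀ i ∈ T, l i ∉ J

theorem mem_kum_trans {v : ι → ℂ} (hv : Lat v) : AffineEquiv.constVAdd ℂ (ι → ℂ) v ∈ kum ι m :=
  ⟨1, v, one_pow _, one_pow _, hv, fun w => by
    rw [one_smul, AffineEquiv.constVAdd_apply, vadd_eq_add, add_comm]⟩

theorem semiample_of_dec [Nonempty ι] (hh : IsHermitian h)
    (hint : ∀ u w, Lat u → Lat w → IsEis (h u w)) (b : ℕ)
    (h1 : ∀ v, ¬Lat v → Dec h b {l | IsEis (l ⬝ᵥ v)})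
    (h2 : ∀ u : ι → ℂ, u ≠ 0 → Dec h b {l | l ⬝ᵥ u = 0}) : (thB m hh hint b).IsSemiample := by
  refine ⟨fun v hv => ?_, fun u hu => ?_⟩
  · have hv' : ¬Lat v := by
      intro h
      apply hv ⟨_, mem_kum_trans h⟩
      show AffineEquiv.constVAdd ℂ (ι → ℂ) v 0 = v
      rw [AffineEquiv.constVAdd_apply, vadd_eq_add, add_zero]
    obtain ⟨N, M, l, hN, hl, hsum, T, hT, hTJ⟩ := h1 v hv'
    choose a ha using fun i => exists_th_ne (l i ⬝ᵥ v)
    refine ⟨N, hN, sec l T a, sec_isSection hh hint b N l hl hsum T hT a, ?_⟩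
    unfold sec
    exact mul_ne_zero (Finset.prod_ne_zero_iff.2 fun i hi => th_zero_ne (hTJ i hi))
      (Finset.prod_ne_zero_iff.2 fun i _ => ha i)
  · obtain ⟨N, M, l, hN, hl, hsum, T, hT, hTJ⟩ := h2 u hu
    obtain ⟨a, ha⟩ := exists_th_ne 0
    exact ⟨N, hN, sec l T fun _ => a, sec_isSection hh hint b N l hl hsum T hT _,
      sec_nonvanishing hh hint b N l T hT _ (fun _ => ha) hTJ⟩

/-- There is a section which is not zero. -/
theorem section_of_dec [Nonempty ι] (hh : IsHermitian h)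
    (hint : ∀ u w, Lat u → Lat w → IsEis (h u w)) (b : ℕ) (h1 : Dec h b {0}) :
    ∃ N : ℕ, 1 ≤ N ∧ ∃ s, ((thB m hh hint b).pow N).IsSection s ∧ ∃ v, s v ≠ 0 := by
  obtain ⟨N, M, l, hN, hl, hsum, T, hT, hTJ⟩ := h1
  obtain ⟨a, ha⟩ := exists_th_ne 0
  -- a vector on which the functions in `T` do not vanish
  obtain ⟨u, hu⟩ : ∃ u : ι → ℂ, ∀ i ∈ T, l i ⬝ᵥ u ≠ 0 := by
    let sub : Fin M → Submodule ℚ (ι → ℂ) := fun i =>
      { carrier := {u | l i ⬝ᵥ u = 0}
        add_mem' := fun {u w} hu hw => by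
          show l i ⬝ᵥ (u + w) = 0
          have hu' : l i ⬝ᵥ u = 0 := hu
          have hw' : l i ⬝ᵥ w = 0 := hw
          rw [dotProduct_add, hu', hw', add_zero]
        zero_mem' := dotProduct_zero _
        smul_mem' := fun c u hu => by
          show l i ⬝ᵥ (c • u) = 0
          have hu' : l i ⬝ᵥ u = 0 := hu
          rw [dotProduct_smul, hu', smul_zero] }
    obtain ⟨u, hu⟩ := Pool.Agent.Y167.avoid T sub fun i hi htop => by
      apply hTJ i hi
      show l i = 0
      ext k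
      classical
      have h2 : (Pi.single k 1 : ι → ℂ) ∈ sub i := by rw [htop]; exact Submodule.mem_top
      have h3 : l i ⬝ᵥ (Pi.single k 1) = 0 := h2
      rwa [dotProduct_single, mul_one] at h3
    exact ⟨u, fun i hi h => hu i hi h⟩
  obtain ⟨c, hc, hlim⟩ := sec_nonvanishing (m := m) hh hint b N l T hT (fun _ => a) (fun _ => ha) hu
  refine ⟨N, hN, sec l T fun _ => a, sec_isSection hh hint b N l hl hsum T hT _, ?_⟩
  by_contra hcon
  push Not at hcon
  apply hc
  refine tendsto_nhds_unique hlim ?_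
  simp only [hcon, zero_div]
  exact tendsto_const_nhds

end Pool.Agent.R895
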