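import Pool.Agent.R895.Lift

/-!
# Classes of line bundles: existence and bounds
-/

set_option autoImplicit false

namespace Pool.Agent.R895

open Matrix hiding IsHermitian
open Filter Topology
open Pool.Agent.W594.SYZ2 (IsHermitian)
open Pool.Agent.W594.SYZ2.TQ (h_add_right h_smul_right h_zero_left h_zero_right)

variable {ι : Type*} [Fintype ι] {r m : ℕ} {ρ : Fin r → ι} {h : (Fin r → ℂ) → (Fin r → ℂ) → ℂ}

/-- The data of an integral hermitian form. -/
structure Dat (h : (Fin r → ℂ) → (Fin r → ℂ) → ℂ) : Prop where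
  herm : IsHermitian h
  int : ∀ u w, Lat u → Lat w → IsEis (h u w)

namespace Dat

theorem val (D : Dat h) {v : Fin r → ℂ} (hv : Lat v) : ∃ n : ℤ, (h v v).re = n := by
  obtain ⟨n, hn⟩ := (D.int v v hv hv).real (by rw [herm_real D.herm]; simp)
  exact ⟨n, by rw [hn]; simp⟩

theorem pd (D : Dat h) (hp : ∀ v, v ≠ 0 → 0 < (h v v).re) : Pd (Matrix.of (mx h)) :=
  ⟨mx_herm D.herm, fun v hv => by
    rw [mx_q D.herm]
    exact hp _ (by rwa [star_ne_zero])⟩

theorem psd (D : Dat h) (hp : ∀ v, 0 ≤ (h v v).re) : Psd (Matrix.of (mx h)) :=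
  ⟨mx_herm D.herm, fun v => by
    rw [mx_q D.herm]
    exact hp _⟩

end Dat

theorem exists_single {v : Fin r → ℂ} (hv : ¬Lat v) : ∃ l : Fin r → ℂ, IsLat l ∧ ¬IsEis (l ⬝ᵥ v) := by
  unfold Lat at hv
  push Not at hv
  obtain ⟨a, ha⟩ := hv
  exact ⟨Pi.single a 1, lat_single a, by rwa [single_dot]⟩

theorem exists_single' {v : Fin r → ℂ} (hv : v ≠ 0) : ∃ l : Fin r → ℂ, IsLat l ∧ l ⬝ᵥ v ≠ 0 := by
  obtain ⟨a, ha⟩ := Function.ne_iff.1 hv
  exact ⟨Pi.single a 1, lat_single a, by rwa [single_dot]⟩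

theorem isSub_eis (v : Fin r → ℂ) : IsSub {l : Fin r → ℂ | IsEis (l ⬝ᵥ v)} where
  zero := by
    show IsEis (0 ⬝ᵥ v)
    rw [zero_dotProduct]
    exact IsEis.zero
  add x hx y hy := by
    show IsEis ((x + y) ⬝ᵥ v)
    rw [add_dotProduct]
    exact IsEis.add hx hy
  smul a ha x hx := by
    show IsEis ((a • x) ⬝ᵥ v)
    rw [smul_dotProduct]
    exact ha.mul hx

theorem isSub_zero (v : Fin r → ℂ) : IsSub {l : Fin r → ℂ | l ⬝ᵥ v = 0} where
  zero := zero_dotProduct v
  add x hx y hy := by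
    have hx' : x ⬝ᵥ v = 0 := hx
    have hy' : y ⬝ᵥ v = 0 := hy
    show (x + y) ⬝ᵥ v = 0
    rw [add_dotProduct, hx', hy', add_zero]
  smul a _ x hx := by
    have hx' : x ⬝ᵥ v = 0 := hx
    show (a • x) ⬝ᵥ v = 0
    rw [smul_dotProduct, hx', smul_zero]

/-- The line bundle given by a form which is large on the lattice is semiample. -/
theorem semiample_thB [Nonempty ι] (hr : r ≤ 4) (D : Dat h) (b : ℕ)
    (hp : ∀ v, v ≠ 0 → 0 < (h v v).re) (hb : ∀ v, Lat v → v ≠ 0 → (b : ℝ) < (h v v).re) :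
    (thB m (exH_herm (ρ := ρ) D.herm b) (exH_int D.int b) b).IsSemiample := by
  classical
  have hpsd : Psd (Matrix.of (mx h)) := (D.pd hp).psd
  have hmin : ∀ w, IsLat w → w ≠ 0 → (b : ℝ) + 1 ≤ q (Matrix.of (mx h)) w := by
    intro w hw hw0
    rw [mx_q D.herm]
    obtain ⟨n, hn⟩ := D.val (lat_star hw)
    have h1 := hb (star w) (lat_star hw) (by rwa [star_ne_zero])
    rw [hn] at h1 ⊢
    have h2 : (b : ℤ) < n := by exact_mod_cast h1
    have h3 : (b : ℤ) + 1 ≤ n := h2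
    exact_mod_cast h3
  have key1 : ∀ {J : Set (ι → ℂ)} {J' : Set (Fin r → ℂ)}, IsSub J' →
      (∃ l : Fin r → ℂ, IsLat l ∧ l ∉ J') → (∀ l, ext ρ l ∈ J → l ∈ J') →
      Dec (exH ρ b h) b J := by
    intro J J' hJ' hne hJ
    refine dec_of_RC (exA_mem_of b (RC.lift (J' := J') ?_ hJ)) (exH_eq D.herm b)
    exact RC_of_lt hr (D.pd hp) (mx_eis D.int) (Nat.cast_nonneg b) (lt_add_one _) hmin hJ' hne
  have key2 : ∀ {J : Set (ι → ℂ)} {i : ι}, i ∈ co ρ → Pi.single i 1 ∉ J →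
      Dec (exH ρ b h) b J := by
    intro J i hi hJ
    refine dec_of_RC (exA_mem_of' le_rfl (RC.lift (J' := Set.univ) ?_ fun _ _ => Set.mem_univ _)
      hi ?_) (exH_eq D.herm b)
    · exact RC_psd hpsd (mx_eis D.int)
    · convert hJ
  refine semiample_of_dec _ _ b (fun v hv => ?_) fun u hu => ?_
  · by_cases h1 : Lat (v ∘ ρ)
    · obtain ⟨i, hi⟩ : ∃ i, ¬IsEis (v i) := by
        by_contra hcon
        push Not at hcon
        exact hv hcon
      refine key2 (i := i) ?_ ?_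
      · rw [mem_co]
        rintro a rfl
        exact hi (h1 a)
      · show ¬IsEis (Pi.single i 1 ⬝ᵥ v)
        rwa [single_dot]
    · refine key1 (isSub_eis (v ∘ ρ)) ?_ fun l hl => ?_
      · obtain ⟨l, hl1, hl2⟩ := exists_single h1
        exact ⟨l, hl1, hl2⟩
      · have : IsEis (ext ρ l ⬝ᵥ v) := hl
        rw [ext_dot] at this
        exact this
  · by_cases h1 : u ∘ ρ = 0
    · obtain ⟨i, hi⟩ := Function.ne_iff.1 hu
      refine key2 (i := i) ?_ ?_
      · rw [mem_co]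
        rintro a rfl
        exact hi (congrFun h1 a)
      · show ¬(Pi.single i 1 ⬝ᵥ u = 0)
        rw [single_dot]
        exact hi
    · refine key1 (isSub_zero (u ∘ ρ)) ?_ fun l hl => ?_
      · obtain ⟨l, hl1, hl2⟩ := exists_single' h1
        exact ⟨l, hl1, hl2⟩
      · have : ext ρ l ⬝ᵥ u = 0 := hl
        rw [ext_dot] at this
        exact this

theorem section_thB [Nonempty ι] (hρ : Function.Injective ρ) (hr0 : 2 ≤ r) (hr : r ≤ 4)
    (D : Dat h) (b : ℕ)
    (hp : ∀ v, v ≠ 0 → 0 < (h v v).re) (hb : ∀ v, Lat v → v ≠ 0 → (b : ℝ) ≤ (h v v).re) :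
    ∃ N : ℕ, 1 ≤ N ∧ ∃ s,
      ((thB m (exH_herm (ρ := ρ) D.herm b) (exH_int D.int b) b).pow N).IsSection s ∧
        ∃ v, s v ≠ 0 := by
  refine section_of_dec _ _ b (dec_of_RC (exA_mem_of b (RC.lift (J' := {0}) ?_ ?_))
    (exH_eq D.herm b))
  · rcases Nat.eq_zero_or_pos b with rfl | hb0
    · rw [Nat.cast_zero]
      exact RC_psd (D.pd hp).psd (mx_eis D.int)
    · refine RC_zero hr0 hr (D.pd hp) (mx_eis D.int) (by exact_mod_cast hb0) fun w hw hw0 => ?_
      rw [mx_q D.herm]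
      exact hb (star w) (lat_star hw) (by rwa [star_ne_zero])
  · intro l hl
    have hl' : ext ρ l = 0 := hl
    show l = 0
    ext a
    rw [← ext_apply hρ l a, hl']
    rfl

theorem section_thB_zero [Nonempty ι] (D : Dat h) (hp : ∀ v, 0 ≤ (h v v).re) :
    ∃ N : ℕ, 1 ≤ N ∧ ∃ s,
      ((thB m (exH_herm (ρ := ρ) D.herm 0) (exH_int D.int 0) 0).pow N).IsSection s ∧
        ∃ v, s v ≠ 0 := by
  refine section_of_dec _ _ 0 (dec_of_RC (exA_mem_of 0 (RC.lift (J' := Set.univ) ?_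
    fun _ _ => Set.mem_univ _)) (exH_eq D.herm 0))
  rw [Nat.cast_zero]
  exact RC_psd (D.psd hp) (mx_eis D.int)

/-- The linear map `j` is the inclusion of the coordinates in the range of `ρ`. -/
def IsExt (ρ : Fin r → ι) (j : (Fin r → ℂ) →ₗ[ℂ] (ι → ℂ)) : Prop := ∀ u, j u = ext ρ u

variable {j : (Fin r → ℂ) →ₗ[ℂ] (ι → ℂ)}

theorem IsExt.comp (hj : IsExt ρ j) (hρ : Function.Injective ρ) (u : Fin r → ℂ) : j u ∘ ρ = u := by
  rw [hj]
  funext a
  exact ext_apply hρ u a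

theorem IsExt.co (hj : IsExt ρ j) (u : Fin r → ℂ) {i : ι} (hi : i ∈ co ρ) : j u i = 0 := by
  classical
  rw [hj, ext]
  rw [mem_co] at hi
  exact Finset.sum_eq_zero fun a _ => by rw [if_neg (hi a)]

theorem IsExt.inj (hj : IsExt ρ j) (hρ : Function.Injective ρ) : Function.Injective j := by
  intro u w huw
  rw [← hj.comp hρ u, ← hj.comp hρ w, huw]

theorem IsExt.lat (hj : IsExt ρ j) {u : Fin r → ℂ} (hu : Lat u) : Lat (j u) := by
  rw [hj]
  exact ext_lat hu

theorem IsExt.exH (hj : IsExt ρ j) (hρ : Function.Injective ρ) (c : ℕ) (u w : Fin r → ℂ) :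
    exH ρ c h (j u) (j w) = h u w := by
  unfold Pool.Agent.R895.exH
  rw [hj.comp hρ, hj.comp hρ, Finset.sum_eq_zero fun i hi => by rw [hj.co u hi, zero_mul],
    mul_zero, add_zero]

/-- The class of the line bundle. -/
theorem isClass_thB [Nonempty ι] (hj : IsExt ρ j) (hρ : Function.Injective ρ) (D : Dat h)
    (b c : ℕ) : IsClass j (thB m (exH_herm (ρ := ρ) D.herm c) (exH_int D.int c) b)
      (fun u w => 6 * kap * h u w, 6 * b) := by
  refine ⟨_, thB_chern m _ _ b, fun u w => ?_, ?_⟩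
  · show 6 * kap * h u w = 6 * kap * exH ρ c h (j u) (j w)
    rw [hj.exH hρ]
  · show (6 * b : ℝ) = ((6 * b : ℤ) : ℝ)
    push_cast
    rfl

theorem isClass_pow {L : BlBundle (kum ι m)} {x : ((Fin r → ℂ) → (Fin r → ℂ) → ℂ) × ℝ}
    (hL : IsClass j L x) (N : ℕ) : IsClass j (L.pow N) ((N : ℝ) • x) := by
  obtain ⟨H, h1, h2, h3⟩ := hL
  refine ⟨_, pow_chern h1 N, fun u w => ?_, ?_⟩
  · show (N : ℝ) • x.1 u w = _
    rw [h2, Complex.real_smul]
    push_cast
    rfl
  · show (N : ℝ) • x.2 = _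
    have : (L.pow N).k = N * L.k := rfl
    rw [this, h3, smul_eq_mul]
    push_cast
    rfl

/-- A class which is the class of a line bundle. -/
theorem mem_N1 {L : BlBundle (kum ι m)} {x : ((Fin r → ℂ) → (Fin r → ℂ) → ℂ) × ℝ}
    (hL : IsClass j L x) : ∃ y : N1 (kum ι m) j, y ∈ integral (kum ι m) j ∧ form y = x.1 ∧
      coef y = x.2 := by
  refine ⟨⟨x, Submodule.subset_span ⟨L, hL⟩⟩, ⟨L, hL⟩, rfl, rfl⟩

theorem N1_ext {x y : N1 (kum ι m) j} (h1 : form x = form y) (h2 : coef x = coef y) : x = y :=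
  Subtype.ext (Prod.ext h1 h2)

theorem form_add (x y : N1 (kum ι m) j) (u w : Fin r → ℂ) :
    form (x + y) u w = form x u w + form y u w := rfl

theorem form_smul (t : ℝ) (x : N1 (kum ι m) j) (u w : Fin r → ℂ) :
    form (t • x) u w = t * form x u w := by
  show t • form x u w = _
  rw [Complex.real_smul]

theorem form_zero (u w : Fin r → ℂ) : form (0 : N1 (kum ι m) j) u w = 0 := rfl

theorem form_sub (x y : N1 (kum ι m) j) (u w : Fin r → ℂ) :
    form (x - y) u w = form x u w - form y u w := rfl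

theorem coef_add (x y : N1 (kum ι m) j) : coef (x + y) = coef x + coef y := rfl

theorem coef_smul (t : ℝ) (x : N1 (kum ι m) j) : coef (t • x) = t * coef x := rfl

theorem coef_zero : coef (0 : N1 (kum ι m) j) = 0 := rfl

theorem coef_sub (x y : N1 (kum ι m) j) : coef (x - y) = coef x - coef y := rfl

/-- The hermitian form of a class. -/
theorem form_herm (x : N1 (kum ι m) j) : IsHermitian (form x) := by
  obtain ⟨x, hx⟩ := x
  show IsHermitian x.1
  induction hx using Submodule.span_induction with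
  | mem x hx =>
    obtain ⟨L, H, hL, h1, -⟩ := hx
    have hH := hL.1
    refine ⟨fun u v w => ?_, fun a v w => ?_, fun v w => ?_⟩
    · rw [h1, h1, h1, map_add, hH.add_left]
    · rw [h1, h1, map_smul, hH.smul_left]
    · rw [h1, h1, ← hH.symm]
  | zero => exact ⟨fun _ _ _ => by simp, fun _ _ _ => by simp, fun _ _ => by simp⟩
  | add x y _ _ h1 h2 =>
    refine ⟨fun u v w => ?_, fun a v w => ?_, fun v w => ?_⟩
    · simp only [Prod.fst_add, Pi.add_apply, h1.add_left, h2.add_left]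
      ring
    · simp only [Prod.fst_add, Pi.add_apply, h1.smul_left, h2.smul_left]
      ring
    · simp only [Prod.fst_add, Pi.add_apply, map_add, ← h1.symm, ← h2.symm]
  | smul t x _ h1 =>
    refine ⟨fun u v w => ?_, fun a v w => ?_, fun v w => ?_⟩
    · simp only [Prod.smul_fst, Pi.smul_apply, h1.add_left, Complex.real_smul]
      ring
    · simp only [Prod.smul_fst, Pi.smul_apply, h1.smul_left, Complex.real_smul]
      ring
    · simp only [Prod.smul_fst, Pi.smul_apply, Complex.real_smul, map_mul, Complex.conj_ofReal,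
        ← h1.symm]

/-- The hermitian form of a class, divided by `κ`. -/
noncomputable def frm (x : N1 (kum ι m) j) (u w : Fin r → ℂ) : ℂ := form x u w / kap

theorem kap_ne : (kap : ℂ) ≠ 0 := by exact_mod_cast kap_pos.ne'

theorem form_frm (x : N1 (kum ι m) j) (u w : Fin r → ℂ) : form x u w = kap * frm x u w := by
  unfold frm
  rw [mul_div_cancel₀ _ kap_ne]

theorem frm_add (x y : N1 (kum ι m) j) (u w : Fin r → ℂ) :
    frm (x + y) u w = frm x u w + frm y u w := by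
  unfold frm
  rw [form_add, add_div]

theorem frm_sub (x y : N1 (kum ι m) j) (u w : Fin r → ℂ) :
    frm (x - y) u w = frm x u w - frm y u w := by
  unfold frm
  rw [form_sub, sub_div]

theorem frm_smul (t : ℝ) (x : N1 (kum ι m) j) (u w : Fin r → ℂ) :
    frm (t • x) u w = t * frm x u w := by
  unfold frm
  rw [form_smul, mul_div_assoc]

theorem frm_zero (u w : Fin r → ℂ) : frm (0 : N1 (kum ι m) j) u w = 0 := by
  unfold frm
  rw [form_zero, zero_div]

theorem frm_herm (x : N1 (kum ι m) j) : IsHermitian (frm x) := by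
  have h1 := form_herm x
  refine ⟨fun u v w => ?_, fun a v w => ?_, fun v w => ?_⟩
  · unfold frm
    rw [h1.add_left, add_div]
  · unfold frm
    rw [h1.smul_left, mul_div_assoc]
  · unfold frm
    rw [map_div₀, Complex.conj_ofReal, ← h1.symm]

theorem N1_ext' {x y : N1 (kum ι m) j} (h1 : ∀ u w, frm x u w = frm y u w)
    (h2 : coef x = coef y) : x = y :=
  N1_ext (funext fun u => funext fun w => by rw [form_frm, form_frm, h1]) h2

/-- The class of an integral form. -/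
theorem exists_cls [Nonempty ι] (m : ℕ) (hj : IsExt ρ j) (hρ : Function.Injective ρ) (D : Dat h)
    (b : ℕ) : ∃ y : N1 (kum ι m) j, y ∈ integral (kum ι m) j ∧ (∀ u w, frm y u w = 6 * h u w) ∧
      coef y = 6 * b := by
  obtain ⟨y, h1, h2, h3⟩ := mem_N1 (isClass_thB (m := m) hj hρ D b b)
  refine ⟨y, h1, fun u w => ?_, h3⟩
  unfold frm
  rw [h2]
  have := kap_ne
  field_simp

theorem semiample_cls [Nonempty ι] (hj : IsExt ρ j) (hρ : Function.Injective ρ) (hr : r ≤ 4)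
    (D : Dat h) (b : ℕ) (hp : ∀ v, v ≠ 0 → 0 < (h v v).re)
    (hb : ∀ v, Lat v → v ≠ 0 → (b : ℝ) < (h v v).re) {y : N1 (kum ι m) j}
    (h1 : ∀ u w, frm y u w = 6 * h u w) (h2 : coef y = 6 * b) : y ∈ semiample (kum ι m) j := by
  refine ⟨_, ?_, semiample_thB (ρ := ρ) hr D b hp hb⟩
  have h3 := isClass_thB (m := m) hj hρ D b b
  have h4 : (form y, coef y) = ((fun u w => 6 * kap * h u w, 6 * (b : ℝ)) :
      ((Fin r → ℂ) → (Fin r → ℂ) → ℂ) × ℝ) := by
    refine Prod.ext (funext fun u => funext fun w => ?_) h2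
    show form y u w = 6 * kap * h u w
    rw [form_frm, h1]
    ring
  rw [h4]
  exact h3

theorem effective_cls [Nonempty ι] (hj : IsExt ρ j) (hρ : Function.Injective ρ) (hr0 : 2 ≤ r)
    (hr : r ≤ 4) (D : Dat h) (b : ℕ)
    (hb : (∀ v, v ≠ 0 → 0 < (h v v).re) ∧ (∀ v, Lat v → v ≠ 0 → (b : ℝ) ≤ (h v v).re) ∨
      b = 0 ∧ ∀ v, 0 ≤ (h v v).re) {y : N1 (kum ι m) j}
    (h1 : ∀ u w, frm y u w = 6 * h u w) (h2 : coef y = 6 * b) :
    ∃ N : ℕ, 1 ≤ N ∧ (N : ℝ) • y ∈ effective (kum ι m) j := by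
  have h4 : (form y, coef y) = ((fun u w => 6 * kap * h u w, 6 * (b : ℝ)) :
      ((Fin r → ℂ) → (Fin r → ℂ) → ℂ) × ℝ) := by
    refine Prod.ext (funext fun u => funext fun w => ?_) h2
    show form y u w = 6 * kap * h u w
    rw [form_frm, h1]
    ring
  have key : ∃ N : ℕ, 1 ≤ N ∧ ∃ s,
      ((thB m (exH_herm (ρ := ρ) D.herm b) (exH_int D.int b) b).pow N).IsSection s ∧
        ∃ v, s v ≠ 0 := by
    rcases hb with ⟨hb1, hb2⟩ | ⟨rfl, hb⟩
    · exact section_thB hρ hr0 hr D b hb1 hb2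
    · exact section_thB_zero D hb
  obtain ⟨N, hN, s, hs, h0⟩ := key
  refine ⟨N, hN, _, s, ?_, hs, h0⟩
  have h3 := isClass_pow (isClass_thB (m := m) hj hρ D b b) N
  rw [← h4] at h3
  exact h3

/-- A class in the group generated by the integral classes is given by an integral form. -/
theorem eis_of_mem (hj : IsExt ρ j) {x : N1 (kum ι m) j}
    (hx : x ∈ AddSubgroup.closure (integral (kum ι m) j)) : Dat (frm x) ∧ ∃ n : ℤ, coef x = n := by
  induction hx using AddSubgroup.closure_induction with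
  | mem x hx =>
    obtain ⟨L, H, hL, h1, h2⟩ := hx
    refine ⟨⟨frm_herm x, fun u w hu hw => ?_⟩, L.k, h2⟩
    have h3 := chern_eis hL (hj.lat hu) (hj.lat hw)
    unfold frm
    have h4 : form x u w = H (j u) (j w) := h1 u w
    rw [h4]
    exact h3
  | zero =>
    refine ⟨⟨frm_herm _, fun u w _ _ => ?_⟩, 0, by simp [coef_zero]⟩
    rw [frm_zero]
    exact IsEis.zero
  | add x y _ _ h1 h2 =>
    obtain ⟨h1, a, ha⟩ := h1
    obtain ⟨h2, b, hb⟩ := h2
    refine ⟨⟨frm_herm _, fun u w hu hw => ?_⟩, a + b, by rw [coef_add, ha, hb]; push_cast; rfl⟩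
    rw [frm_add]
    exact (h1.int u w hu hw).add (h2.int u w hu hw)
  | neg x _ h1 =>
    obtain ⟨h1, a, ha⟩ := h1
    have e : -x = (-1 : ℝ) • x := by rw [neg_one_smul]
    refine ⟨⟨frm_herm _, fun u w hu hw => ?_⟩, -a, by rw [e, coef_smul, ha]; push_cast; ring⟩
    rw [e, frm_smul]
    have : ((-1 : ℝ) : ℂ) * frm x u w = -frm x u w := by push_cast; ring
    rw [this]
    exact (h1.int u w hu hw).neg

/-- The cone which will turn out to be the nef cone. -/
def Nf (m : ℕ) (j : (Fin r → ℂ) →ₗ[ℂ] (ι → ℂ)) : Set (N1 (kum ι m) j) :=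
  {x | (∀ v, 0 ≤ (frm x v v).re) ∧ 0 ≤ coef x ∧ ∀ v, Lat v → v ≠ 0 → coef x ≤ (frm x v v).re}

theorem re_kap_div (z : ℂ) : (z / kap).re = z.re / kap := by
  rw [Complex.div_ofReal_re]

theorem frm_psd (x : N1 (kum ι m) j) (hx : ∀ v, Lat v → 0 ≤ (frm x v v).re)
    (v : Fin r → ℂ) : 0 ≤ (frm x v v).re := nonneg_of_lat (frm_herm x) hx v

theorem semiample_Nf [Nonempty ι] (hj : IsExt ρ j) (hρ : Function.Injective ρ)
    {x : N1 (kum ι m) j} (hx : x ∈ semiample (kum ι m) j) : x ∈ Nf m j := by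
  obtain ⟨L, ⟨H, hL, h1, h2⟩, hs⟩ := hx
  have h2' : coef x = L.k := h2
  have h0 := semiample_nonneg hs
  have h0' : (0 : ℝ) ≤ L.k := by exact_mod_cast h0
  have h3 : ∀ v, Lat v → v ≠ 0 → coef x ≤ (frm x v v).re := by
    intro v hv hv0
    have h4 := semiample_le hL hs (hj.lat hv) (fun h => hv0 (hj.inj hρ (by rw [h, map_zero])))
    have h5 : form x v v = H (j v) (j v) := h1 v v
    unfold frm
    rw [re_kap_div, h5, le_div_iff₀ kap_pos, h2', mul_comm]
    exact h4
  refine ⟨frm_psd x fun v hv => ?_, by rw [h2']; exact h0', h3⟩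
  by_cases hv0 : v = 0
  · rw [hv0, h_zero_left (frm_herm x)]
    simp
  · exact le_trans (by rw [h2']; exact h0') (h3 v hv hv0)

theorem effective_psd (hj : IsExt ρ j) {x : N1 (kum ι m) j}
    (hx : x ∈ effective (kum ι m) j) (v : Fin r → ℂ) : 0 ≤ (frm x v v).re := by
  obtain ⟨L, s, ⟨H, hL, h1, h2⟩, hs, h0⟩ := hx
  refine frm_psd x (fun v hv => ?_) v
  have h5 : form x v v = H (j v) (j v) := h1 v v
  unfold frm
  rw [re_kap_div, h5]
  exact div_nonneg (chern_lat_nonneg hL hs h0 (hj.lat hv)) kap_pos.le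

end Pool.Agent.R895
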