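import Pool.Agent.R895.Redu

/-!
# The cone of nef classes
-/

set_option autoImplicit false

namespace Pool.Agent.R895

open Matrix hiding IsHermitian
open Filter Topology
open Pool.Agent.W594.SYZ2 (IsHermitian)
open Pool.Agent.W594.SYZ2.TQ (h_add_right h_smul_right h_zero_left h_zero_right)
open Pool.Agent.Y167 (CData cone AffGrp Pol Cp cone_ind cone_add cone_smul cone_sum cone_le
  mem_cone_self mem_cone_of_sum zero_mem_cone cone_cut cone_image)
open Pool.Agent.Y167.CC (LinGrp Preserves IsFundDomain)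

section cut

variable {W : Type*} [AddCommGroup W] [Module ℝ W]

/-- The part of a cone where finitely many integral linear forms are nonnegative. -/
theorem cut_int {L : AddSubgroup W} (S : Finset W) (hS : ∀ a ∈ S, a ∈ L)
    (Ψ : Finset (W →ₗ[ℝ] ℝ)) (hΨ : ∀ φ ∈ Ψ, ∀ x ∈ L, ∃ n : ℤ, φ x = n) :
    ∃ S' : Finset W, (∀ a ∈ S', a ∈ L) ∧
      ∀ x, x ∈ cone S' ↔ x ∈ cone S ∧ ∀ φ ∈ Ψ, 0 ≤ φ x := by
  classical
  induction Ψ using Finset.induction_on with
  | empty => exact ⟨S, hS, fun x => by simp⟩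
  | insert φ Ψ _ ih =>
    obtain ⟨S1, hS1, h1⟩ := ih fun ψ hψ => hΨ ψ (Finset.mem_insert_of_mem hψ)
    obtain ⟨S2, hS2, h2⟩ := cone_cut S1 φ (fun a => a ∈ L) hS1 (by
      intro a ha b hb _ _
      obtain ⟨m, hm⟩ := hΨ φ (Finset.mem_insert_self _ _) a (hS1 a ha)
      obtain ⟨n, hn⟩ := hΨ φ (Finset.mem_insert_self _ _) b (hS1 b hb)
      rw [hm, hn]
      refine L.sub_mem ?_ ?_
      · rw [Int.cast_smul_eq_zsmul]; exact L.zsmul_mem (hS1 b hb) m
      · rw [Int.cast_smul_eq_zsmul]; exact L.zsmul_mem (hS1 a ha) n)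
    refine ⟨S2, hS2, fun x => ?_⟩
    rw [h2, h1, Finset.forall_mem_insert]
    tauto

end cut

section kernel

variable {r : ℕ} {h : (Fin r → ℂ) → (Fin r → ℂ) → ℂ}

/-- The ring of Eisenstein integers. -/
def eisR : Subring ℂ where
  carrier := {z | IsEis z}
  mul_mem' := fun h1 h2 => IsEis.mul h1 h2
  one_mem' := IsEis.one
  add_mem' := fun h1 h2 => IsEis.add h1 h2
  zero_mem' := IsEis.zero
  neg_mem' := fun h => IsEis.neg h

/-- A degenerate integral form has an integral vector in its kernel. -/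
theorem exists_ker (D : Dat h) (hp : ∀ v, 0 ≤ (h v v).re) {v : Fin r → ℂ} (hv : v ≠ 0)
    (hv0 : (h v v).re = 0) : ∃ w, Lat w ∧ w ≠ 0 ∧ (h w w).re = 0 := by
  have h1 : ∀ w, h w v = 0 := by
    intro w
    have h2 := cs_of_psd D.herm hp w v
    rw [hv0, mul_zero] at h2
    exact Complex.normSq_eq_zero.1 (le_antisymm h2 (Complex.normSq_nonneg _))
  have hmv : ∀ (w : Fin r → ℂ) (a : Fin r), h (Pi.single a 1) w =
      (Matrix.of (mx h) *ᵥ (star w)) a := by
    intro w a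
    rw [herm_mx D.herm, Finset.sum_eq_single a]
    · unfold mulVec dotProduct
      refine Finset.sum_congr rfl fun b _ => ?_
      rw [Pi.single_eq_same, one_mul]
      rfl
    · intro b _ hb
      refine Finset.sum_eq_zero fun c _ => ?_
      rw [Pi.single_eq_of_ne hb, zero_mul, mul_zero]
    · intro ha
      exact absurd (Finset.mem_univ a) ha
  have hdet : (Matrix.of (mx h)).det = 0 := by
    rw [← Matrix.exists_mulVec_eq_zero_iff]
    refine ⟨star v, by rwa [star_ne_zero], ?_⟩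
    funext a
    rw [← hmv, h1]
    rfl
  let M' : Matrix (Fin r) (Fin r) eisR := Matrix.of fun a b =>
    ⟨mx h a b, D.int _ _ (lat_single a) (lat_single b)⟩
  have hM' : (eisR.subtype.mapMatrix M') = Matrix.of (mx h) := by
    ext a b
    rfl
  have hdet' : M'.det = 0 := by
    have h2 := RingHom.map_det eisR.subtype M'
    rw [hM', hdet] at h2
    exact Subtype.ext h2
  obtain ⟨w', hw', hMw⟩ := Matrix.exists_mulVec_eq_zero_iff.2 hdet'
  set w : Fin r → ℂ := fun a => star ((w' a : ℂ)) with hw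
  have hws : star w = fun a => (w' a : ℂ) := by
    funext a
    simp [hw]
  refine ⟨w, fun a => (w' a).2.star, fun h0 => hw' ?_, ?_⟩
  · funext a
    have h2 := congrFun h0 a
    have h3 : star ((w' a : ℂ)) = 0 := h2
    rw [star_eq_zero] at h3
    exact Subtype.ext h3
  · have h2 : ∀ a, h (Pi.single a 1) w = 0 := by
      intro a
      rw [hmv, hws]
      have h3 := congrFun hMw a
      have h4 : ((M' *ᵥ w') a : ℂ) = (Matrix.of (mx h) *ᵥ fun a => (w' a : ℂ)) a := by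
        unfold mulVec dotProduct
        rw [AddSubmonoidClass.coe_finsetSum]
        rfl
      rw [← h4, h3]
      rfl
    have h3 : h w w = 0 := by
      rw [herm_mx D.herm]
      have h4 : ∀ a, ∑ b, mx h a b * (w a * (starRingEnd ℂ) (w b)) = w a * h (Pi.single a 1) w := by
        intro a
        rw [hmv]
        unfold mulVec dotProduct
        rw [Finset.mul_sum]
        refine Finset.sum_congr rfl fun b _ => ?_
        show mx h a b * (w a * (starRingEnd ℂ) (w b)) = w a * (mx h a b * (starRingEnd ℂ) (w b))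
        ring
      refine Finset.sum_eq_zero fun a _ => ?_
      rw [h4, h2, mul_zero]
    rw [h3]
    rfl

end kernel

variable {ι : Type*} [Fintype ι] {r m : ℕ} {ρ : Fin r → ι}
  {j : (Fin r → ℂ) →ₗ[ℂ] (ι → ℂ)}

/-- The pullbacks by the automorphisms of the lattice. -/
structure IsPb (g : N1 (kum ι m) j ≃ₗ[ℝ] N1 (kum ι m) j)
    (u : (Fin r → ℂ) ≃ₗ[ℂ] (Fin r → ℂ)) : Prop where
  lat : ∀ v, Lat v → Lat (u v)
  lat' : ∀ v, Lat v → Lat (u.symm v)
  form : ∀ x v w, form (g x) v w = form x (u v) (u w)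
  coef : ∀ x, coef (g x) = coef x
  form' : ∀ x v w, Pool.Agent.R895.form (g.symm x) v w =
    Pool.Agent.R895.form x (u.symm v) (u.symm w)
  coef' : ∀ x, Pool.Agent.R895.coef (g.symm x) = Pool.Agent.R895.coef x
  int : ∀ x ∈ integral (kum ι m) j, g x ∈ integral (kum ι m) j
  int' : ∀ x ∈ integral (kum ι m) j, g.symm x ∈ integral (kum ι m) j

theorem Nf_of {g : N1 (kum ι m) j → N1 (kum ι m) j} {u : (Fin r → ℂ) ≃ₗ[ℂ] (Fin r → ℂ)}
    (hu : ∀ v, Lat v → Lat (u v)) (h1 : ∀ x v w, form (g x) v w = form x (u v) (u w))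
    (h2 : ∀ x, coef (g x) = coef x) {x : N1 (kum ι m) j} (hx : x ∈ Nf m j) : g x ∈ Nf m j := by
  have h3 : ∀ x v w, frm (g x) v w = frm x (u v) (u w) := by
    intro x v w
    unfold frm
    rw [h1]
  obtain ⟨k1, k2, k3⟩ := hx
  refine ⟨fun v => ?_, by rwa [h2], fun v hv hv0 => ?_⟩
  · rw [h3]
    exact k1 _
  · rw [h3, h2]
    exact k3 _ (hu v hv) (by simpa using hv0)

namespace IsPb

variable {g : N1 (kum ι m) j ≃ₗ[ℝ] N1 (kum ι m) j} {u : (Fin r → ℂ) ≃ₗ[ℂ] (Fin r → ℂ)}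

theorem nf (h : IsPb g u) {x : N1 (kum ι m) j} (hx : x ∈ Nf m j) : g x ∈ Nf m j :=
  Nf_of h.lat h.form h.coef hx

theorem nf' (h : IsPb g u) {x : N1 (kum ι m) j} (hx : x ∈ Nf m j) : g.symm x ∈ Nf m j :=
  Nf_of h.lat' h.form' h.coef' hx

theorem cl' (h : IsPb g u) {x : N1 (kum ι m) j}
    (hx : x ∈ AddSubgroup.closure (integral (kum ι m) j)) :
    g.symm x ∈ AddSubgroup.closure (integral (kum ι m) j) := by
  have h1 : AddSubgroup.closure (integral (kum ι m) j) ≤
      (AddSubgroup.closure (integral (kum ι m) j)).comap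
        (g.symm : N1 (kum ι m) j ≃+ N1 (kum ι m) j).toAddMonoidHom := by
    rw [AddSubgroup.closure_le]
    intro x hx
    exact AddSubgroup.subset_closure (h.int' x hx)
  exact h1 hx

end IsPb

/-- The functional given by the lattice vector `w`. -/
noncomputable def phi (m : ℕ) (j : (Fin r → ℂ) →ₗ[ℂ] (ι → ℂ)) (w : Fin r → ℂ) :
    N1 (kum ι m) j →ₗ[ℝ] ℝ where
  toFun x := (frm x w w).re - coef x
  map_add' x y := by
    rw [frm_add, Complex.add_re, coef_add]
    ring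
  map_smul' t x := by
    rw [frm_smul, Complex.re_ofReal_mul, coef_smul, RingHom.id_apply, smul_eq_mul]
    ring

theorem phi_apply (w : Fin r → ℂ) (x : N1 (kum ι m) j) :
    phi m j w x = (frm x w w).re - coef x := rfl

/-- Finitely many lattice vectors are enough. -/
theorem exists_vectors (F : Finset ((Fin r → ℂ) → (Fin r → ℂ) → ℂ))
    (hF : ∀ z ∈ F, Dat z ∧ ∀ v, 0 ≤ (z v v).re) :
    ∃ T : Finset (Fin r → ℂ), (∀ t ∈ T, Lat t ∧ t ≠ 0) ∧
      ∀ w : Fin r → ℂ, Lat w → w ≠ 0 → ∃ t ∈ T, ∀ z ∈ F, (z t t).re ≤ (z w w).re := by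
  classical
  let en := F.equivFin
  let v : {w : Fin r → ℂ // Lat w ∧ w ≠ 0} → (Fin F.card → ℕ) := fun w i =>
    ⌊((en.symm i).1 w.1 w.1).re⌋₊
  have hv : ∀ (w : {w : Fin r → ℂ // Lat w ∧ w ≠ 0}) (i : Fin F.card),
      ((v w i : ℕ) : ℝ) = ((en.symm i).1 w.1 w.1).re := by
    intro w i
    obtain ⟨hD, hpos⟩ := hF _ (en.symm i).2
    obtain ⟨n, hn⟩ := hD.val w.2.1
    have h0 := hpos w.1
    simp only [v]
    rw [hn] at h0 ⊢
    have h2 : 0 ≤ n := by exact_mod_cast h0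
    obtain ⟨k, rfl⟩ := Int.eq_ofNat_of_zero_le h2
    simp
  obtain ⟨T, hT, hTv⟩ := Pool.Agent.Y167.dickson v
  refine ⟨(hT.image Subtype.val).toFinset, fun t ht => ?_, fun w hw hw0 => ?_⟩
  · rw [Set.Finite.mem_toFinset] at ht
    obtain ⟨t, -, rfl⟩ := ht
    exact t.2
  · obtain ⟨t, ht, hle⟩ := hTv ⟨w, hw, hw0⟩
    refine ⟨t.1, (Set.Finite.mem_toFinset _).2 ⟨t, ht, rfl⟩, fun z hz => ?_⟩
    have h1 := hle (en ⟨z, hz⟩)
    have h2 : ((v t (en ⟨z, hz⟩) : ℕ) : ℝ) ≤ (v ⟨w, hw, hw0⟩ (en ⟨z, hz⟩) : ℕ) := by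
      exact_mod_cast h1
    rw [hv, hv, Equiv.symm_apply_apply] at h2
    exact h2

theorem re_six (z : ℂ) : (6 * z).re = 6 * z.re := by
  have : (6 : ℂ) = ((6 : ℝ) : ℂ) := by norm_num
  rw [this, Complex.re_ofReal_mul]

section gens

variable {F : Finset ((Fin r → ℂ) → (Fin r → ℂ) → ℂ)}
  {y : ((Fin r → ℂ) → (Fin r → ℂ) → ℂ) → N1 (kum ι m) j} {e : N1 (kum ι m) j}

/-- The elements of the cone spanned by the forms in `F` and the class of `-Ẽ`. -/
theorem eq_sum (hy2 : ∀ z ∈ F, ∀ v w, frm (y z) v w = 6 * z v w)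
    (hy3 : ∀ z ∈ F, coef (y z) = 0)
    (he2 : ∀ v w, frm e v w = 0) (he3 : coef e = 6)
    (c : ((Fin r → ℂ) → (Fin r → ℂ) → ℂ) → ℝ) {x : N1 (kum ι m) j}
    (hx : ∀ v w, frm x v w = ∑ z ∈ F, (c z : ℂ) * z v w) :
    x = (coef x / 6) • e + ∑ z ∈ F, (c z / 6) • y z := by
  classical
  have hfs : ∀ (s : Finset ((Fin r → ℂ) → (Fin r → ℂ) → ℂ)) (v w : Fin r → ℂ), s ⊆ F →
      frm (∑ z ∈ s, (c z / 6) • y z) v w = ∑ z ∈ s, (c z : ℂ) * z v w := by
    intro s v w
    induction s using Finset.induction_on with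
    | empty => intro _; rw [Finset.sum_empty, Finset.sum_empty, frm_zero]
    | insert z s hz ih =>
      intro hs
      rw [Finset.sum_insert hz, Finset.sum_insert hz, frm_add,
        ih fun a ha => hs (Finset.mem_insert_of_mem ha), frm_smul,
        hy2 z (hs (Finset.mem_insert_self _ _))]
      push_cast
      ring
  have hcs : ∀ s : Finset ((Fin r → ℂ) → (Fin r → ℂ) → ℂ), s ⊆ F →
      coef (∑ z ∈ s, (c z / 6) • y z) = 0 := by
    intro s
    induction s using Finset.induction_on with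
    | empty => intro _; rw [Finset.sum_empty, coef_zero]
    | insert z s hz ih =>
      intro hs
      rw [Finset.sum_insert hz, coef_add, ih fun a ha => hs (Finset.mem_insert_of_mem ha),
        coef_smul, hy3 z (hs (Finset.mem_insert_self _ _))]
      ring
  refine N1_ext' (fun v w => ?_) ?_
  · rw [hx, frm_add, hfs F v w (Finset.Subset.refl _), frm_smul, he2, mul_zero, zero_add]
  · rw [coef_add, hcs F (Finset.Subset.refl _), coef_smul, he3]
    ring

theorem cone_props [DecidableEq (N1 (kum ι m) j)] (hF : ∀ z ∈ F, Dat z ∧ ∀ v, 0 ≤ (z v v).re)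
    (hy2 : ∀ z ∈ F, ∀ v w, frm (y z) v w = 6 * z v w)
    (hy3 : ∀ z ∈ F, coef (y z) = 0)
    (he2 : ∀ v w, frm e v w = 0) (he3 : coef e = 6) {a : N1 (kum ι m) j}
    (ha : a ∈ cone (insert e (F.image y))) : (∀ v, 0 ≤ (frm a v v).re) ∧ 0 ≤ coef a ∧
      ∀ w t : Fin r → ℂ, (∀ z ∈ F, (z t t).re ≤ (z w w).re) →
        (frm a t t).re ≤ (frm a w w).re := by
  refine cone_ind (p := fun a => (∀ v, 0 ≤ (frm a v v).re) ∧ 0 ≤ coef a ∧
    ∀ w t : Fin r → ℂ, (∀ z ∈ F, (z t t).re ≤ (z w w).re) →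
      (frm a t t).re ≤ (frm a w w).re) ?_ ?_ ?_ ?_ ha
  · simp [frm_zero, coef_zero]
  · rintro x y ⟨h1, h2, h3⟩ ⟨k1, k2, k3⟩
    refine ⟨fun v => ?_, by rw [coef_add]; exact add_nonneg h2 k2, fun w t hwt => ?_⟩
    · rw [frm_add, Complex.add_re]
      exact add_nonneg (h1 v) (k1 v)
    · rw [frm_add, frm_add, Complex.add_re, Complex.add_re]
      exact add_le_add (h3 w t hwt) (k3 w t hwt)
  · rintro s x hs ⟨h1, h2, h3⟩
    refine ⟨fun v => ?_, by rw [coef_smul]; exact mul_nonneg hs h2, fun w t hwt => ?_⟩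
    · rw [frm_smul, Complex.re_ofReal_mul]
      exact mul_nonneg hs (h1 v)
    · rw [frm_smul, frm_smul, Complex.re_ofReal_mul, Complex.re_ofReal_mul]
      exact mul_le_mul_of_nonneg_left (h3 w t hwt) hs
  · intro a ha
    rcases Finset.mem_insert.1 ha with rfl | h
    · refine ⟨fun v => ?_, by rw [he3]; norm_num, fun w t _ => ?_⟩
      · rw [he2]
        simp
      · rw [he2, he2]
    · obtain ⟨z, hz, rfl⟩ := Finset.mem_image.1 h
      refine ⟨fun v => ?_, by rw [hy3 z hz], fun w t hwt => ?_⟩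
      · rw [hy2 z hz, re_six]
        have := (hF z hz).2 v
        positivity
      · rw [hy2 z hz, hy2 z hz, re_six, re_six]
        have := hwt z hz
        linarith

end gens

/-- **The covering.** -/
theorem covering [Nonempty ι] (m : ℕ) (hj : IsExt ρ j) (hρ : Function.Injective ρ) :
    ∃ F₁ : Finset (N1 (kum ι m) j),
      (∀ a ∈ F₁, a ∈ AddSubgroup.closure (integral (kum ι m) j) ∧ a ∈ Nf m j) ∧
      ∀ x ∈ Nf m j, (∃ t : ℝ, 0 < t ∧ ∀ v, t * (std v v).re ≤ (frm x v v).re) →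
        ∃ g u, IsPb g u ∧ g x ∈ cone F₁ := by
  classical
  obtain ⟨F, hF, hred⟩ := red_cls hj m
  choose! y hy1 hy2 hy3' using fun z (hz : z ∈ F) => exists_cls m hj hρ (hF z hz).1 0
  have hy3 : ∀ z ∈ F, coef (y z) = 0 := fun z hz => by rw [hy3' z hz]; norm_num
  have hzero : Dat fun _ _ : Fin r → ℂ => (0 : ℂ) :=
    ⟨⟨fun _ _ _ => by simp, fun _ _ _ => by simp, fun _ _ => by simp⟩, fun _ _ _ _ => IsEis.zero⟩
  obtain ⟨e, he1, he2', he3'⟩ := exists_cls m hj hρ hzero 1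
  have he2 : ∀ v w, frm e v w = 0 := fun v w => by rw [he2', mul_zero]
  have he3 : coef e = 6 := by rw [he3']; norm_num
  obtain ⟨T, hT, hTle⟩ := exists_vectors F hF
  have hS₀L : ∀ a ∈ insert e (F.image y), a ∈ AddSubgroup.closure (integral (kum ι m) j) := by
    intro a ha
    rcases Finset.mem_insert.1 ha with rfl | h
    · exact AddSubgroup.subset_closure he1
    · obtain ⟨z, hz, rfl⟩ := Finset.mem_image.1 h
      exact AddSubgroup.subset_closure (hy1 z hz)
  obtain ⟨S', hS', hS'c⟩ := cut_int (insert e (F.image y)) hS₀L (T.image (phi m j)) (by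
    intro φ hφ x hx
    obtain ⟨t, ht, rfl⟩ := Finset.mem_image.1 hφ
    obtain ⟨D, n, hn⟩ := eis_of_mem hj hx
    obtain ⟨k, hk⟩ := D.val (hT t ht).1
    exact ⟨k - n, by rw [phi_apply, hk, hn]; push_cast; rfl⟩)
  refine ⟨S', fun a ha => ⟨hS' a ha, ?_⟩, ?_⟩
  · obtain ⟨h1, h2⟩ := (hS'c a).1 (mem_cone_self ha)
    obtain ⟨k1, k2, k3⟩ := cone_props hF hy2 hy3 he2 he3 h1
    refine ⟨k1, k2, fun w hw hw0 => ?_⟩
    obtain ⟨t, ht, hle⟩ := hTle w hw hw0
    refine le_trans ?_ (k3 w t hle)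
    have h3 := h2 _ (Finset.mem_image_of_mem (phi m j) ht)
    rw [phi_apply] at h3
    linarith
  · intro x hx hpd
    obtain ⟨u, hu1, hu2, c, hc, hsum⟩ := hred x hpd
    have hu1' : ∀ v, Lat v → Lat (u.symm.symm v) := fun v hv => by
      rw [LinearEquiv.symm_symm]; exact hu1 v hv
    obtain ⟨g, g1, g2, g3, g4, g5, g6⟩ := exists_pull (u := u.symm) m hj hρ hu2 hu1'
    have hg : IsPb g u.symm := ⟨hu2, hu1', g1, g2, g3, g4, g5, g6⟩
    have hgx : ∀ v w, frm (g x) v w = ∑ z ∈ F, (c z : ℂ) * z v w := by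
      intro v w
      have h2 : frm (g x) v w = frm x (u.symm v) (u.symm w) := by
        unfold frm
        rw [g1]
      rw [h2, hsum]
      refine Finset.sum_congr rfl fun z _ => ?_
      rw [u.apply_symm_apply, u.apply_symm_apply]
    have h1 := eq_sum hy2 hy3 he2 he3 c hgx
    have hc0 : 0 ≤ coef (g x) / 6 := by
      rw [g2]
      exact div_nonneg hx.2.1 (by norm_num)
    refine ⟨g, u.symm, hg, (hS'c _).2 ⟨?_, fun φ hφ => ?_⟩⟩
    · rw [h1]
      refine cone_add (cone_smul (mem_cone_self (Finset.mem_insert_self _ _)) hc0)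
        (mem_cone_of_sum F _ _ (fun z hz => Finset.mem_insert_of_mem
          (Finset.mem_image_of_mem _ hz)) fun z _ => div_nonneg (hc z) (by norm_num))
    · obtain ⟨t, ht, rfl⟩ := Finset.mem_image.1 hφ
      rw [phi_apply]
      have := (hg.nf hx).2.2 t (hT t ht).1 (hT t ht).2
      linarith

end Pool.Agent.R895
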