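import Pool.Agent.R895.Eis
import Pool.Agent.Y167.Stm

/-!
# Blow-ups of quotients of complex tori: definitions

`Γ` is a group of affine transformations of the complex vector space `V` which contains a lattice of
translations with finite quotient and such that the stabiliser of `0` consists of homotheties. `X` is
the blow-up of the torus quotient `V / Γ` in the image of `0`, that is, `X` is the quotient by `Γ` of
the blow-up `Ṽ` of `V` along the orbit `Γ 0`. We write `Ẽ` for the exceptional divisor of `Ṽ → V`;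
its image in `X` is the exceptional divisor, the quotient `ℙ(V)` of the component over `0`.
-/

set_option autoImplicit false

namespace Pool.Agent.R895

open Filter Topology Asymptotics
open Pool.Agent.W594.SYZ2 (IsHermitian)
open Pool.Agent.Y167 (AffGrp cone)
open Pool.Agent.Y167.CC (LinGrp)

/-- A vector whose coordinates are Eisenstein integers. -/
def Lat {ι : Type*} (v : ι → ℂ) : Prop := ∀ i, IsEis (v i)

variable {V E : Type*} [NormedAddCommGroup V] [NormedSpace ℂ V]
  [NormedAddCommGroup E] [NormedSpace ℂ E] {Γ : AffGrp V} {j : E →ₗ[ℂ] V}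

/-- `f` is of the form `v ↦ ζ v + l` where `ζ ^ m = 1` and `l ∈ Λ`. We also ask that `ζ ^ 6 = 1`, but
this follows from `ζ ^ m = 1` if `m ∣ 6`. -/
def IsRot (Λ : Set V) (m : ℕ) (f : V ≃ᵃ[ℂ] V) : Prop :=
  ∃ (ζ : ℂ) (l : V), ζ ^ m = 1 ∧ ζ ^ 6 = 1 ∧ l ∈ Λ ∧ ∀ v, f v = ζ • v + l

/-- `Λ` contains `0` and is closed under addition and multiplication with the sixth roots of unity. -/
structure IsLattice (Λ : Set V) : Prop where
  zero : 0 ∈ Λ
  add : ∀ k ∈ Λ, ∀ l ∈ Λ, k + l ∈ Λ
  smul : ∀ ζ : ℂ, ζ ^ 6 = 1 → ∀ l ∈ Λ, ζ • l ∈ Λ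

theorem IsLattice.neg {Λ : Set V} (h : IsLattice Λ) {l : V} (hl : l ∈ Λ) : -l ∈ Λ := by
  have h1 := h.smul (-1) (by norm_num) l hl
  rwa [neg_one_smul] at h1

theorem isRot_one {Λ : Set V} {m : ℕ} (h : IsLattice Λ) : IsRot Λ m 1 :=
  ⟨1, 0, one_pow _, one_pow _, h.zero, fun v => by rw [one_smul, add_zero]; rfl⟩

theorem isRot_mul {Λ : Set V} {m : ℕ} (h : IsLattice Λ) {f g : V ≃ᵃ[ℂ] V} (hf : IsRot Λ m f)
    (hg : IsRot Λ m g) : IsRot Λ m (f * g) := by
  obtain ⟨ζ, l, h1, h2, h3, h4⟩ := hf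
  obtain ⟨ξ, k, h5, h6, h7, h8⟩ := hg
  refine ⟨ζ * ξ, ζ • k + l, by rw [mul_pow, h1, h5, one_mul], by rw [mul_pow, h2, h6, one_mul],
    h.add _ (h.smul ζ h2 k h7) _ h3, fun v => ?_⟩
  have : (f * g) v = f (g v) := rfl
  rw [this, h8, h4, smul_add, smul_smul, add_assoc]

theorem isRot_inv {Λ : Set V} {m : ℕ} (h : IsLattice Λ) {f : V ≃ᵃ[ℂ] V} (hf : IsRot Λ m f) :
    IsRot Λ m f⁻¹ := by
  obtain ⟨ζ, l, h1, h2, h3, h4⟩ := hf
  have h0 : ζ ≠ 0 := by
    rintro rfl
    simp at h2
  refine ⟨ζ⁻¹, -(ζ⁻¹ • l), by rw [inv_pow, h1, inv_one], by rw [inv_pow, h2, inv_one],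
    h.neg (h.smul _ (by rw [inv_pow, h2, inv_one]) _ h3), fun v => ?_⟩
  apply f.injective
  have : f (f⁻¹ v) = v := f.apply_symm_apply v
  rw [this, h4, smul_add, smul_smul, mul_inv_cancel₀ h0, one_smul, smul_neg, smul_smul,
    mul_inv_cancel₀ h0, one_smul, neg_add_cancel_right]

/-- The group of the affine transformations `v ↦ ζ v + l` of `V` where `ζ ^ m = 1` and `l ∈ Λ`. -/
def rotGrp {Λ : Set V} (h : IsLattice Λ) (m : ℕ) : AffGrp V where
  carrier := {f | IsRot Λ m f}
  one_mem' := isRot_one h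
  mul_mem' := isRot_mul h
  inv_mem' := isRot_inv h

theorem isLattice_lat (ι : Type*) [Fintype ι] : IsLattice {v : ι → ℂ | Lat v} where
  zero := fun _ => IsEis.zero
  add := fun _ hk _ hl i => (hk i).add (hl i)
  smul := fun _ hζ _ hl i => (IsEis.of_pow_six hζ).mul (hl i)

/-- The group of the affine transformations `v ↦ ζ v + l` of `ℂ^ι`, where `ζ ^ m = 1` and `l` is a
vector of Eisenstein integers, for `m ∣ 6`. The quotient of `ℂ^ι` by this group is `E^ι / μ_m` where
`E = ℂ / ℤ[ω]`. -/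
noncomputable def kum (ι : Type*) [Fintype ι] (m : ℕ) : AffGrp (ι → ℂ) := rotGrp (isLattice_lat ι) m

/-- The action of `Γ` on `V`. -/
def act (γ : Γ) (v : V) : V := (γ : V ≃ᵃ[ℂ] V) v

/-- A holomorphic line bundle on `X`: its pullback to the blow-up of `V` along `Γ 0` is
`O(-k Ẽ)`, with the action of `Γ` given by the factor of automorphy `e`. The stabilisers of the
points outside `Ẽ` act trivially on the fibres (`stab`), and so does the stabiliser of `0` over the
points of `Ẽ` (`exc`): if `γ` is the multiplication with `ζ`, then it acts on the fibres of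
`O(-k Ẽ)` over `Ẽ` as `ζ ^ (-k)`. -/
structure BlBundle (Γ : AffGrp V) where
  e : Γ → V → ℂ
  k : ℤ
  holo : ∀ γ, Differentiable ℂ (e γ)
  ne_zero : ∀ γ v, e γ v ≠ 0
  mul : ∀ (γ δ : Γ) (v : V), e (γ * δ) v = e γ (act δ v) * e δ v
  stab : ∀ (γ : Γ) (v : V), act γ v = v → (∀ δ : Γ, act δ 0 ≠ v) → e γ v = 1
  exc : ∀ (γ : Γ) (ζ : ℂ), (∀ v, act γ v = ζ • v) → e γ 0 = ζ ^ k

namespace BlBundle

/-- The tensor power `L ^ N`. -/
def pow (L : BlBundle Γ) (N : ℕ) : BlBundle Γ where
  e := fun γ v => L.e γ v ^ N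
  k := N * L.k
  holo := fun γ => (L.holo γ).pow N
  ne_zero := fun γ v => pow_ne_zero N (L.ne_zero γ v)
  mul := fun γ δ v => by rw [L.mul, mul_pow]
  stab := fun γ v h h' => by rw [L.stab γ v h h', one_pow]
  exc := fun γ ζ h => by rw [L.exc γ ζ h, mul_comm, zpow_mul, zpow_natCast]

/-- The global sections of `L`: the holomorphic functions `s` on `V` with
`s (γ v) = e_γ(v) s(v)` which vanish at `0` to the order `k` (no condition if `k ≤ 0`). -/
structure IsSection (L : BlBundle Γ) (s : V → ℂ) : Prop where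
  holo : Differentiable ℂ s
  eq : ∀ (γ : Γ) (v : V), s (act γ v) = L.e γ v * s v
  ord : s =O[𝓝 0] fun v => ‖v‖ ^ L.k.toNat

/-- The section `s` of `L` does not vanish at the point of the exceptional divisor `ℙ(V)` given by
the direction `u`: the function `t ↦ s (t u) / t ^ k` has a nonzero limit at `0`. -/
def NonvanishingAt (L : BlBundle Γ) (s : V → ℂ) (u : V) : Prop :=
  ∃ c : ℂ, c ≠ 0 ∧ Tendsto (fun t : ℂ => s (t • u) / t ^ L.k) (𝓝[≠] 0) (𝓝 c)

/-- `L` is semiample: for every point `x` of `X` some power `L ^ N`, `N ≥ 1`, has a section which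
does not vanish at `x`. The first condition concerns the points outside the exceptional divisor, the
second one those on the exceptional divisor. -/
structure IsSemiample (L : BlBundle Γ) : Prop where
  out : ∀ v, (∀ δ : Γ, act δ 0 ≠ v) →
    ∃ N : ℕ, 1 ≤ N ∧ ∃ s, (L.pow N).IsSection s ∧ s v ≠ 0
  exc : ∀ u, u ≠ 0 → ∃ N : ℕ, 1 ≤ N ∧ ∃ s, (L.pow N).IsSection s ∧ (L.pow N).NonvanishingAt s u

/-- The hermitian form `H` is the Chern form of the factor of automorphy of `L`: for some holomorphic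
function `F` the expression `|s(v)|² exp (- π H(v,v) - 2 Re F(v))` is invariant under `Γ` when `s` is
a section of `L`. -/
def IsChern (L : BlBundle Γ) (H : V → V → ℂ) : Prop :=
  IsHermitian H ∧ ∃ F : V → ℂ, Differentiable ℂ F ∧ ∀ (γ : Γ) (v : V),
    ‖L.e γ v‖ ^ 2 = Real.exp (Real.pi * (H (act γ v) (act γ v)).re + 2 * (F (act γ v)).re -
      (Real.pi * (H v v).re + 2 * (F v).re))

end BlBundle

/-- `x` is the class of the line bundle `L` in `N^1(X/Z)`. Here `j : E → V` is the inclusion of the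
kernel of the linear map `π : V → W` which gives the fibration `X → Z`. The degree of `L` on a curve in
a fibre of `X → Z` depends only on the restriction to `E` of the Chern form of `L`, and on the
coefficient `k` of `L`. -/
def IsClass (j : E →ₗ[ℂ] V) (L : BlBundle Γ) (x : (E → E → ℂ) × ℝ) : Prop :=
  ∃ H : V → V → ℂ, L.IsChern H ∧ (∀ u w, x.1 u w = H (j u) (j w)) ∧ x.2 = L.k

/-- The real vector space spanned by the classes of line bundles. -/
noncomputable def N1s (Γ : AffGrp V) (j : E →ₗ[ℂ] V) : Submodule ℝ ((E → E → ℂ) × ℝ) :=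
  Submodule.span ℝ {x | ∃ L : BlBundle Γ, IsClass j L x}

/-- The space `N^1(X/Z)` of numerical classes with real coefficients. -/
def N1 (Γ : AffGrp V) (j : E →ₗ[ℂ] V) : Type _ := N1s Γ j

noncomputable instance : AddCommGroup (N1 Γ j) := Submodule.addCommGroup (N1s Γ j)

noncomputable instance : Module ℝ (N1 Γ j) := Submodule.module (N1s Γ j)

noncomputable instance : TopologicalSpace (N1 Γ j) :=
  instTopologicalSpaceSubtype (p := fun h => h ∈ N1s Γ j)

/-- The hermitian form of the class `x`. -/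
def form (x : N1 Γ j) : E → E → ℂ := x.1.1

/-- The coefficient of `-Ẽ` in the class `x`. -/
def coef (x : N1 Γ j) : ℝ := x.1.2

/-- The integral classes: the classes of line bundles. -/
def integral (Γ : AffGrp V) (j : E →ₗ[ℂ] V) : Set (N1 Γ j) :=
  {x | ∃ L : BlBundle Γ, IsClass j L (form x, coef x)}

/-- The classes of semiample line bundles. -/
def semiample (Γ : AffGrp V) (j : E →ₗ[ℂ] V) : Set (N1 Γ j) :=
  {x | ∃ L : BlBundle Γ, IsClass j L (form x, coef x) ∧ L.IsSemiample}

/-- The classes of effective Cartier divisors: the classes of line bundles which have a section, not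
identically zero. -/
def effective (Γ : AffGrp V) (j : E →ₗ[ℂ] V) : Set (N1 Γ j) :=
  {x | ∃ (L : BlBundle Γ) (s : V → ℂ), IsClass j L (form x, coef x) ∧ L.IsSection s ∧
    ∃ v, s v ≠ 0}

/-- The convex cone spanned by the set `A`. -/
def span (A : Set (N1 Γ j)) : Set (N1 Γ j) := {x | ∃ S : Finset (N1 Γ j), ↑S ⊆ A ∧ x ∈ cone S}

/-- The nef cone: the closure of the convex cone spanned by the classes of semiample line bundles.
(By Kleiman's criterion the nef cone is the closure of the ample cone.) -/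
def nefCone (Γ : AffGrp V) (j : E →ₗ[ℂ] V) : Set (N1 Γ j) := closure (span (semiample Γ j))

/-- The effective cone: the convex cone spanned by the classes of effective divisors. (It is not
closed in general.) -/
def effCone (Γ : AffGrp V) (j : E →ₗ[ℂ] V) : Set (N1 Γ j) := span (effective Γ j)

/-- The linear automorphism `f` of `V` normalises `Γ`, so that it induces an automorphism of `X`. -/
def Normalizes (Γ : AffGrp V) (f : V ≃ₗ[ℂ] V) : Prop :=
  ∀ γ, γ ∈ Γ ↔ f.toAffineEquiv * γ * f.toAffineEquiv⁻¹ ∈ Γ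

/-- `g` is the pullback `f^*` on `N^1(X/Z)` by the automorphism of `X` induced by the linear
automorphism `f` of `V`. -/
def IsPullback (f : V ≃ₗ[ℂ] V) (g : N1 Γ j ≃ₗ[ℝ] N1 Γ j) : Prop :=
  (∀ (x : N1 Γ j) (u w u' w' : E), j u' = f (j u) → j w' = f (j w) →
    form (g x) u w = form x u' w') ∧ ∀ x : N1 Γ j, coef (g x) = coef x

end Pool.Agent.R895
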