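import Mathlib

/-!
# Eisenstein integers as complex numbers
-/

set_option autoImplicit false

namespace Pool.Agent.R895

open Complex

/-- The primitive third root of unity `ω = (-1 + i √3) / 2`. -/
noncomputable def om : ℂ := ⟨-1 / 2, √3 / 2⟩

/-- `z` is an Eisenstein integer: an element of `ℤ[ω]`. -/
def IsEis (z : ℂ) : Prop := ∃ a b : ℤ, z = a + b * om

theorem sqrt3_sq : √3 * √3 = (3 : ℝ) := Real.mul_self_sqrt (by norm_num)

theorem sqrt3_pos : 0 < √(3 : ℝ) := Real.sqrt_pos.2 (by norm_num)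

theorem om_sq : om * om = -1 - om := by
  apply Complex.ext
  · simp only [om, mul_re, sub_re, neg_re, one_re]
    have := sqrt3_sq
    nlinarith
  · simp only [om, mul_im, sub_im, neg_im, one_im]
    ring

theorem conj_om : (starRingEnd ℂ) om = -1 - om := by
  apply Complex.ext
  · simp only [om, conj_re, sub_re, neg_re, one_re]
    norm_num
  · simp only [om, conj_im, sub_im, neg_im, one_im]
    ring

theorem om_ne_zero : om ≠ 0 := by
  intro h
  have := congrArg Complex.re h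
  simp [om] at this

theorem om_cube : om ^ 3 = 1 := by
  have : om ^ 3 = om * (om * om) := by ring
  rw [this, om_sq]
  have : om * (-1 - om) = -om - om * om := by ring
  rw [this, om_sq]
  ring

namespace IsEis

theorem intCast (n : ℤ) : IsEis n := ⟨n, 0, by simp⟩

theorem natCast (n : ℕ) : IsEis n := ⟨n, 0, by simp⟩

theorem zero : IsEis 0 := ⟨0, 0, by simp⟩

theorem one : IsEis 1 := ⟨1, 0, by simp⟩

theorem omega : IsEis om := ⟨0, 1, by simp⟩

theorem add {x y : ℂ} (hx : IsEis x) (hy : IsEis y) : IsEis (x + y) := by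
  obtain ⟨a, b, rfl⟩ := hx
  obtain ⟨c, d, rfl⟩ := hy
  exact ⟨a + c, b + d, by push_cast; ring⟩

theorem neg {x : ℂ} (hx : IsEis x) : IsEis (-x) := by
  obtain ⟨a, b, rfl⟩ := hx
  exact ⟨-a, -b, by push_cast; ring⟩

theorem sub {x y : ℂ} (hx : IsEis x) (hy : IsEis y) : IsEis (x - y) := by
  rw [sub_eq_add_neg]; exact hx.add hy.neg

theorem mul {x y : ℂ} (hx : IsEis x) (hy : IsEis y) : IsEis (x * y) := by
  obtain ⟨a, b, rfl⟩ := hx
  obtain ⟨c, d, rfl⟩ := hy
  refine ⟨a * c - b * d, a * d + b * c - b * d, ?_⟩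
  have h : ((a : ℂ) + b * om) * (c + d * om) = a * c + (a * d + b * c) * om + b * d * (om * om) := by
    ring
  rw [h, om_sq]
  push_cast
  ring

theorem conj {x : ℂ} (hx : IsEis x) : IsEis ((starRingEnd ℂ) x) := by
  obtain ⟨a, b, rfl⟩ := hx
  refine ⟨a - b, -b, ?_⟩
  rw [map_add, map_mul, conj_om, map_intCast, map_intCast]
  push_cast
  ring

theorem star {x : ℂ} (hx : IsEis x) : IsEis (star x) := hx.conj

theorem sum {ι : Type*} (s : Finset ι) (f : ι → ℂ) (h : ∀ i ∈ s, IsEis (f i)) :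
    IsEis (∑ i ∈ s, f i) := by
  classical
  induction s using Finset.induction_on with
  | empty => simpa using zero
  | insert i s hi ih =>
    rw [Finset.sum_insert hi]
    exact (h i (Finset.mem_insert_self _ _)).add
      (ih fun j hj => h j (Finset.mem_insert_of_mem hj))

theorem pow {x : ℂ} (hx : IsEis x) (n : ℕ) : IsEis (x ^ n) := by
  induction n with
  | zero => simpa using one
  | succ n ih => rw [pow_succ]; exact ih.mul hx

/-- The norm of an Eisenstein integer is an integer. -/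
theorem normSq {x : ℂ} (hx : IsEis x) : ∃ n : ℕ, Complex.normSq x = n := by
  obtain ⟨a, b, rfl⟩ := hx
  have h1 : Complex.normSq ((a : ℂ) + b * om) = ((a ^ 2 - a * b + b ^ 2 : ℤ) : ℝ) := by
    rw [Complex.normSq_apply]
    simp only [om, add_re, intCast_re, mul_re, intCast_im, add_im, mul_im]
    push_cast
    have := sqrt3_sq
    nlinarith
  have h2 : 0 ≤ a ^ 2 - a * b + b ^ 2 := by nlinarith [sq_nonneg (a - b), sq_nonneg a, sq_nonneg b]
  obtain ⟨n, hn⟩ := Int.eq_ofNat_of_zero_le h2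
  exact ⟨n, by rw [h1, hn]; simp⟩

theorem one_le_normSq {x : ℂ} (hx : IsEis x) (h0 : x ≠ 0) : 1 ≤ Complex.normSq x := by
  obtain ⟨n, hn⟩ := hx.normSq
  have h1 := Complex.normSq_pos.2 h0
  rw [hn] at h1 ⊢
  have : 0 < n := by exact_mod_cast h1
  exact_mod_cast this

/-- A real Eisenstein integer is an integer. -/
theorem real {x : ℂ} (hx : IsEis x) (h0 : x.im = 0) : ∃ n : ℤ, x = n := by
  obtain ⟨a, b, rfl⟩ := hx
  have h1 : (b : ℝ) * (√3 / 2) = 0 := by
    simpa [om] using h0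
  have h2 : (b : ℝ) = 0 := by
    have := sqrt3_pos
    rcases mul_eq_zero.1 h1 with h | h
    · exact h
    · linarith
  have h3 : b = 0 := by exact_mod_cast h2
  exact ⟨a, by rw [h3]; simp⟩

theorem dotProduct {ι : Type*} [Fintype ι] {x y : ι → ℂ} (hx : ∀ i, IsEis (x i))
    (hy : ∀ i, IsEis (y i)) : IsEis (x ⬝ᵥ y) :=
  sum _ _ fun i _ => (hx i).mul (hy i)

end IsEis

theorem normSq_ab (a b : ℝ) : Complex.normSq (a + b * om) = a ^ 2 - a * b + b ^ 2 := by
  rw [Complex.normSq_apply]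
  simp only [om, add_re, ofReal_re, mul_re, ofReal_im, add_im, mul_im]
  have := sqrt3_sq
  nlinarith

theorem exists_coord (z : ℂ) : ∃ x y : ℝ, z = x + y * om := by
  refine ⟨z.re + z.im / √3, 2 * z.im / √3, ?_⟩
  have h3 := sqrt3_pos
  apply Complex.ext
  · simp only [om, add_re, ofReal_re, mul_re, ofReal_im]
    field_simp
    ring
  · simp only [om, add_im, ofReal_re, mul_im, ofReal_im]
    field_simp
    ring

/-- The covering radius of the Eisenstein integers. -/
theorem exists_near (z : ℂ) : ∃ a, IsEis a ∧ Complex.normSq (z - a) ≤ 1 / 3 := by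
  obtain ⟨x, y, rfl⟩ := exists_coord z
  -- reduce to the fundamental parallelogram
  set u := Int.fract x with hu
  set v := Int.fract y with hv
  have hx : x = ⌊x⌋ + u := by rw [hu]; exact (Int.floor_add_fract x).symm
  have hy : y = ⌊y⌋ + v := by rw [hv]; exact (Int.floor_add_fract y).symm
  have hu0 := Int.fract_nonneg x
  have hu1 := (Int.fract_lt_one x).le
  have hv0 := Int.fract_nonneg y
  have hv1 := (Int.fract_lt_one y).le
  rw [← hu] at hu0 hu1
  rw [← hv] at hv0 hv1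
  have key : ∀ a b : ℤ, ((x : ℂ) + y * om) - (((⌊x⌋ + a : ℤ) : ℂ) + ((⌊y⌋ + b : ℤ) : ℂ) * om)
      = ((u - a : ℝ) : ℂ) + ((v - b : ℝ) : ℂ) * om := by
    intro a b
    rw [hx, hy]
    simp only [Int.floor_intCast_add, hu, hv]
    push_cast
    simp only [Int.floor_fract]
    push_cast
    ring
  by_contra hcon
  push Not at hcon
  have hall : ∀ a b : ℤ, 1 / 3 < (u - a) ^ 2 - (u - a) * (v - b) + (v - b) ^ 2 := by
    intro a b
    have h1 := hcon _ ⟨⌊x⌋ + a, ⌊y⌋ + b, rfl⟩
    have h2 := key a b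
    push_cast at h1 h2
    rw [h2] at h1
    have h3 := normSq_ab (u - a) (v - b)
    push_cast at h3
    rwa [h3] at h1
  have h00 := hall 0 0
  have h10 := hall 1 0
  have h01 := hall 0 1
  have h11 := hall 1 1
  push_cast at h00 h10 h01 h11
  rcases le_total v u with h | h
  · nlinarith [mul_nonneg (sub_nonneg.2 h) hv0, mul_nonneg (sub_nonneg.2 hu1) hv0,
      mul_nonneg (sub_nonneg.2 hu1) (sub_nonneg.2 h), sq_nonneg (1 - u - (u - v)),
      sq_nonneg (u - v - v), sq_nonneg (1 - u - v),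
      mul_nonneg (sub_nonneg.2 hu1) (sub_nonneg.2 h00.le),
      mul_nonneg (sub_nonneg.2 h) (sub_nonneg.2 h10.le), mul_nonneg hv0 (sub_nonneg.2 h11.le)]
  · nlinarith [mul_nonneg (sub_nonneg.2 h) hu0, mul_nonneg (sub_nonneg.2 hv1) hu0,
      mul_nonneg (sub_nonneg.2 hv1) (sub_nonneg.2 h), sq_nonneg (1 - v - (v - u)),
      sq_nonneg (v - u - u), sq_nonneg (1 - v - u),
      mul_nonneg (sub_nonneg.2 hv1) (sub_nonneg.2 h00.le),
      mul_nonneg (sub_nonneg.2 h) (sub_nonneg.2 h01.le), mul_nonneg hu0 (sub_nonneg.2 h11.le)]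

/-- There are only finitely many Eisenstein integers of bounded absolute value. -/
theorem finite_eis (C : ℝ) : {z : ℂ | IsEis z ∧ Complex.normSq z ≤ C}.Finite := by
  have hB : ∀ a b : ℤ, Complex.normSq ((a : ℂ) + b * om) ≤ C →
      |(a : ℝ)| ≤ 2 * |C| + 1 ∧ |(b : ℝ)| ≤ 2 * |C| + 1 := by
    intro a b h
    have h1 := normSq_ab (a : ℝ) (b : ℝ)
    push_cast at h1
    rw [h1] at h
    have hC := le_abs_self C
    have ha : (a : ℝ) ^ 2 ≤ 2 * |C| := by nlinarith [sq_nonneg ((a : ℝ) - 2 * b)]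
    have hb : (b : ℝ) ^ 2 ≤ 2 * |C| := by nlinarith [sq_nonneg (2 * (a : ℝ) - b)]
    have h0 := abs_nonneg C
    constructor
    · apply abs_le_of_sq_le_sq _ (by positivity)
      nlinarith
    · apply abs_le_of_sq_le_sq _ (by positivity)
      nlinarith
  have hfin : ((fun p : ℤ × ℤ => (p.1 : ℂ) + p.2 * om) ''
      (Set.Icc (-⌈2 * |C| + 1⌉) ⌈2 * |C| + 1⌉ ×ˢ Set.Icc (-⌈2 * |C| + 1⌉) ⌈2 * |C| + 1⌉)).Finite :=
    ((Set.finite_Icc _ _).prod (Set.finite_Icc _ _)).image _
  refine hfin.subset ?_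
  rintro z ⟨⟨a, b, rfl⟩, hz⟩
  obtain ⟨h1, h2⟩ := hB a b hz
  have h3 := Int.le_ceil (2 * |C| + 1)
  refine ⟨(a, b), ⟨⟨?_, ?_⟩, ⟨?_, ?_⟩⟩, rfl⟩
  · have := (abs_le.1 h1).1
    have : ((-⌈2 * |C| + 1⌉ : ℤ) : ℝ) ≤ (a : ℝ) := by push_cast; linarith
    exact_mod_cast this
  · have := (abs_le.1 h1).2
    have : (a : ℝ) ≤ ((⌈2 * |C| + 1⌉ : ℤ) : ℝ) := by linarith
    exact_mod_cast this
  · have := (abs_le.1 h2).1
    have : ((-⌈2 * |C| + 1⌉ : ℤ) : ℝ) ≤ (b : ℝ) := by push_cast; linarith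
    exact_mod_cast this
  · have := (abs_le.1 h2).2
    have : (b : ℝ) ≤ ((⌈2 * |C| + 1⌉ : ℤ) : ℝ) := by linarith
    exact_mod_cast this

/-- A sixth root of unity is an Eisenstein integer. -/
theorem IsEis.of_pow_six {z : ℂ} (h : z ^ 6 = 1) : IsEis z := by
  have h1 : (z - 1) * (z + 1) * ((z - om) * (z + 1 + om)) * ((z + om) * (z - 1 - om)) = 0 := by
    have h2 : (z - om) * (z + 1 + om) = z * z + z + 1 := by
      have : (z - om) * (z + 1 + om) = z * z + z - om - om * om := by ring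
      rw [this, om_sq]; ring
    have h3 : (z + om) * (z - 1 - om) = z * z - z + 1 := by
      have : (z + om) * (z - 1 - om) = z * z - z - om - om * om := by ring
      rw [this, om_sq]; ring
    rw [h2, h3]
    linear_combination h
  rcases mul_eq_zero.1 h1 with h2 | h2
  · rcases mul_eq_zero.1 h2 with h3 | h3
    · rcases mul_eq_zero.1 h3 with h4 | h4
      · exact ⟨1, 0, by rw [sub_eq_zero.1 h4]; simp⟩
      · exact ⟨-1, 0, by rw [eq_neg_of_add_eq_zero_left h4]; simp⟩
    · rcases mul_eq_zero.1 h3 with h4 | h4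
      · exact ⟨0, 1, by rw [sub_eq_zero.1 h4]; simp⟩
      · refine ⟨-1, -1, ?_⟩
        have : z = -1 - om := by linear_combination h4
        rw [this]; push_cast; ring
  · rcases mul_eq_zero.1 h2 with h4 | h4
    · refine ⟨0, -1, ?_⟩
      have : z = -om := by linear_combination h4
      rw [this]; push_cast; ring
    · refine ⟨1, 1, ?_⟩
      have : z = 1 + om := by linear_combination h4
      rw [this]; push_cast; ring

end Pool.Agent.R895
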