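import Pool.Agent.R895.Dual2

/-!
# Rational sums of squares below a positive form
-/

set_option autoImplicit false

namespace Pool.Agent.R895

open Matrix Filter Topology

variable {n : ℕ} {J : Set (Fin n → ℂ)}

theorem q_one (v : Fin n → ℂ) :
    q (1 : Matrix (Fin n) (Fin n) ℂ) v = ∑ i, Complex.normSq (v i) := by
  unfold q
  rw [one_mulVec, dotProduct, Complex.re_sum]
  refine Finset.sum_congr rfl fun i _ => ?_
  rw [Pi.star_apply]
  have : star (v i) * v i = ((Complex.normSq (v i) : ℝ) : ℂ) :=
    Complex.normSq_eq_conj_mul_self.symm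
  rw [this, Complex.ofReal_re]

theorem q_sub_one (H : Matrix (Fin n) (Fin n) ℂ) (c : ℝ) (v : Fin n → ℂ) :
    q (H - (c : ℂ) • 1) v = q H v - c * ∑ i, Complex.normSq (v i) := by
  have h1 : H - (c : ℂ) • (1 : Matrix (Fin n) (Fin n) ℂ) = H + ((-c : ℝ) : ℂ) • 1 := by
    rw [sub_eq_add_neg, ← neg_smul]
    push_cast
    rfl
  rw [h1, q_add, q_smul, q_one]
  ring

/-- A small multiple of the identity can be subtracted from a positive definite form. -/
theorem Pd.shrink {H : Matrix (Fin n) (Fin n) ℂ} (hH : Pd H) {δ : ℝ} (hδ : 0 < δ) (hδ1 : δ < 1) :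
    ∃ k : ℕ, 1 ≤ k ∧ Pd (H - ((1 / k : ℝ) : ℂ) • 1) ∧
      ∀ v, (1 - δ) * q H v ≤ q (H - ((1 / k : ℝ) : ℂ) • 1) v := by
  obtain ⟨c, hc, hlow⟩ := hH.lower
  obtain ⟨k, hk⟩ := exists_nat_gt (n / (c * δ))
  have hkpos : (0 : ℝ) < k := lt_of_le_of_lt (by positivity) hk
  have hk1 : 1 ≤ k := by exact_mod_cast hkpos
  have key : ∀ v, (1 - δ) * q H v ≤ q (H - ((1 / k : ℝ) : ℂ) • 1) v := by
    intro v
    rw [q_sub_one]
    have h1 : ∑ i, Complex.normSq (v i) ≤ n * ‖v‖ ^ 2 := by
      calc ∑ i, Complex.normSq (v i) ≤ ∑ _i : Fin n, ‖v‖ ^ 2 := by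
            refine Finset.sum_le_sum fun i _ => ?_
            rw [Complex.normSq_eq_norm_sq]
            exact pow_le_pow_left₀ (norm_nonneg _) (norm_le_pi_norm v i) 2
        _ = n * ‖v‖ ^ 2 := by simp
    have h2 := hlow v
    have h3 : 1 / (k : ℝ) * ∑ i, Complex.normSq (v i) ≤ δ * q H v := by
      have h4 : 1 / (k : ℝ) * (n * ‖v‖ ^ 2) ≤ δ * (c * ‖v‖ ^ 2) := by
        rw [one_div, inv_mul_le_iff₀ hkpos]
        have h5 : (n : ℝ) ≤ k * (c * δ) := by
          rw [div_lt_iff₀ (by positivity)] at hk
          exact hk.le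
        nlinarith [sq_nonneg ‖v‖, mul_le_mul_of_nonneg_right h5 (sq_nonneg ‖v‖)]
      calc _ ≤ 1 / (k : ℝ) * (n * ‖v‖ ^ 2) := mul_le_mul_of_nonneg_left h1 (by positivity)
        _ ≤ _ := h4
        _ ≤ _ := mul_le_mul_of_nonneg_left h2 hδ.le
    linarith
  refine ⟨k, hk1, ⟨?_, fun v hv => ?_⟩, key⟩
  · refine hH.1.sub ?_
    unfold IsHermitian
    rw [conjTranspose_smul, conjTranspose_one]
    congr 1
    exact Complex.conj_ofReal _
  · refine lt_of_lt_of_le ?_ (key v)
    exact mul_pos (by linarith) (hH.2 v hv)

/-- The main decomposition theorem. -/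
theorem RC_of_lt (hn : n ≤ 4) {H : Matrix (Fin n) (Fin n) ℂ} (hH : Pd H)
    (hHe : ∀ i j, IsEis (H i j)) {b h : ℝ} (hb : 0 ≤ b) (hbh : b < h)
    (hmin : ∀ w, IsLat w → w ≠ 0 → h ≤ q H w) (hJ : IsSub J) (hne : ∃ v, IsLat v ∧ v ∉ J) :
    ((fun i j => H i j : Fin n → Fin n → ℂ), b) ∈ RC J := by
  have hh : 0 < h := lt_of_le_of_lt hb hbh
  set δ : ℝ := (h - b) / (2 * h) with hδ
  have hδ0 : 0 < δ := div_pos (by linarith) (by linarith)
  have hδ1 : δ < 1 := by
    rw [hδ, div_lt_one (by linarith)]
    linarith
  have hδh : (1 - δ) * h = (h + b) / 2 := by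
    rw [hδ]
    field_simp
    ring
  obtain ⟨k, hk, hpd, hq⟩ := hH.shrink hδ0 hδ1
  refine mem_RC hH.1 hHe hk hpd (g := (h + b) / 2) (by linarith) fun M hM hM1 => ?_
  refine lemA hn hM hpd (by linarith) (fun w hw hw0 => ?_) hJ hne hM1
  rw [← hδh]
  exact le_trans (mul_le_mul_of_nonneg_left (hmin w hw hw0) (by linarith)) (hq w)

/-- The decomposition theorem for `J = 0`, where equality is allowed. -/
theorem RC_zero (hn0 : 2 ≤ n) (hn : n ≤ 4) {H : Matrix (Fin n) (Fin n) ℂ} (hH : Pd H)
    (hHe : ∀ i j, IsEis (H i j)) {h : ℝ} (hh : 0 < h)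
    (hmin : ∀ w, IsLat w → w ≠ 0 → h ≤ q H w) :
    ((fun i j => H i j : Fin n → Fin n → ℂ), h) ∈ RC {0} := by
  obtain ⟨k, hk, hpd, hq⟩ := hH.shrink (δ := 1 / 14) (by norm_num) (by norm_num)
  refine mem_RC hH.1 hHe hk hpd (g := 13 / 12 * h) (by linarith) fun M hM hM1 => ?_
  have h1 := lemA' hn0 hn hM hpd (h := 13 / 14 * h) (by linarith) (fun w hw hw0 => by
    refine le_trans ?_ (hq w)
    have := hmin w hw hw0
    linarith) (fun v hv hv0 => hM1 v hv hv0)
  linarith

/-- A positive semidefinite integral form is a rational sum of squares. -/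
theorem psd_RC : ∀ (n : ℕ) (H : Matrix (Fin n) (Fin n) ℂ), Psd H → (∀ i j, IsEis (H i j)) →
    ∃ (N : ℕ) (S : Multiset (Fin n → ℂ)), 1 ≤ N ∧ (∀ l ∈ S, IsLat l) ∧
      (N : ℝ) • (fun i j => H i j : Fin n → Fin n → ℂ) = (S.map sq).sum := by
  intro n
  induction n with
  | zero =>
    intro H _ _
    exact ⟨1, 0, le_refl _, by simp, by funext i; exact i.elim0⟩
  | succ n ih =>
    intro H hH hHe
    have hst : ∀ i j, star (H i j) = H j i := by
      intro i j
      have := congrFun (congrFun hH.1.eq j) i
      rwa [conjTranspose_apply] at this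
    -- the corner
    have h00 : (H 0 0).im = 0 := by
      have h2 := congrArg Complex.im (hst 0 0)
      have h3 : (star (H 0 0)).im = -(H 0 0).im := rfl
      rw [h3] at h2
      linarith
    obtain ⟨a, ha⟩ := (hHe 0 0).real h00
    have hq0 : q H (Pi.single 0 1) = a := by
      unfold q
      simp only [dotProduct_single, mulVec_single_one, col_apply]
      have : star (Pi.single 0 1 : Fin (n + 1) → ℂ) ⬝ᵥ (H.col 0) = H 0 0 := by
        rw [dotProduct, Finset.sum_eq_single 0]
        · simp
        · intro i _ hi; rw [Pi.star_apply, Pi.single_eq_of_ne hi]; simp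
        · intro h; exact absurd (Finset.mem_univ _) h
      rw [this, ha]
      simp
    have ha0 : (0 : ℝ) ≤ a := by
      rw [← hq0]; exact hH.2 _
    have ha0' : 0 ≤ a := by exact_mod_cast ha0
    obtain ⟨a', rfl⟩ := Int.eq_ofNat_of_zero_le ha0'
    -- the value of the form on `(c, v)`
    have hqv : ∀ (c : ℂ) (v : Fin n → ℂ), q H (Fin.cons c v) = Complex.normSq c * a' +
        2 * (star c * ∑ j, H 0 j.succ * v j).re + q (tl H) v := by
      intro c v
      unfold q tl
      simp only [dotProduct, mulVec, Fin.sum_univ_succ, Pi.star_apply, Fin.cons_zero,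
        Fin.cons_succ, submatrix_apply]
      have e1 : ∑ i : Fin n, star (v i) * (H i.succ 0 * c + ∑ j, H i.succ j.succ * v j) =
          star (star c * ∑ j, H 0 j.succ * v j) + ∑ i, star (v i) * ∑ j, H i.succ j.succ * v j := by
        rw [star_mul', star_star, star_sum, Finset.mul_sum, ← Finset.sum_add_distrib]
        refine Finset.sum_congr rfl fun i _ => ?_
        rw [star_mul', hst]
        ring
      rw [e1, Complex.add_re, Complex.add_re, mul_add, Complex.add_re]
      have e2 : (star c * (H 0 0 * c)).re = Complex.normSq c * a' := by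
        rw [ha]
        have : star c * (((a' : ℤ) : ℂ) * c) = ((Complex.normSq c * a' : ℝ) : ℂ) := by
          have h5 : star c * c = ((Complex.normSq c : ℝ) : ℂ) :=
            Complex.normSq_eq_conj_mul_self.symm
          push_cast
          linear_combination (a' : ℂ) * h5
        rw [this, Complex.ofReal_re]
      have e3 : (star (star c * ∑ j, H 0 j.succ * v j)).re = (star c * ∑ j, H 0 j.succ * v j).re :=
        rfl
      rw [e2, e3]
      ring
    -- embedding
    have hemb : ∀ (N : ℕ) (S : Multiset (Fin n → ℂ)) (K : Fin n → Fin n → ℂ),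
        (∀ l ∈ S, IsLat l) → (N : ℝ) • K = (S.map sq).sum →
        ∃ S' : Multiset (Fin (n + 1) → ℂ), (∀ l ∈ S', IsLat l) ∧
          (N : ℝ) • (fun i j => Fin.cases 0 (fun i' => Fin.cases 0 (fun j' => K i' j') j) i :
            Fin (n + 1) → Fin (n + 1) → ℂ) = (S'.map sq).sum := by
      intro N S K hS hK
      refine ⟨S.map (Fin.cons 0), ?_, ?_⟩
      · intro l hl
        obtain ⟨l', hl', rfl⟩ := Multiset.mem_map.1 hl
        intro i
        refine Fin.cases ?_ (fun i => ?_) i
        · exact IsEis.zero
        · exact hS l' hl' i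
      · have h1 : ∀ S : Multiset (Fin n → ℂ), ((S.map (Fin.cons 0)).map sq).sum =
            (fun i j => Fin.cases 0 (fun i' => Fin.cases 0 (fun j' => (S.map sq).sum i' j') j) i :
            Fin (n + 1) → Fin (n + 1) → ℂ) := by
          intro S
          induction S using Multiset.induction_on with
          | empty =>
            funext i j
            refine Fin.cases ?_ (fun i => ?_) i <;> refine Fin.cases ?_ (fun j => ?_) j <;> simp
          | cons l S ih =>
            rw [Multiset.map_cons, Multiset.map_cons, Multiset.sum_cons, ih]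
            funext i j
            refine Fin.cases ?_ (fun i => ?_) i <;> refine Fin.cases ?_ (fun j => ?_) j <;>
              simp [sq]
        rw [h1, ← hK]
        funext i j
        refine Fin.cases ?_ (fun i => ?_) i <;> refine Fin.cases ?_ (fun j => ?_) j <;> simp
    rcases Nat.eq_zero_or_pos a' with h0 | h0
    · subst h0
      -- the first row vanishes
      have hrow : ∀ j : Fin n, H 0 j.succ = 0 := by
        intro j
        by_contra hne
        set z := H 0 j.succ with hz
        set Q := q (tl H) (Pi.single j 1) with hQ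
        have h1 := hH.2 (Fin.cons (-((|Q| + 1 : ℝ) : ℂ) * (z / (Complex.normSq z : ℂ)))
          (Pi.single j 1))
        rw [hqv] at h1
        have e1 : ∑ k, H 0 k.succ * (Pi.single j 1 : Fin n → ℂ) k = z := by
          rw [Finset.sum_eq_single j]
          · simp [hz]
          · intro k _ hk; rw [Pi.single_eq_of_ne hk]; simp
          · intro h; exact absurd (Finset.mem_univ _) h
        rw [e1, ← hQ] at h1
        have hzn : (Complex.normSq z : ℂ) ≠ 0 := by
          have := Complex.normSq_pos.2 hne
          exact_mod_cast this.ne'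
        have e2 : star (-((|Q| + 1 : ℝ) : ℂ) * (z / (Complex.normSq z : ℂ))) * z =
            ((-(|Q| + 1) : ℝ) : ℂ) := by
          have h5 : star z * z = ((Complex.normSq z : ℝ) : ℂ) :=
            Complex.normSq_eq_conj_mul_self.symm
          have h6 : star ((|Q| + 1 : ℝ) : ℂ) = ((|Q| + 1 : ℝ) : ℂ) := Complex.conj_ofReal _
          have h7 : star (Complex.normSq z : ℂ) = (Complex.normSq z : ℂ) := Complex.conj_ofReal _
          rw [star_mul', star_neg, star_div₀, h6, h7]
          push_cast at h5 ⊢
          field_simp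
          linear_combination (-((|Q| : ℝ) : ℂ) - 1) * h5
        rw [e2, Complex.ofReal_re] at h1
        have := le_abs_self Q
        simp at h1
        nlinarith [abs_nonneg Q]
      have hcol : ∀ j : Fin n, H j.succ 0 = 0 := by
        intro j
        rw [← hst, hrow, star_zero]
      have htl : Psd (tl H) := ⟨hH.1.submatrix _, fun v => by rw [q_tl]; exact hH.2 _⟩
      obtain ⟨N, S, hN, hS, hK⟩ := ih (tl H) htl (fun i j => hHe _ _)
      obtain ⟨S', hS', hK'⟩ := hemb N S _ hS hK
      refine ⟨N, S', hN, hS', ?_⟩
      rw [← hK']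
      congr 1
      funext i j
      refine Fin.cases ?_ (fun i => ?_) i <;> refine Fin.cases ?_ (fun j => ?_) j
      · simp [ha]
      · simp [hrow]
      · simp [hcol]
      · simp [tl]
    · -- complete the square
      have har : (0 : ℝ) < a' := by exact_mod_cast h0
      have hac : (a' : ℂ) ≠ 0 := by exact_mod_cast har.ne'
      set K : Matrix (Fin n) (Fin n) ℂ := fun i j => a' * H i.succ j.succ -
        H i.succ 0 * H 0 j.succ with hK
      have hKpsd : Psd K := by
        refine ⟨?_, fun v => ?_⟩
        · unfold IsHermitian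
          ext i j
          rw [conjTranspose_apply]
          simp only [hK]
          rw [star_sub, star_mul', star_mul', hst, hst, hst]
          have : star (a' : ℂ) = a' := Complex.conj_natCast _
          rw [this]
          ring
        · set z := ∑ j, H 0 j.succ * v j with hz
          have h1 := hH.2 (Fin.cons (-(z / a')) v)
          rw [hqv, ← hz] at h1
          have e1 : q K v = a' * q (tl H) v - Complex.normSq z := by
            unfold q tl
            have e2 : star v ⬝ᵥ K *ᵥ v = a' * (star v ⬝ᵥ (H.submatrix Fin.succ Fin.succ) *ᵥ v) -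
                star z * z := by
              simp only [dotProduct, mulVec, hK, submatrix_apply, Pi.star_apply]
              rw [hz, star_sum, Finset.sum_mul_sum, Finset.mul_sum, ← Finset.sum_sub_distrib]
              refine Finset.sum_congr rfl fun i _ => ?_
              rw [Finset.mul_sum, Finset.mul_sum, Finset.mul_sum, ← Finset.sum_sub_distrib]
              refine Finset.sum_congr rfl fun j _ => ?_
              rw [star_mul', hst]
              ring
            have h5 : star z * z = ((Complex.normSq z : ℝ) : ℂ) :=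
              Complex.normSq_eq_conj_mul_self.symm
            rw [e2, h5, Complex.sub_re, Complex.ofReal_re]
            congr 1
            have : (a' : ℂ) = ((a' : ℝ) : ℂ) := by push_cast; rfl
            rw [this, Complex.re_ofReal_mul]
          have e3 : (star (-(z / a')) * z).re = -(Complex.normSq z / a') := by
            have h5 : star z * z = ((Complex.normSq z : ℝ) : ℂ) :=
              Complex.normSq_eq_conj_mul_self.symm
            have h6 : star (a' : ℂ) = a' := Complex.conj_natCast _
            have : star (-(z / a')) * z = ((-(Complex.normSq z / a') : ℝ) : ℂ) := by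
              rw [star_neg, star_div₀, h6]
              push_cast at h5 ⊢
              field_simp
              linear_combination -h5
            rw [this, Complex.ofReal_re]
          have e4 : Complex.normSq (-(z / a')) = Complex.normSq z / (a' * a') := by
            rw [Complex.normSq_neg, Complex.normSq_div]
            congr 1
            have : (a' : ℂ) = ((a' : ℝ) : ℂ) := by push_cast; rfl
            rw [this, Complex.normSq_ofReal]
          rw [e3, e4] at h1
          rw [e1]
          have h2 := mul_nonneg har.le h1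
          have e5 : (a' : ℝ) * (Complex.normSq z / (a' * a') * a' + 2 * -(Complex.normSq z / a') +
              q (tl H) v) = a' * q (tl H) v - Complex.normSq z := by
            field_simp
            ring
          rwa [e5] at h2
      have hKe : ∀ i j, IsEis (K i j) := fun i j =>
        ((IsEis.natCast _).mul (hHe _ _)).sub ((hHe _ _).mul (hHe _ _))
      obtain ⟨N, S, hN, hS, hKS⟩ := ih K hKpsd hKe
      obtain ⟨S', hS', hK'⟩ := hemb N S _ hS hKS
      refine ⟨N * a', N • {fun i => H i 0} + S', Nat.mul_pos hN h0, ?_, ?_⟩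
      · intro l hl
        rcases Multiset.mem_add.1 hl with h | h
        · rw [Multiset.mem_singleton.1 (Multiset.mem_of_mem_nsmul h)]
          exact fun i => hHe _ _
        · exact hS' l h
      · rw [Multiset.map_add, Multiset.sum_add, RC.map_sum_nsmul, Multiset.map_singleton,
          Multiset.sum_singleton, ← hK', ← smul_add]
        push_cast
        rw [mul_smul]
        congr 1
        funext i j
        show (a' : ℝ) • H i j = sq (fun i => H i 0) i j + _
        rw [Complex.real_smul, Complex.ofReal_natCast]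
        unfold sq
        rw [hst]
        refine Fin.cases ?_ (fun i => ?_) i <;> refine Fin.cases ?_ (fun j => ?_) j
        · simp [ha]
        · simp [ha]
        · simp [ha]; ring
        · simp [hK]

theorem RC_psd {H : Matrix (Fin n) (Fin n) ℂ} (hH : Psd H) (hHe : ∀ i j, IsEis (H i j)) :
    ((fun i j => H i j : Fin n → Fin n → ℂ), (0 : ℝ)) ∈ RC J := by
  obtain ⟨N, S, hN, hS, hK⟩ := psd_RC n H hH hHe
  exact ⟨N, S, hN, hS, hK, 0, Multiset.zero_le _, by simp, by simp⟩

end Pool.Agent.R895
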