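import Pool.Agent.R895.Cls
import Pool.Agent.Y167.Dom

/-!
# The data for the fundamental domain
-/

set_option autoImplicit false

namespace Pool.Agent.R895

open Matrix hiding IsHermitian
open Filter Topology
open Pool.Agent.W594.SYZ2 (IsHermitian)
open Pool.Agent.W594.SYZ2.TQ (h_add_right h_smul_right h_zero_left h_zero_right)
open Pool.Agent.Y167 (CData cone)

variable {ι : Type*} [Fintype ι] {r m : ℕ} {ρ : Fin r → ι}
  {j : (Fin r → ℂ) →ₗ[ℂ] (ι → ℂ)}

theorem cs_of_psd {H : (Fin r → ℂ) → (Fin r → ℂ) → ℂ} (hH : IsHermitian H)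
    (hp : ∀ v, 0 ≤ (H v v).re) (u w : Fin r → ℂ) :
    Complex.normSq (H u w) ≤ (H u u).re * (H w w).re := by
  have key : ∀ t : ℝ, 0 ≤ (H w w).re - 2 * t * Complex.normSq (H u w) +
      t ^ 2 * Complex.normSq (H u w) * (H u u).re := by
    intro t
    have h1 := hp (w + (-(t : ℂ) * (starRingEnd ℂ) (H u w)) • u)
    rw [h_quad hH] at h1
    have h2 : (-(t : ℂ) * (starRingEnd ℂ) (H u w) * H u w).re = -t * Complex.normSq (H u w) := by
      have : (-(t : ℂ) * (starRingEnd ℂ) (H u w) * H u w) =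
          ((-t * Complex.normSq (H u w) : ℝ) : ℂ) := by
        rw [mul_assoc, mul_comm ((starRingEnd ℂ) (H u w)), Complex.mul_conj]
        push_cast
        ring
      rw [this, Complex.ofReal_re]
    have h3 : Complex.normSq (-(t : ℂ) * (starRingEnd ℂ) (H u w)) =
        t ^ 2 * Complex.normSq (H u w) := by
      rw [Complex.normSq_mul, Complex.normSq_conj, Complex.normSq_neg, Complex.normSq_ofReal]
      ring
    rw [h2, h3] at h1
    linarith
  have hn := Complex.normSq_nonneg (H u w)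
  by_cases h0 : (H u u).re = 0
  · rw [h0, zero_mul]
    by_contra hcon
    push Not at hcon
    have h1 := key (((H w w).re + 1) / (2 * Complex.normSq (H u w)))
    rw [h0, mul_zero, add_zero] at h1
    have h2 : 2 * (((H w w).re + 1) / (2 * Complex.normSq (H u w))) * Complex.normSq (H u w) =
        (H w w).re + 1 := by field_simp
    rw [h2] at h1
    linarith
  · have hpos : 0 < (H u u).re := lt_of_le_of_ne (hp u) (Ne.symm h0)
    have h1 := key (1 / (H u u).re)
    have h2 : (H w w).re - 2 * (1 / (H u u).re) * Complex.normSq (H u w) +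
        (1 / (H u u).re) ^ 2 * Complex.normSq (H u w) * (H u u).re =
        ((H u u).re * (H w w).re - Complex.normSq (H u w)) / (H u u).re := by
      field_simp
      ring
    rw [h2] at h1
    have h3 := (div_nonneg_iff.1 h1)
    rcases h3 with h3 | h3
    · linarith [h3.1]
    · linarith [h3.2]

/-- The standard hermitian form. -/
noncomputable def std (u w : Fin r → ℂ) : ℂ := ∑ i, u i * (starRingEnd ℂ) (w i)

theorem std_re (v : Fin r → ℂ) : (std v v).re = ∑ i, Complex.normSq (v i) := by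
  unfold std
  rw [Complex.re_sum]
  refine Finset.sum_congr rfl fun i _ => ?_
  rw [Complex.mul_conj, Complex.ofReal_re]

theorem std_nonneg (v : Fin r → ℂ) : 0 ≤ (std v v).re := by
  rw [std_re]
  exact Finset.sum_nonneg fun i _ => Complex.normSq_nonneg _

theorem normSq_le_std (v : Fin r → ℂ) (i : Fin r) : Complex.normSq (v i) ≤ (std v v).re := by
  rw [std_re]
  exact Finset.single_le_sum (f := fun i => Complex.normSq (v i))
    (fun i _ => Complex.normSq_nonneg _) (Finset.mem_univ i)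

theorem std_pos {v : Fin r → ℂ} (hv : v ≠ 0) : 0 < (std v v).re := by
  obtain ⟨i, hi⟩ := Function.ne_iff.1 hv
  exact lt_of_lt_of_le (Complex.normSq_pos.2 hi) (normSq_le_std v i)

theorem one_le_std {v : Fin r → ℂ} (hv : Lat v) (hv0 : v ≠ 0) : 1 ≤ (std v v).re := by
  obtain ⟨i, hi⟩ := Function.ne_iff.1 hv0
  exact le_trans ((hv i).one_le_normSq hi) (normSq_le_std v i)

theorem std_herm : IsHermitian (std (r := r)) where
  add_left u v w := by simp only [std, Pi.add_apply, add_mul, Finset.sum_add_distrib]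
  smul_left a v w := by simp only [std, Pi.smul_apply, smul_eq_mul, mul_assoc, Finset.mul_sum]
  symm v w := by
    unfold std
    rw [map_sum]
    refine Finset.sum_congr rfl fun i _ => ?_
    rw [map_mul, Complex.conj_conj, mul_comm]

theorem std_int (u w : Fin r → ℂ) (hu : Lat u) (hw : Lat w) : IsEis (std u w) :=
  IsEis.sum _ _ fun i _ => (hu i).mul (hw i).conj

/-- A multiple of an integral form. -/
theorem Dat.natMul {h : (Fin r → ℂ) → (Fin r → ℂ) → ℂ} (D : Dat h) (k : ℕ) :
    Dat fun u w => (k : ℂ) * h u w where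
  herm := by
    refine ⟨fun u v w => ?_, fun a v w => ?_, fun v w => ?_⟩
    · rw [D.herm.add_left]; ring
    · rw [D.herm.smul_left]; ring
    · rw [map_mul, ← D.herm.symm, Complex.conj_natCast]
  int u w hu hw := (IsEis.natCast k).mul (D.int u w hu hw)

theorem Dat.add {h h' : (Fin r → ℂ) → (Fin r → ℂ) → ℂ} (D : Dat h) (D' : Dat h') :
    Dat fun u w => h u w + h' u w where
  herm := by
    refine ⟨fun u v w => ?_, fun a v w => ?_, fun v w => ?_⟩
    · rw [D.herm.add_left, D'.herm.add_left]; ring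
    · rw [D.herm.smul_left, D'.herm.smul_left]; ring
    · rw [map_add, ← D.herm.symm, ← D'.herm.symm]
  int u w hu hw := (D.int u w hu hw).add (D'.int u w hu hw)

theorem std_dat : Dat (std (r := r)) := ⟨std_herm, std_int⟩

theorem re_natMul (k : ℕ) (z : ℂ) : ((k : ℂ) * z).re = k * z.re := by
  have : (k : ℂ) = ((k : ℝ) : ℂ) := by push_cast; rfl
  rw [this, Complex.re_ofReal_mul]

theorem exists_y₀ [Nonempty ι] (m : ℕ) (hj : IsExt ρ j) (hρ : Function.Injective ρ) :
    ∃ y : N1 (kum ι m) j, y ∈ integral (kum ι m) j ∧ (∀ u w, frm y u w = 12 * std u w) ∧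
      coef y = 6 := by
  obtain ⟨y, h1, h2, h3⟩ := exists_cls m hj hρ (std_dat.natMul 2) 1
  refine ⟨y, h1, fun u w => ?_, by rw [h3]; norm_num⟩
  rw [h2]
  push_cast
  ring

/-- Upper bound for the values of a hermitian form. -/
theorem le_std {H : (Fin r → ℂ) → (Fin r → ℂ) → ℂ} (hH : IsHermitian H) :
    ∃ C : ℝ, 0 ≤ C ∧ ∀ v, (H v v).re ≤ C * (std v v).re := by
  refine ⟨∑ a, ∑ b, ‖mx H a b‖, Finset.sum_nonneg fun a _ => Finset.sum_nonneg fun b _ =>
    norm_nonneg _, fun v => ?_⟩
  refine le_trans (Complex.re_le_norm _) ?_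
  rw [herm_mx hH v v]
  refine le_trans (norm_sum_le _ _) ?_
  rw [Finset.sum_mul]
  refine Finset.sum_le_sum fun a _ => ?_
  refine le_trans (norm_sum_le _ _) ?_
  rw [Finset.sum_mul]
  refine Finset.sum_le_sum fun b _ => ?_
  rw [norm_mul]
  refine mul_le_mul_of_nonneg_left ?_ (norm_nonneg _)
  rw [norm_mul, Complex.norm_conj]
  have h1 := normSq_le_std v a
  have h2 := normSq_le_std v b
  rw [Complex.normSq_eq_norm_sq] at h1 h2
  nlinarith [sq_nonneg (‖v a‖ - ‖v b‖)]

theorem kap_im_eis {z : ℂ} (hz : IsEis z) : ∃ n : ℤ, kap * z.im = n := by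
  obtain ⟨a, b, rfl⟩ := hz
  refine ⟨b, ?_⟩
  have hk := kap_sqrt
  simp only [om, Complex.add_im, Complex.intCast_im, Complex.mul_im, Complex.intCast_re]
  linear_combination (b : ℝ) / 2 * hk

theorem eq_zero_of_im {z : ℂ} (h1 : z.im = 0) (h2 : (om * z).im = 0) : z = 0 := by
  rw [Complex.mul_im, h1, mul_zero, zero_add] at h2
  have h3 : om.im ≠ 0 := by
    simp only [om]
    have := sqrt3_pos
    positivity
  apply Complex.ext
  · exact (mul_eq_zero.1 h2).resolve_left h3
  · exact h1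

/-- The matrix and the coefficient of a class. -/
noncomputable def Φ (m : ℕ) (j : (Fin r → ℂ) →ₗ[ℂ] (ι → ℂ)) :
    N1 (kum ι m) j →ₗ[ℝ] (Fin r → Fin r → ℂ) × ℝ where
  toFun x := (mx (frm x), coef x)
  map_add' x y := by
    refine Prod.ext ?_ (coef_add x y)
    funext a b
    exact frm_add x y _ _
  map_smul' t x := by
    refine Prod.ext ?_ (coef_smul t x)
    funext a b
    show mx (frm (t • x)) a b = t • mx (frm x) a b
    rw [Complex.real_smul]
    exact frm_smul t x _ _

theorem Φ_apply (x : N1 (kum ι m) j) : Φ m j x = (mx (frm x), coef x) := rfl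

theorem Φ_inj : Function.Injective (Φ m j) := by
  intro x y hxy
  rw [Φ_apply, Φ_apply] at hxy
  have h1 : mx (frm x) = mx (frm y) := (Prod.ext_iff.1 hxy).1
  have h2 : coef x = coef y := (Prod.ext_iff.1 hxy).2
  refine N1_ext' (fun u w => ?_) h2
  rw [herm_mx (frm_herm x), herm_mx (frm_herm y), h1]

theorem finite_N1 : FiniteDimensional ℝ (N1 (kum ι m) j) :=
  Module.Finite.of_injective (Φ m j) Φ_inj

/-- The trace of the form of a class. -/
noncomputable def xi (m : ℕ) (j : (Fin r → ℂ) →ₗ[ℂ] (ι → ℂ)) : N1 (kum ι m) j →ₗ[ℝ] ℝ where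
  toFun x := ∑ i, (mx (frm x) i i).re
  map_add' x y := by
    rw [← Finset.sum_add_distrib]
    refine Finset.sum_congr rfl fun i _ => ?_
    rw [← Complex.add_re]
    exact congrArg Complex.re (frm_add x y _ _)
  map_smul' t x := by
    rw [RingHom.id_apply, smul_eq_mul, Finset.mul_sum]
    refine Finset.sum_congr rfl fun i _ => ?_
    rw [← Complex.re_ofReal_mul]
    exact congrArg Complex.re (frm_smul t x _ _)

theorem xi_apply (x : N1 (kum ι m) j) : xi m j x = ∑ i, (mx (frm x) i i).re := rfl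

theorem Nf_add {x y : N1 (kum ι m) j} (hx : x ∈ Nf m j) (hy : y ∈ Nf m j) : x + y ∈ Nf m j := by
  obtain ⟨h1, h2, h3⟩ := hx
  obtain ⟨k1, k2, k3⟩ := hy
  refine ⟨fun v => ?_, ?_, fun v hv hv0 => ?_⟩
  · rw [frm_add, Complex.add_re]
    exact add_nonneg (h1 v) (k1 v)
  · rw [coef_add]
    exact add_nonneg h2 k2
  · rw [frm_add, Complex.add_re, coef_add]
    exact add_le_add (h3 v hv hv0) (k3 v hv hv0)

theorem Nf_smul {t : ℝ} (ht : 0 ≤ t) {x : N1 (kum ι m) j} (hx : x ∈ Nf m j) :
    t • x ∈ Nf m j := by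
  obtain ⟨h1, h2, h3⟩ := hx
  refine ⟨fun v => ?_, ?_, fun v hv hv0 => ?_⟩
  · rw [frm_smul, Complex.re_ofReal_mul]
    exact mul_nonneg ht (h1 v)
  · rw [coef_smul]
    exact mul_nonneg ht h2
  · rw [frm_smul, Complex.re_ofReal_mul, coef_smul]
    exact mul_le_mul_of_nonneg_left (h3 v hv hv0) ht

theorem Nf_zero : (0 : N1 (kum ι m) j) ∈ Nf m j := by
  refine ⟨fun v => ?_, ?_, fun v hv hv0 => ?_⟩ <;> simp [frm_zero, coef_zero]

theorem diag_nonneg {x : N1 (kum ι m) j} (hx : x ∈ Nf m j) (i : Fin r) :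
    0 ≤ (mx (frm x) i i).re := hx.1 _

theorem diag_le_xi {x : N1 (kum ι m) j} (hx : x ∈ Nf m j) (i : Fin r) :
    (mx (frm x) i i).re ≤ xi m j x :=
  Finset.single_le_sum (f := fun i => (mx (frm x) i i).re) (fun i _ => diag_nonneg hx i)
    (Finset.mem_univ i)

theorem xi_nonneg {x : N1 (kum ι m) j} (hx : x ∈ Nf m j) : 0 ≤ xi m j x := by
  rw [xi_apply]
  exact Finset.sum_nonneg fun i _ => diag_nonneg hx i

theorem normSq_mx_le {x : N1 (kum ι m) j} (hx : x ∈ Nf m j) (a b : Fin r) :
    Complex.normSq (mx (frm x) a b) ≤ xi m j x ^ 2 := by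
  have h1 := cs_of_psd (frm_herm x) hx.1 (Pi.single a 1) (Pi.single b 1)
  refine le_trans h1 ?_
  rw [pow_two]
  exact mul_le_mul (diag_le_xi hx a) (diag_le_xi hx b) (diag_nonneg hx b) (xi_nonneg hx)

theorem norm_mx_le {x : N1 (kum ι m) j} (hx : x ∈ Nf m j) (a b : Fin r) :
    ‖mx (frm x) a b‖ ≤ xi m j x := by
  have h1 := normSq_mx_le hx a b
  rw [Complex.normSq_eq_norm_sq] at h1
  exact (sq_le_sq₀ (norm_nonneg _) (xi_nonneg hx)).1 h1

theorem coef_le_xi (hr : 0 < r) {x : N1 (kum ι m) j} (hx : x ∈ Nf m j) :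
    coef x ≤ xi m j x := by
  have h1 := hx.2.2 (Pi.single ⟨0, hr⟩ 1) (lat_single _) (by
    intro h
    have := congrFun h ⟨0, hr⟩
    simp at this)
  exact le_trans h1 (diag_le_xi hx ⟨0, hr⟩)

theorem norm_Φ_le (hr : 0 < r) {x : N1 (kum ι m) j} (hx : x ∈ Nf m j) :
    ‖Φ m j x‖ ≤ xi m j x := by
  refine norm_prod_le_iff.2 ⟨?_, ?_⟩
  · rw [pi_norm_le_iff_of_nonneg (xi_nonneg hx)]
    intro a
    rw [pi_norm_le_iff_of_nonneg (xi_nonneg hx)]
    intro b
    exact norm_mx_le hx a b
  · show ‖coef x‖ ≤ _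
    rw [Real.norm_of_nonneg hx.2.1]
    exact coef_le_xi hr hx

theorem span_integral : Submodule.span ℝ (integral (kum ι m) j) = ⊤ := by
  rw [eq_top_iff]
  rintro ⟨x, hx⟩ -
  induction hx using Submodule.span_induction with
  | mem x hx => exact Submodule.subset_span hx
  | zero => exact Submodule.zero_mem _
  | add x y _ _ h1 h2 => exact Submodule.add_mem _ h1 h2
  | smul t x _ h1 => exact Submodule.smul_mem _ t h1

theorem y_int {y₀ : N1 (kum ι m) j} (hy1 : ∀ u w, frm y₀ u w = 12 * std u w) (hy2 : coef y₀ = 6)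
    (x : N1 (kum ι m) j) : ∃ C : ℝ, 0 < C ∧ C • y₀ - x ∈ Nf m j := by
  obtain ⟨C, hC, h1⟩ := le_std (frm_herm x)
  have hre : ∀ v : Fin r → ℂ, (frm y₀ v v).re = 12 * (std v v).re := by
    intro v
    rw [hy1]
    have : (12 : ℂ) = ((12 : ℝ) : ℂ) := by norm_num
    rw [this, Complex.re_ofReal_mul]
  refine ⟨C + |coef x| + 1, by positivity, fun v => ?_, ?_, fun v hv hv0 => ?_⟩
  · rw [frm_sub, frm_smul, Complex.sub_re, Complex.re_ofReal_mul, hre]
    have h2 := std_nonneg v
    have h3 := h1 v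
    have h4 := mul_nonneg (abs_nonneg (coef x)) h2
    nlinarith
  · rw [coef_sub, coef_smul, hy2]
    have := le_abs_self (coef x)
    have := abs_nonneg (coef x)
    linarith
  · rw [frm_sub, frm_smul, Complex.sub_re, Complex.re_ofReal_mul, hre, coef_sub, coef_smul, hy2]
    have h2 := one_le_std hv hv0
    have h3 := h1 v
    have h5 := neg_abs_le (coef x)
    have h6 := abs_nonneg (coef x)
    have h7 := mul_le_mul_of_nonneg_left h2 h6
    have h8 := mul_le_mul_of_nonneg_left h2 hC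
    nlinarith

/-- The data for the fundamental domain. -/
theorem exists_cdata (hj : IsExt ρ j) (hr : 0 < r)
    {y₀ : N1 (kum ι m) j} (hy0 : y₀ ∈ integral (kum ι m) j)
    (hy1 : ∀ u w, frm y₀ u w = 12 * std u w) (hy2 : coef y₀ = 6) :
    ∃ Y : Finset (N1 (kum ι m) j),
      CData (AddSubgroup.closure (integral (kum ι m) j)) (Nf m j) (xi m j) y₀ Y := by
  classical
  have hfin : FiniteDimensional ℝ (N1 (kum ι m) j) := finite_N1
  have hre : ∀ v : Fin r → ℂ, (frm y₀ v v).re = 12 * (std v v).re := by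
    intro v
    rw [hy1]
    have : (12 : ℂ) = ((12 : ℝ) : ℂ) := by norm_num
    rw [this, Complex.re_ofReal_mul]
  have hyNf : y₀ ∈ Nf m j := by
    refine ⟨fun v => ?_, by rw [hy2]; norm_num, fun v hv hv0 => ?_⟩
    · rw [hre]
      have := std_nonneg v
      positivity
    · rw [hre, hy2]
      have := one_le_std hv hv0
      linarith
  have hyL : y₀ ∈ AddSubgroup.closure (integral (kum ι m) j) := AddSubgroup.subset_closure hy0
  obtain ⟨t, ht, htspan, htli⟩ := exists_linearIndependent ℝ (integral (kum ι m) j)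
  have htfin : t.Finite := htli.setFinite
  have hchoose : ∀ x : N1 (kum ι m) j, ∃ n : ℕ, (n : ℝ) • y₀ - x ∈ Nf m j := by
    intro x
    obtain ⟨C, hC, h1⟩ := y_int hy1 hy2 x
    refine ⟨⌈C⌉₊, ?_⟩
    have h2 : ((⌈C⌉₊ : ℝ) - C) • y₀ ∈ Nf m j := Nf_smul (sub_nonneg.2 (Nat.le_ceil C)) hyNf
    have h3 := Nf_add h2 h1
    have h4 : ((⌈C⌉₊ : ℝ) - C) • y₀ + (C • y₀ - x) = (⌈C⌉₊ : ℝ) • y₀ - x := by
      module
    rwa [h4] at h3
  choose nf hnf using hchoose
  refine ⟨insert y₀ (htfin.toFinset.image fun x => (nf x : ℝ) • y₀ - x),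
    { add := fun x hx y hy => Nf_add hx hy
      smul := fun t ht x hx => Nf_smul ht hx
      xi_int := fun x hx => ?_
      xi_pos := fun x hx hx0 => ?_
      fin := fun C => ?_
      y_L := hyL
      y_N := hyNf
      y_int := y_int hy1 hy2
      dom := fun η => ?_
      sep := fun x hx => ?_
      Y_mem := fun y hy => ?_
      Y_span := fun φ hφ => ?_ }⟩
  · obtain ⟨D, -⟩ := eis_of_mem hj hx
    choose f hf using fun i : Fin r => D.val (lat_single i)
    refine ⟨∑ i, f i, ?_⟩
    rw [xi_apply]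
    push_cast
    exact Finset.sum_congr rfl fun i _ => hf i
  · refine lt_of_le_of_ne (xi_nonneg hx) fun h0 => hx0 ?_
    apply Φ_inj (m := m) (j := j)
    rw [map_zero]
    have := norm_Φ_le hr hx
    rw [← h0] at this
    exact norm_le_zero_iff.1 this
  · have hfin1 : ({x : (Fin r → Fin r → ℂ) × ℝ | (∀ a b, IsEis (x.1 a b) ∧
        Complex.normSq (x.1 a b) ≤ C ^ 2) ∧ x.2 ∈ ((fun n : ℤ => (n : ℝ)) '' Set.Icc 0 ⌊C⌋)}).Finite := by
      have h1 : {A : Fin r → Fin r → ℂ | ∀ a b, IsEis (A a b) ∧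
          Complex.normSq (A a b) ≤ C ^ 2}.Finite := by
        have h2 := Set.Finite.pi' fun _ : Fin r => Set.Finite.pi' fun _ : Fin r =>
          finite_eis (C ^ 2)
        exact h2
      have h3 := h1.prod ((Set.finite_Icc (0 : ℤ) ⌊C⌋).image fun n : ℤ => (n : ℝ))
      exact h3.subset fun x hx => ⟨hx.1, hx.2⟩
    refine Set.Finite.of_finite_image (f := Φ m j) (hfin1.subset ?_) Φ_inj.injOn
    rintro _ ⟨x, ⟨hx1, hx2, hx3⟩, rfl⟩
    obtain ⟨D, n, hn⟩ := eis_of_mem hj hx1
    have h0 := xi_nonneg hx2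
    refine ⟨fun a b => ⟨D.int _ _ (lat_single a) (lat_single b), ?_⟩, n, ⟨?_, ?_⟩, hn.symm⟩
    · refine le_trans (normSq_mx_le hx2 a b) ?_
      exact pow_le_pow_left₀ h0 hx3 2
    · have := hx2.2.1
      rw [hn] at this
      exact_mod_cast this
    · rw [Int.le_floor, ← hn]
      exact le_trans (coef_le_xi hr hx2) hx3
  · obtain ⟨g, hg⟩ := LinearMap.exists_leftInverse_of_injective (Φ m j)
      (LinearMap.ker_eq_bot.2 Φ_inj)
    refine ⟨‖LinearMap.toContinuousLinearMap (η ∘ₗ g)‖, fun x hx => ?_⟩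
    have h1 := (LinearMap.toContinuousLinearMap (η ∘ₗ g)).le_opNorm (Φ m j x)
    have h2 : (LinearMap.toContinuousLinearMap (η ∘ₗ g)) (Φ m j x) = η x := by
      show η (g (Φ m j x)) = η x
      rw [show g (Φ m j x) = x from LinearMap.congr_fun hg x]
    rw [h2] at h1
    exact le_trans h1 (mul_le_mul_of_nonneg_left (norm_Φ_le hr hx) (norm_nonneg _))
  · by_cases hc : coef x = 0
    · have hex : ∃ a b, mx (frm x) a b ≠ 0 := by
        by_contra hcon
        push Not at hcon
        apply hx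
        apply Φ_inj (m := m) (j := j)
        rw [map_zero]
        refine Prod.ext ?_ hc
        funext a b
        exact hcon a b
      obtain ⟨a, b, hab⟩ := hex
      have hadd : ∀ (z : ℂ) (x y : N1 (kum ι m) j), kap * (z * mx (frm (x + y)) a b).im =
          kap * (z * mx (frm x) a b).im + kap * (z * mx (frm y) a b).im := by
        intro z x y
        have : mx (frm (x + y)) a b = mx (frm x) a b + mx (frm y) a b := frm_add x y _ _
        rw [this, mul_add, Complex.add_im]
        ring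
      have hsm : ∀ (z : ℂ) (t : ℝ) (x : N1 (kum ι m) j), kap * (z * mx (frm (t • x)) a b).im =
          t * (kap * (z * mx (frm x) a b).im) := by
        intro z t x
        have : mx (frm (t • x)) a b = t * mx (frm x) a b := frm_smul t x _ _
        rw [this, mul_left_comm, Complex.im_ofReal_mul]
        ring
      have hz : ∀ z : ℂ, IsEis z → (z * mx (frm x) a b).im ≠ 0 →
          ∃ η : N1 (kum ι m) j →ₗ[ℝ] ℝ, (∀ y ∈ AddSubgroup.closure (integral (kum ι m) j),
            ∃ n : ℤ, η y = n) ∧ η x ≠ 0 := by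
        intro z hz hzx
        refine ⟨{ toFun := fun y => kap * (z * mx (frm y) a b).im
                  map_add' := hadd z
                  map_smul' := fun t y => hsm z t y }, fun y hy => ?_,
          mul_ne_zero kap_pos.ne' hzx⟩
        obtain ⟨D, -⟩ := eis_of_mem hj hy
        exact kap_im_eis (hz.mul (D.int _ _ (lat_single a) (lat_single b)))
      by_cases h1 : (mx (frm x) a b).im = 0
      · refine hz om IsEis.omega fun h2 => hab (eq_zero_of_im h1 h2)
      · exact hz 1 IsEis.one (by rwa [one_mul])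
    · refine ⟨{ toFun := coef
                map_add' := coef_add
                map_smul' := fun t y => coef_smul t y }, fun y hy => ?_, hc⟩
      exact (eis_of_mem hj hy).2
  · rcases Finset.mem_insert.1 hy with rfl | h
    · exact ⟨hyL, hyNf⟩
    · obtain ⟨x, hx, rfl⟩ := Finset.mem_image.1 h
      rw [htfin.mem_toFinset] at hx
      refine ⟨AddSubgroup.sub_mem _ ?_ (AddSubgroup.subset_closure (ht hx)), hnf x⟩
      rw [Nat.cast_smul_eq_nsmul]
      exact AddSubgroup.nsmul_mem _ hyL _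
  · have h0 : φ y₀ = 0 := hφ _ (Finset.mem_insert_self _ _)
    have h1 : ∀ x ∈ t, φ x = 0 := by
      intro x hx
      have h2 := hφ ((nf x : ℝ) • y₀ - x)
        (Finset.mem_insert_of_mem (Finset.mem_image_of_mem _ (htfin.mem_toFinset.2 hx)))
      rw [map_sub, map_smul φ (nf x : ℝ), h0, smul_zero, zero_sub, neg_eq_zero] at h2
      exact h2
    have h2 : (⊤ : Submodule ℝ (N1 (kum ι m) j)) ≤ LinearMap.ker φ := by
      rw [← span_integral, ← htspan, Submodule.span_le]
      intro x hx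
      exact h1 x hx
    exact LinearMap.ker_eq_top.1 (top_le_iff.1 h2)

end Pool.Agent.R895
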