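import Pool.Agent.R895.Red

/-!
# A lower bound for the trace of a product of two positive forms
-/

set_option autoImplicit false

namespace Pool.Agent.R895

open Matrix

variable {n : ℕ}

/-- The determinant of a form decomposed as a sum of squares in triangular shape. -/
theorem det_dec (m : Fin n → ℝ) (x : Fin n → Fin n → ℂ) (hd : ∀ i, x i i = 1)
    (hz : ∀ i j, j < i → x i j = 0) :
    (∑ i, (m i : ℂ) • vecMulVec (x i) (star (x i))).det = ((∏ i, m i : ℝ) : ℂ) := by
  set X : Matrix (Fin n) (Fin n) ℂ := fun i j => x j i with hX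
  have h1 : ∑ i, (m i : ℂ) • vecMulVec (x i) (star (x i)) =
      X * diagonal (fun i => (m i : ℂ)) * Xᴴ := by
    ext i j
    rw [Matrix.sum_apply, mul_apply]
    refine Finset.sum_congr rfl fun k _ => ?_
    rw [mul_diagonal, Matrix.smul_apply, vecMulVec_apply, conjTranspose_apply, Pi.star_apply,
      smul_eq_mul]
    simp only [hX]
    ring
  have h2 : X.det = 1 := by
    rw [det_of_isLowerTriangular X (by
      intro i j hij
      exact hz j i hij)]
    simp only [hX, hd, Finset.prod_const_one]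
  rw [h1, det_mul, det_mul, det_diagonal, det_conjTranspose, h2]
  simp

theorem q_single (M : Matrix (Fin n) (Fin n) ℂ) (g : Matrix (Fin n) (Fin n) ℂ) (x : Fin n → Fin n → ℂ)
    (m : Fin n → ℝ) (h : gᴴ * M * g = ∑ i, (m i : ℂ) • vecMulVec (x i) (star (x i))) (k : Fin n) :
    q M (g *ᵥ (Pi.single k 1)) = ∑ i, m i * Complex.normSq (x i k) := by
  rw [← q_conj, h, q_dec]
  refine Finset.sum_congr rfl fun i _ => ?_
  rw [dotProduct_single, mul_one, Pi.star_apply]
  congr 1
  exact Complex.normSq_conj _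

theorem isLat_single (k : Fin n) : IsLat (Pi.single k 1 : Fin n → ℂ) := by
  intro i
  rw [Pi.single_apply]
  split_ifs
  · exact IsEis.one
  · exact IsEis.zero

theorem single_ne (k : Fin n) : (Pi.single k 1 : Fin n → ℂ) ≠ 0 := by
  intro h
  have := congrFun h k
  simp at this

/-- Hermite's inequality. -/
theorem Pd.hermite {H : Matrix (Fin n) (Fin n) ℂ} (hH : Pd H) {h : ℝ} (hh : 0 < h)
    (hmin : ∀ w, IsLat w → w ≠ 0 → h ≤ q H w) :
    ∃ d : ℝ, H.det = d ∧ 0 < d ∧ ∏ i : Fin n, ((2 / 3 : ℝ) ^ (i : ℕ) * h) ≤ d := by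
  obtain ⟨g, x, m, hg, hm, hch, hd, hz, hs, hdec⟩ := exists_red n H hH
  have h1 : H.det = ((∏ i, m i : ℝ) : ℂ) := by
    rw [← det_dec m x hd hz, ← hdec, det_mul, det_mul, det_conjTranspose]
    have h2 : star g.det * H.det * g.det = ((Complex.normSq g.det : ℝ) : ℂ) * H.det := by
      have : star g.det * g.det = ((Complex.normSq g.det : ℝ) : ℂ) :=
        Complex.normSq_eq_conj_mul_self.symm
      rw [← this]; ring
    rw [h2, hg.normSq_det]
    simp
  refine ⟨∏ i, m i, h1, Finset.prod_pos fun i _ => hm i, ?_⟩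
  refine Finset.prod_le_prod (fun i _ => by positivity) fun i _ => ?_
  have key : ∀ (k : ℕ) (i : Fin n), (i : ℕ) = k → (2 / 3 : ℝ) ^ k * h ≤ m i := by
    intro k
    induction k with
    | zero =>
      intro i hi
      have h2 := hmin _ (hg.mulVec (isLat_single i)) (hg.mulVec_ne (single_ne i))
      rw [q_single H g x m hdec i, Finset.sum_eq_single i] at h2
      · rw [hd] at h2
        simpa using h2
      · intro j _ hj
        rw [hz j i (by
          rw [Fin.lt_def, hi]
          exact Nat.pos_of_ne_zero fun h => hj (Fin.ext (by rw [h, hi])))]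
        simp
      · intro h; exact absurd (Finset.mem_univ _) h
    | succ k ih =>
      intro i hi
      have hk : k < n := by have := i.2; omega
      have h2 := ih ⟨k, hk⟩ rfl
      have h3 := hch ⟨k, hk⟩ i (by simp [hi])
      rw [pow_succ]
      linarith
  exact key _ i rfl

theorem Pd.det_pos {H : Matrix (Fin n) (Fin n) ℂ} (hH : Pd H) :
    ∃ d : ℝ, H.det = d ∧ 0 < d := by
  obtain ⟨g, x, m, hg, hm, hch, hd, hz, hs, hdec⟩ := exists_red n H hH
  have h1 : H.det = ((∏ i, m i : ℝ) : ℂ) := by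
    rw [← det_dec m x hd hz, ← hdec, det_mul, det_mul, det_conjTranspose]
    have h2 : star g.det * H.det * g.det = ((Complex.normSq g.det : ℝ) : ℂ) * H.det := by
      have : star g.det * g.det = ((Complex.normSq g.det : ℝ) : ℂ) :=
        Complex.normSq_eq_conj_mul_self.symm
      rw [← this]; ring
    rw [h2, hg.normSq_det]
    simp
  exact ⟨∏ i, m i, h1, Finset.prod_pos fun i _ => hm i⟩

/-- The lower right block. -/
def tl (H : Matrix (Fin (n + 1)) (Fin (n + 1)) ℂ) : Matrix (Fin n) (Fin n) ℂ :=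
  H.submatrix Fin.succ Fin.succ

theorem q_tl (H : Matrix (Fin (n + 1)) (Fin (n + 1)) ℂ) (v : Fin n → ℂ) :
    q (tl H) v = q H (Fin.cons 0 v) := by
  unfold q
  simp [dotProduct, mulVec, Fin.sum_univ_succ, tl]

theorem Pd.tl {H : Matrix (Fin (n + 1)) (Fin (n + 1)) ℂ} (hH : Pd H) : Pd (tl H) := by
  refine ⟨hH.1.submatrix _, fun v hv => ?_⟩
  rw [q_tl]
  apply hH.2
  intro h
  apply hv
  ext i
  have := congrFun h i.succ
  simpa using this

theorem min_tl {H : Matrix (Fin (n + 1)) (Fin (n + 1)) ℂ} {h : ℝ}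
    (hmin : ∀ w, IsLat w → w ≠ 0 → h ≤ q H w) : ∀ w, IsLat w → w ≠ 0 → h ≤ q (tl H) w := by
  intro w hw h0
  rw [q_tl]
  apply hmin
  · intro i
    refine Fin.cases ?_ (fun i => ?_) i
    · exact IsEis.zero
    · exact hw i
  · intro h
    apply h0
    ext i
    have := congrFun h i.succ
    simpa using this

/-- The successive Schur complements. -/
noncomputable def hs : (n : ℕ) → Matrix (Fin n) (Fin n) ℂ → Fin n → ℝ
  | 0, _ => fun i => i.elim0
  | n + 1, H => Fin.cons (H.det.re / (tl H).det.re) (hs n (tl H))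

theorem hs_zero (H : Matrix (Fin (n + 1)) (Fin (n + 1)) ℂ) :
    hs (n + 1) H 0 = H.det.re / (tl H).det.re := rfl

theorem hs_succ (H : Matrix (Fin (n + 1)) (Fin (n + 1)) ℂ) (i : Fin n) :
    hs (n + 1) H i.succ = hs n (tl H) i := rfl

theorem prod_hs : ∀ (n : ℕ) (H : Matrix (Fin n) (Fin n) ℂ), Pd H → ∏ i, hs n H i = H.det.re := by
  intro n
  induction n with
  | zero => intro H _; simp
  | succ n ih =>
    intro H hH
    obtain ⟨d, hd, hd0⟩ := hH.tl.det_pos
    rw [Fin.prod_univ_succ, hs_zero]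
    simp only [hs_succ]
    rw [ih _ hH.tl, hd, Complex.ofReal_re, div_mul_cancel₀ _ hd0.ne']

theorem hs_pos : ∀ (n : ℕ) (H : Matrix (Fin n) (Fin n) ℂ), Pd H → ∀ i, 0 < hs n H i := by
  intro n
  induction n with
  | zero => intro H _ i; exact i.elim0
  | succ n ih =>
    intro H hH i
    refine Fin.cases ?_ (fun i => ?_) i
    · obtain ⟨d, hd, hd0⟩ := hH.tl.det_pos
      obtain ⟨e, he, he0⟩ := hH.det_pos
      rw [hs_zero, hd, he, Complex.ofReal_re, Complex.ofReal_re]
      positivity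
    · exact ih _ hH.tl i

/-- The minimum of a form on the affine hyperplane `x 0 = 1`. -/
theorem Pd.schur_le {H : Matrix (Fin (n + 1)) (Fin (n + 1)) ℂ} (hH : Pd H) {x : Fin (n + 1) → ℂ}
    (hx : x 0 = 1) : H.det.re / (Pool.Agent.R895.tl H).det.re ≤ q H x := by
  obtain ⟨d, hd, hd0⟩ := hH.tl.det_pos
  obtain ⟨e, he, he0⟩ := hH.det_pos
  rw [hd, he, Complex.ofReal_re, Complex.ofReal_re]
  set u : Fin (n + 1) → ℂ := H.adjugate *ᵥ (Pi.single 0 1) with hu
  have h1 : H *ᵥ u = (e : ℂ) • (Pi.single 0 1 : Fin (n + 1) → ℂ) := by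
    rw [hu, mulVec_mulVec, mul_adjugate, he, smul_mulVec, one_mulVec]
  have h2 : u 0 = (d : ℂ) := by
    rw [hu, mulVec_single_one, col_apply, adjugate_fin_succ_eq_det_submatrix]
    simp only [Fin.succAbove_zero]
    have : (H.submatrix Fin.succ Fin.succ).det = (Pool.Agent.R895.tl H).det := rfl
    rw [this, hd]
    simp
  -- expand `q H (x - c u)`
  have h3 : ∀ c : ℝ, q H (x - (c : ℂ) • u) = q H x - 2 * (c * e) + c * c * (e * d) := by
    intro c
    unfold q
    rw [mulVec_sub, mulVec_smul, h1, star_sub, sub_dotProduct, dotProduct_sub, dotProduct_sub]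
    have e1 : star x ⬝ᵥ ((c : ℂ) • (e : ℂ) • (Pi.single 0 1 : Fin (n + 1) → ℂ)) = c * e := by
      rw [dotProduct_smul, dotProduct_smul, dotProduct_single, Pi.star_apply, hx]
      simp
    have e2 : star ((c : ℂ) • u) ⬝ᵥ (H *ᵥ x) = c * e := by
      have h5 : star u ⬝ᵥ (H *ᵥ x) = e := by
        rw [dotProduct_mulVec]
        have h6 : star u ᵥ* H = star (H *ᵥ u) := by
          rw [star_mulVec H u, hH.1.eq]
        rw [h6, h1, star_smul, smul_dotProduct]
        have h7 : star (Pi.single 0 1 : Fin (n + 1) → ℂ) ⬝ᵥ x = 1 := by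
          rw [dotProduct, Finset.sum_eq_single 0]
          · rw [hx]; simp
          · intro i _ hi; rw [Pi.star_apply, Pi.single_eq_of_ne hi]; simp
          · intro h; exact absurd (Finset.mem_univ _) h
        rw [h7]
        have : star (e : ℂ) = e := Complex.conj_ofReal e
        rw [this]; simp
      rw [star_smul, smul_dotProduct, h5]
      have : star (c : ℂ) = c := Complex.conj_ofReal c
      rw [this, smul_eq_mul]
    have e3 : star ((c : ℂ) • u) ⬝ᵥ ((c : ℂ) • (e : ℂ) • (Pi.single 0 1 : Fin (n + 1) → ℂ)) =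
        c * c * (e * d) := by
      rw [dotProduct_smul, dotProduct_smul, dotProduct_single, Pi.star_apply, Pi.smul_apply, h2]
      simp only [smul_eq_mul, star_mul', mul_one]
      have h8 : star (c : ℂ) = c := Complex.conj_ofReal c
      have h9 : star (d : ℂ) = d := Complex.conj_ofReal d
      rw [h8, h9]
      ring
    rw [e1, e2, e3]
    have r1 : ((c : ℂ) * e).re = c * e := by
      rw [← Complex.ofReal_mul, Complex.ofReal_re]
    have r2 : ((c : ℂ) * c * (e * d)).re = c * c * (e * d) := by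
      rw [← Complex.ofReal_mul, ← Complex.ofReal_mul, ← Complex.ofReal_mul, Complex.ofReal_re]
    rw [Complex.sub_re, Complex.sub_re, Complex.sub_re, r1, r2]
    ring
  have h4 := hH.psd.2 (x - ((1 / d : ℝ) : ℂ) • u)
  rw [h3] at h4
  have h5 : 1 / d * (1 / d) * (e * d) = e / d := by field_simp
  have h6 : 1 / d * e = e / d := by ring
  rw [h5, h6] at h4
  linarith

theorem hs_le : ∀ (n : ℕ) (H : Matrix (Fin n) (Fin n) ℂ), Pd H → ∀ (x : Fin n → Fin n → ℂ),
    (∀ i, x i i = 1) → (∀ i j, j < i → x i j = 0) → ∀ i, hs n H i ≤ q H (x i) := by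
  intro n
  induction n with
  | zero => intro H _ x _ _ i; exact i.elim0
  | succ n ih =>
    intro H hH x hd hz i
    refine Fin.cases ?_ (fun i => ?_) i
    · rw [hs_zero]
      exact hH.schur_le (hd 0)
    · rw [hs_succ]
      have h1 := ih (tl H) hH.tl (fun i j => x i.succ j.succ) (fun i => hd i.succ)
        (fun i j hij => hz _ _ (by simpa using hij)) i
      have h2 : (x i.succ) = Fin.cons 0 (fun j => x i.succ j.succ) := by
        ext j
        refine Fin.cases ?_ (fun j => ?_) j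
        · rw [Fin.cons_zero]; exact hz _ _ (by simp)
        · rfl
      rw [h2, ← q_tl]
      exact h1

theorem amgm (n : ℕ) (hn : 0 < n) (y : Fin n → ℝ) (hy : ∀ i, 0 ≤ y i) :
    ∏ i, y i ≤ ((∑ i, y i) / n) ^ n := by
  have hn' : (0 : ℝ) < n := by exact_mod_cast hn
  have h1 := Real.geom_mean_le_arith_mean Finset.univ (fun _ : Fin n => (1 : ℝ)) y
    (fun _ _ => zero_le_one) (by simpa using hn) (fun i _ => hy i)
  simp only [Real.rpow_one, Finset.sum_const, Finset.card_univ, Fintype.card_fin, nsmul_eq_mul,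
    mul_one, one_mul] at h1
  have h2 : 0 ≤ ∏ i, y i := Finset.prod_nonneg fun i _ => hy i
  calc ∏ i, y i = ((∏ i, y i) ^ ((n : ℝ)⁻¹)) ^ n := by
        rw [← Real.rpow_natCast, ← Real.rpow_mul h2, inv_mul_cancel₀ hn'.ne', Real.rpow_one]
    _ ≤ _ := pow_le_pow_left₀ (Real.rpow_nonneg h2 _) h1 n

theorem prod_y {H : Matrix (Fin n) (Fin n) ℂ} (hH : Pd H) {h : ℝ} (hh : 0 < h)
    (hmin : ∀ w, IsLat w → w ≠ 0 → h ≤ q H w) :
    ∏ i : Fin n, ((2 / 3 : ℝ) ^ (i : ℕ) * ((2 / 3 : ℝ) ^ (i : ℕ) * h)) ≤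
      ∏ i : Fin n, ((2 / 3 : ℝ) ^ (i : ℕ) * hs n H i) := by
  obtain ⟨d, hd, hd0, hdl⟩ := hH.hermite hh hmin
  rw [Finset.prod_mul_distrib, Finset.prod_mul_distrib (g := fun i => hs n H i), prod_hs n H hH, hd,
    Complex.ofReal_re]
  exact mul_le_mul_of_nonneg_left hdl (Finset.prod_nonneg fun i _ => by positivity)

/-- The weighted sum of the successive Schur complements is at least `h`. -/
theorem V_ge {H : Matrix (Fin n) (Fin n) ℂ} (hn0 : 1 ≤ n) (hn : n ≤ 4) (hH : Pd H) {h : ℝ}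
    (hh : 0 < h) (hmin : ∀ w, IsLat w → w ≠ 0 → h ≤ q H w) :
    h ≤ ∑ i : Fin n, (2 / 3 : ℝ) ^ (i : ℕ) * hs n H i := by
  have h1 := prod_y hH hh hmin
  have h2 := amgm n hn0 (fun i => (2 / 3 : ℝ) ^ (i : ℕ) * hs n H i)
    (fun i => mul_nonneg (by positivity) (hs_pos n H hH i).le)
  have h3 := h1.trans h2
  set s := ∑ i : Fin n, (2 / 3 : ℝ) ^ (i : ℕ) * hs n H i with hs'
  have hs0 : 0 ≤ s := Finset.sum_nonneg fun i _ => mul_nonneg (by positivity) (hs_pos n H hH i).le
  by_contra hcon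
  push Not at hcon
  have h4 : (s / n) ^ n < (h / n) ^ n := by
    have : (0 : ℝ) < n := by exact_mod_cast hn0
    exact pow_lt_pow_left₀ (div_lt_div_of_pos_right hcon this) (by positivity) (by omega)
  have h5 := lt_of_le_of_lt h3 h4
  clear h1 h2 h3 h4 hcon hs' hs0
  clear_value s
  clear hmin hH
  interval_cases n
  · simp at h5
  · simp [Fin.prod_univ_succ] at h5
    nlinarith [sq_nonneg h, pow_pos hh 2]
  · simp [Fin.prod_univ_succ] at h5
    nlinarith [pow_pos hh 3]
  · simp [Fin.prod_univ_succ] at h5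
    nlinarith [pow_pos hh 4]

theorem V_ge' {H : Matrix (Fin n) (Fin n) ℂ} (hn0 : 2 ≤ n) (hn : n ≤ 4) (hH : Pd H) {h : ℝ}
    (hh : 0 < h) (hmin : ∀ w, IsLat w → w ≠ 0 → h ≤ q H w) :
    7 / 6 * h ≤ ∑ i : Fin n, (2 / 3 : ℝ) ^ (i : ℕ) * hs n H i := by
  have h1 := prod_y hH hh hmin
  have h2 := amgm n (by omega) (fun i => (2 / 3 : ℝ) ^ (i : ℕ) * hs n H i)
    (fun i => mul_nonneg (by positivity) (hs_pos n H hH i).le)
  have h3 := h1.trans h2
  set s := ∑ i : Fin n, (2 / 3 : ℝ) ^ (i : ℕ) * hs n H i with hs'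
  have hs0 : 0 ≤ s := Finset.sum_nonneg fun i _ => mul_nonneg (by positivity) (hs_pos n H hH i).le
  by_contra hcon
  push Not at hcon
  have h4 : (s / n) ^ n < (7 / 6 * h / n) ^ n := by
    have : (0 : ℝ) < n := by exact_mod_cast (show 0 < n by omega)
    exact pow_lt_pow_left₀ (div_lt_div_of_pos_right hcon this) (by positivity) (by omega)
  have h5 := lt_of_le_of_lt h3 h4
  clear h1 h2 h3 h4 hcon hs' hs0
  clear_value s
  clear hmin hH
  interval_cases n
  · simp [Fin.prod_univ_succ] at h5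
    nlinarith [sq_nonneg h, pow_pos hh 2]
  · simp [Fin.prod_univ_succ] at h5
    nlinarith [pow_pos hh 3]
  · simp [Fin.prod_univ_succ] at h5
    nlinarith [pow_pos hh 4]

/-- The final combination. -/
theorem comb {H : Matrix (Fin n) (Fin n) ℂ} (hn : n ≤ 4) (hH : Pd H) {h : ℝ}
    (hh : 0 < h) (hmin : ∀ w, IsLat w → w ≠ 0 → h ≤ q H w) (m : Fin n → ℝ) (hm : ∀ i, 0 < m i)
    (hch : ∀ i j : Fin n, (i : ℕ) + 1 = j → 2 / 3 * m i ≤ m j) (k : Fin n) :
    h * (m k + 1 / 3 * ∑ i ∈ Finset.univ.filter (· < k), m i) ≤ ∑ i, m i * hs n H i := by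
  have hk := k.2
  interval_cases n
  · exact absurd hk (by omega)
  · have v0 := V_ge (by norm_num) (by norm_num) hH hh hmin
    simp at v0 ⊢
    fin_cases k
    have := hm 0
    simp
    nlinarith
  · have v0 := V_ge (by norm_num) (by norm_num) hH hh hmin
    have v1 := V_ge (by norm_num) (by norm_num) hH.tl hh (min_tl hmin)
    have c0 := hch 0 1 rfl
    have p0 := hm 0
    have a0 := mul_nonneg p0.le (sub_nonneg.2 v0)
    have a1 := mul_nonneg (sub_nonneg.2 c0) (sub_nonneg.2 v1)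
    have b1 := mul_nonneg (sub_nonneg.2 c0) hh.le
    simp [Fin.sum_univ_succ, Finset.sum_filter, hs_succ] at a0 a1 b1 ⊢
    fin_cases k <;> simp <;> nlinarith
  · have v0 := V_ge (by norm_num) (by norm_num) hH hh hmin
    have v1 := V_ge (by norm_num) (by norm_num) hH.tl hh (min_tl hmin)
    have v2 := V_ge (by norm_num) (by norm_num) hH.tl.tl hh (min_tl (min_tl hmin))
    have c0 := hch 0 1 rfl
    have c1 := hch 1 2 rfl
    have p0 := hm 0
    have a0 := mul_nonneg p0.le (sub_nonneg.2 v0)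
    have a1 := mul_nonneg (sub_nonneg.2 c0) (sub_nonneg.2 v1)
    have a2 := mul_nonneg (sub_nonneg.2 c1) (sub_nonneg.2 v2)
    have b1 := mul_nonneg (sub_nonneg.2 c0) hh.le
    have b2 := mul_nonneg (sub_nonneg.2 c1) hh.le
    simp [Fin.sum_univ_succ, Finset.sum_filter, hs_succ] at a0 a1 a2 b1 b2 ⊢
    fin_cases k <;> simp <;> nlinarith
  · have v0 := V_ge (by norm_num) (by norm_num) hH hh hmin
    have v1 := V_ge (by norm_num) (by norm_num) hH.tl hh (min_tl hmin)
    have v2 := V_ge (by norm_num) (by norm_num) hH.tl.tl hh (min_tl (min_tl hmin))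
    have v3 := V_ge (by norm_num) (by norm_num) hH.tl.tl.tl hh (min_tl (min_tl (min_tl hmin)))
    have c0 := hch 0 1 rfl
    have c1 := hch 1 2 rfl
    have c2 := hch 2 3 rfl
    have p0 := hm 0
    have a0 := mul_nonneg p0.le (sub_nonneg.2 v0)
    have a1 := mul_nonneg (sub_nonneg.2 c0) (sub_nonneg.2 v1)
    have a2 := mul_nonneg (sub_nonneg.2 c1) (sub_nonneg.2 v2)
    have a3 := mul_nonneg (sub_nonneg.2 c2) (sub_nonneg.2 v3)
    have b1 := mul_nonneg (sub_nonneg.2 c0) hh.le
    have b2 := mul_nonneg (sub_nonneg.2 c1) hh.le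
    have b3 := mul_nonneg (sub_nonneg.2 c2) hh.le
    simp [Fin.sum_univ_succ, Finset.sum_filter, hs_succ] at a0 a1 a2 a3 b1 b2 b3 ⊢
    fin_cases k <;> simp <;> nlinarith

end Pool.Agent.R895
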