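import Pool.Agent.R895.LemA

/-!
# The key inequality
-/

set_option autoImplicit false

namespace Pool.Agent.R895

open Matrix

variable {n : ℕ}

/-- `J` is closed under sums and multiplication with Eisenstein integers. -/
structure IsSub (J : Set (Fin n → ℂ)) : Prop where
  zero : 0 ∈ J
  add : ∀ x ∈ J, ∀ y ∈ J, x + y ∈ J
  smul : ∀ a : ℂ, IsEis a → ∀ x ∈ J, a • x ∈ J

theorem IsSub.sum {J : Set (Fin n → ℂ)} (hJ : IsSub J) {κ : Type*} (s : Finset κ)
    (f : κ → Fin n → ℂ) (h : ∀ i ∈ s, f i ∈ J) : ∑ i ∈ s, f i ∈ J := by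
  classical
  induction s using Finset.induction_on with
  | empty => simpa using hJ.zero
  | insert i s hi ih =>
    rw [Finset.sum_insert hi]
    exact hJ.add _ (h i (Finset.mem_insert_self _ _)) _
      (ih fun j hj => h j (Finset.mem_insert_of_mem hj))

theorem trace_vec (x : Fin n → ℂ) (K : Matrix (Fin n) (Fin n) ℂ) :
    (vecMulVec x (star x) * K).trace = star x ⬝ᵥ (K *ᵥ x) := by
  rw [vecMulVec_mul, trace_vecMulVec, dotProduct_comm, dotProduct_mulVec]

theorem trace_dec {M g g' : Matrix (Fin n) (Fin n) ℂ} (h1 : g * g' = 1) {m : Fin n → ℝ}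
    {x : Fin n → Fin n → ℂ}
    (hdec : gᴴ * M * g = ∑ i, (m i : ℂ) • vecMulVec (x i) (star (x i)))
    (H : Matrix (Fin n) (Fin n) ℂ) :
    (M * H).trace.re = ∑ i, m i * q (g' * H * g'ᴴ) (x i) := by
  have h2 : g'ᴴ * gᴴ = 1 := by rw [← conjTranspose_mul, h1, conjTranspose_one]
  have h3 : M = g'ᴴ * (gᴴ * M * g) * g' := by
    calc M = (g'ᴴ * gᴴ) * M * (g * g') := by rw [h1, h2, Matrix.one_mul, Matrix.mul_one]
      _ = _ := by simp only [Matrix.mul_assoc]
  have h4 : (M * H).trace = ((gᴴ * M * g) * (g' * H * g'ᴴ)).trace := by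
    conv_lhs => rw [h3]
    rw [Matrix.mul_assoc, Matrix.mul_assoc, trace_mul_comm]
    simp only [Matrix.mul_assoc]
  rw [h4, hdec, Finset.sum_mul, trace_sum, Complex.re_sum]
  refine Finset.sum_congr rfl fun i _ => ?_
  rw [Matrix.smul_mul, trace_smul, trace_vec, smul_eq_mul, Complex.re_ofReal_mul]
  rfl

theorem lemA_pd (hn : n ≤ 4) {M H : Matrix (Fin n) (Fin n) ℂ} (hM : Pd M) (hH : Pd H) {h : ℝ}
    (hh : 0 < h) (hmin : ∀ w, IsLat w → w ≠ 0 → h ≤ q H w) {J : Set (Fin n → ℂ)} (hJ : IsSub J)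
    (hne : ∃ v, IsLat v ∧ v ∉ J) (hMJ : ∀ v, IsLat v → v ∉ J → 1 ≤ q M v) :
    h ≤ (M * H).trace.re := by
  obtain ⟨g, x, m, hg, hm, hch, hd, hz, hsz, hdec⟩ := exists_red n M hM
  obtain ⟨g', h1, h2, h3⟩ := hg.inv
  have hg' : IsGL g' := ⟨h1, g, hg.ent, h3, h2⟩
  rw [trace_dec h2 hdec H]
  set K := g' * H * g'ᴴ with hK
  have hKe : K = g'ᴴᴴ * H * g'ᴴ := by rw [conjTranspose_conjTranspose]
  have hKpd : Pd K := by rw [hKe]; exact hH.conj hg'.conjTranspose
  have hKmin : ∀ w, IsLat w → w ≠ 0 → h ≤ q K w := by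
    intro w hw hw0
    rw [hKe, q_conj]
    exact hmin _ (hg'.conjTranspose.mulVec hw) (hg'.conjTranspose.mulVec_ne hw0)
  have h4 : ∑ i, m i * hs n K i ≤ ∑ i, m i * q K (x i) :=
    Finset.sum_le_sum fun i _ => mul_le_mul_of_nonneg_left (hs_le n K hKpd x hd hz i) (hm i).le
  refine le_trans ?_ h4
  -- a basis vector outside `J`
  obtain ⟨k, hk⟩ : ∃ k, g *ᵥ (Pi.single k 1) ∉ J := by
    by_contra hcon
    push Not at hcon
    obtain ⟨v, hv, hvJ⟩ := hne
    apply hvJ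
    have h5 : v = ∑ k, (g' *ᵥ v) k • (g *ᵥ (Pi.single k 1)) := by
      have h6 : g' *ᵥ v = ∑ k, (g' *ᵥ v) k • (Pi.single k 1 : Fin n → ℂ) := by
        ext i
        simp [Finset.sum_apply, Pi.single_apply]
      have h7 : g *ᵥ (g' *ᵥ v) = v := by rw [mulVec_mulVec, h2, one_mulVec]
      calc v = g *ᵥ (g' *ᵥ v) := h7.symm
        _ = g *ᵥ (∑ k, (g' *ᵥ v) k • (Pi.single k 1 : Fin n → ℂ)) := by rw [← h6]
        _ = _ := by
            rw [mulVec_sum]
            exact Finset.sum_congr rfl fun k _ => mulVec_smul _ _ _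
    rw [h5]
    exact hJ.sum _ _ fun k _ => hJ.smul _ (hg'.mulVec hv k) _ (hcon k)
  have h5 := hMJ _ (hg.mulVec (isLat_single k)) hk
  rw [q_single M g x m hdec k] at h5
  have h6 : ∑ i, m i * Complex.normSq (x i k) ≤
      m k + 1 / 3 * ∑ i ∈ Finset.univ.filter (· < k), m i := by
    have h7 : ∀ i, m i * Complex.normSq (x i k) ≤
        (if i = k then m k else 0) + (if i < k then 1 / 3 * m i else 0) := by
      intro i
      rcases lt_trichotomy i k with h | h | h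
      · rw [if_neg h.ne, if_pos h, zero_add, mul_comm]
        exact mul_le_mul_of_nonneg_right (hsz i k h) (hm i).le
      · rw [h, hd, if_pos rfl, if_neg (lt_irrefl _)]
        simp
      · rw [hz i k h, if_neg h.ne', if_neg (not_lt.2 h.le)]
        simp
    refine (Finset.sum_le_sum fun i _ => h7 i).trans (le_of_eq ?_)
    rw [Finset.sum_add_distrib, Finset.sum_ite_eq' Finset.univ k (fun _ => m k),
      if_pos (Finset.mem_univ _), Finset.mul_sum, Finset.sum_filter]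
  have h8 := comb hn hKpd hh hKmin m hm hch k
  refine le_trans ?_ h8
  nlinarith [h5.trans h6]

/-- The first coefficient is at least `1` if the form is at least `1` on all lattice vectors. -/
theorem lemA_pd' (hn0 : 2 ≤ n) (hn : n ≤ 4) {M H : Matrix (Fin n) (Fin n) ℂ} (hM : Pd M)
    (hH : Pd H) {h : ℝ} (hh : 0 < h) (hmin : ∀ w, IsLat w → w ≠ 0 → h ≤ q H w)
    (hM1 : ∀ v, IsLat v → v ≠ 0 → 1 ≤ q M v) : 7 / 6 * h ≤ (M * H).trace.re := by
  obtain ⟨g, x, m, hg, hm, hch, hd, hz, hsz, hdec⟩ := exists_red n M hM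
  obtain ⟨g', h1, h2, h3⟩ := hg.inv
  have hg' : IsGL g' := ⟨h1, g, hg.ent, h3, h2⟩
  rw [trace_dec h2 hdec H]
  set K := g' * H * g'ᴴ with hK
  have hKe : K = g'ᴴᴴ * H * g'ᴴ := by rw [conjTranspose_conjTranspose]
  have hKpd : Pd K := by rw [hKe]; exact hH.conj hg'.conjTranspose
  have hKmin : ∀ w, IsLat w → w ≠ 0 → h ≤ q K w := by
    intro w hw hw0
    rw [hKe, q_conj]
    exact hmin _ (hg'.conjTranspose.mulVec hw) (hg'.conjTranspose.mulVec_ne hw0)
  have h4 : ∑ i, m i * hs n K i ≤ ∑ i, m i * q K (x i) :=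
    Finset.sum_le_sum fun i _ => mul_le_mul_of_nonneg_left (hs_le n K hKpd x hd hz i) (hm i).le
  refine le_trans ?_ h4
  have hV := V_ge' hn0 hn hKpd hh hKmin
  -- the coefficients are at least `(2 / 3) ^ i`
  have key : ∀ (k : ℕ) (i : Fin n), (i : ℕ) = k → (2 / 3 : ℝ) ^ k ≤ m i := by
    intro k
    induction k with
    | zero =>
      intro i hi
      have h2 := hM1 _ (hg.mulVec (isLat_single i)) (hg.mulVec_ne (single_ne i))
      rw [q_single M g x m hdec i, Finset.sum_eq_single i] at h2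
      · rw [hd] at h2
        simpa using h2
      · intro j _ hj
        rw [hz j i (by
          rw [Fin.lt_def, hi]
          exact Nat.pos_of_ne_zero fun h => hj (Fin.ext (by rw [h, hi])))]
        simp
      · intro h; exact absurd (Finset.mem_univ _) h
    | succ k ih =>
      intro i hi
      have hk : k < n := by have := i.2; omega
      have h2 := ih ⟨k, hk⟩ rfl
      have h3 := hch ⟨k, hk⟩ i (by simp [hi])
      rw [pow_succ]
      linarith
  refine hV.trans (Finset.sum_le_sum fun i _ => ?_)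
  exact mul_le_mul_of_nonneg_right (key _ i rfl) (hs_pos n K hKpd i).le

theorem Psd.add_one {M : Matrix (Fin n) (Fin n) ℂ} (hM : Psd M) {ε : ℝ} (hε : 0 < ε) :
    Pd (M + (ε : ℂ) • (1 : Matrix (Fin n) (Fin n) ℂ)) ∧
      ∀ v, q (M + (ε : ℂ) • (1 : Matrix (Fin n) (Fin n) ℂ)) v = q M v + ε * ∑ i, Complex.normSq (v i) := by
  have h1 : ∀ v, q (1 : Matrix (Fin n) (Fin n) ℂ) v = ∑ i, Complex.normSq (v i) := by
    intro v
    unfold q
    rw [one_mulVec, dotProduct, Complex.re_sum]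
    refine Finset.sum_congr rfl fun i _ => ?_
    rw [Pi.star_apply]
    have : star (v i) * v i = ((Complex.normSq (v i) : ℝ) : ℂ) :=
      Complex.normSq_eq_conj_mul_self.symm
    rw [this, Complex.ofReal_re]
  refine ⟨⟨?_, fun v hv => ?_⟩, fun v => by rw [q_add, q_smul, h1]⟩
  · refine hM.1.add ?_
    unfold IsHermitian
    rw [conjTranspose_smul, conjTranspose_one]
    congr 1
    exact Complex.conj_ofReal ε
  · rw [q_add, q_smul, h1]
    have h2 := hM.2 v
    have h3 : 0 < ∑ i, Complex.normSq (v i) := by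
      obtain ⟨i, hi⟩ : ∃ i, v i ≠ 0 := by
        by_contra hcon
        push Not at hcon
        exact hv (funext hcon)
      exact Finset.sum_pos' (fun i _ => Complex.normSq_nonneg _)
        ⟨i, Finset.mem_univ _, Complex.normSq_pos.2 hi⟩
    positivity

theorem trace_lim {M H : Matrix (Fin n) (Fin n) ℂ} {c : ℝ}
    (h : ∀ ε : ℝ, 0 < ε → c ≤ ((M + (ε : ℂ) • (1 : Matrix (Fin n) (Fin n) ℂ)) * H).trace.re) :
    c ≤ (M * H).trace.re := by
  have h1 : ∀ ε : ℝ, 0 < ε → c ≤ (M * H).trace.re + ε * |H.trace.re| := by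
    intro ε hε
    refine (h ε hε).trans ?_
    rw [Matrix.add_mul, trace_add, Complex.add_re, Matrix.smul_mul, Matrix.one_mul, trace_smul,
      smul_eq_mul, Complex.re_ofReal_mul]
    have := mul_le_mul_of_nonneg_left (le_abs_self H.trace.re) hε.le
    linarith
  refine le_of_forall_pos_le_add fun δ hδ => ?_
  have h2 := h1 (δ / (|H.trace.re| + 1)) (by positivity)
  refine h2.trans ?_
  have h3 : δ / (|H.trace.re| + 1) * |H.trace.re| ≤ δ := by
    rw [div_mul_eq_mul_div, div_le_iff₀ (by positivity)]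
    nlinarith [abs_nonneg H.trace.re]
  linarith

/-- **The key inequality.** -/
theorem lemA (hn : n ≤ 4) {M H : Matrix (Fin n) (Fin n) ℂ} (hM : Psd M) (hH : Pd H) {h : ℝ}
    (hh : 0 < h) (hmin : ∀ w, IsLat w → w ≠ 0 → h ≤ q H w) {J : Set (Fin n → ℂ)} (hJ : IsSub J)
    (hne : ∃ v, IsLat v ∧ v ∉ J) (hMJ : ∀ v, IsLat v → v ∉ J → 1 ≤ q M v) :
    h ≤ (M * H).trace.re := by
  refine trace_lim fun ε hε => ?_
  obtain ⟨h1, h2⟩ := hM.add_one hε
  refine lemA_pd hn h1 hH hh hmin hJ hne fun v hv hvJ => ?_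
  rw [h2]
  have h3 := hMJ v hv hvJ
  have h4 : 0 ≤ ∑ i, Complex.normSq (v i) := Finset.sum_nonneg fun i _ => Complex.normSq_nonneg _
  nlinarith

theorem lemA' (hn0 : 2 ≤ n) (hn : n ≤ 4) {M H : Matrix (Fin n) (Fin n) ℂ} (hM : Psd M)
    (hH : Pd H) {h : ℝ} (hh : 0 < h) (hmin : ∀ w, IsLat w → w ≠ 0 → h ≤ q H w)
    (hM1 : ∀ v, IsLat v → v ≠ 0 → 1 ≤ q M v) : 7 / 6 * h ≤ (M * H).trace.re := by
  refine trace_lim fun ε hε => ?_
  obtain ⟨h1, h2⟩ := hM.add_one hε
  refine lemA_pd' hn0 hn h1 hH hh hmin fun v hv hv0 => ?_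
  rw [h2]
  have h3 := hM1 v hv hv0
  have h4 : 0 ≤ ∑ i, Complex.normSq (v i) := Finset.sum_nonneg fun i _ => Complex.normSq_nonneg _
  nlinarith

end Pool.Agent.R895
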