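import Pool.Agent.R895.Up
import Pool.Agent.R895.Gen

/-!
# Sections from sums of squares
-/

set_option autoImplicit false

namespace Pool.Agent.R895

open Matrix hiding IsHermitian
open Pool.Agent.W594.SYZ2 (IsHermitian)
open Pool.Agent.W594.SYZ2.TQ (h_add_right h_smul_right h_zero_left h_zero_right)

variable {ι : Type*} [Fintype ι] {r : ℕ}

/-- The hermitian form of the linear function `l`. -/
noncomputable def lsq (u w l : ι → ℂ) : ℂ := (l ⬝ᵥ u) * (starRingEnd ℂ) (l ⬝ᵥ w)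

theorem dec_of_multiset {h : (ι → ℂ) → (ι → ℂ) → ℂ} {b : ℕ} {J : Set (ι → ℂ)} (N : ℕ)
    (S T : Multiset (ι → ℂ)) (hN : 1 ≤ N) (hS : ∀ l ∈ S, Lat l) (hT : ∀ l ∈ T, Lat l ∧ l ∉ J)
    (hc : T.card = N * b)
    (hsum : ∀ u w, N * h u w = (T.map (lsq u w)).sum + (S.map (lsq u w)).sum) : Dec h b J := by
  classical
  set LT := T.toList with hLT
  set LS := S.toList with hLS
  have hTe : (LT : Multiset (ι → ℂ)) = T := T.coe_toList
  have hSe : (LS : Multiset (ι → ℂ)) = S := S.coe_toList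
  have hTm : ∀ x, x ∈ LT → x ∈ T := fun x hx => Multiset.mem_toList.1 hx
  have hSm : ∀ x, x ∈ LS → x ∈ S := fun x hx => Multiset.mem_toList.1 hx
  have hlen : LT.length ≤ (LT ++ LS).length := by rw [List.length_append]; omega
  refine ⟨N, (LT ++ LS).length, fun i => (LT ++ LS)[i.1], hN, fun i => ?_, fun u w => ?_,
    Finset.univ.map (Fin.castLEEmb hlen), ?_, ?_⟩
  · have h1 : (LT ++ LS)[i.1] ∈ LT ++ LS := List.getElem_mem i.2
    rcases List.mem_append.1 h1 with h2 | h2
    · exact (hT _ (hTm _ h2)).1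
    · exact hS _ (hSm _ h2)
  · have h1 := Fin.sum_univ_fun_getElem (LT ++ LS) (lsq u w)
    have h2 : (T.map (lsq u w)).sum = (LT.map (lsq u w)).sum := by
      rw [← hTe, Multiset.map_coe, Multiset.sum_coe]
    have h3 : (S.map (lsq u w)).sum = (LS.map (lsq u w)).sum := by
      rw [← hSe, Multiset.map_coe, Multiset.sum_coe]
    rw [hsum, h2, h3, ← List.sum_append, ← List.map_append, ← h1]
    rfl
  · rw [Finset.card_map, Finset.card_univ, Fintype.card_fin, ← hc, ← hTe]
    rfl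
  · intro i hi
    obtain ⟨k, -, rfl⟩ := Finset.mem_map.1 hi
    have h1 : (LT ++ LS)[(Fin.castLEEmb hlen k).1] = LT[k.1] := by
      exact List.getElem_append_left k.2
    show (LT ++ LS)[(Fin.castLEEmb hlen k).1] ∉ J
    rw [h1]
    exact (hT _ (hTm _ (List.getElem_mem k.2))).2

theorem exists_sub_card {α : Type*} {T : Multiset α} {n : ℕ} (h : n ≤ T.card) :
    ∃ T' ≤ T, T'.card = n := by
  have h1 : ((T.toList.take n : List α) : Multiset α) ≤ T := by
    conv_rhs => rw [← T.coe_toList]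
    exact (List.take_sublist n T.toList).subperm
  refine ⟨_, h1, ?_⟩
  rw [Multiset.coe_card, List.length_take, Multiset.length_toList]
  omega

theorem sum_lsq (S : Multiset (ι → ℂ)) (u w : ι → ℂ) :
    (S.map (lsq u w)).sum = ∑ i, ∑ k, (S.map sq).sum i k * (u i * (starRingEnd ℂ) (w k)) := by
  induction S using Multiset.induction_on with
  | empty => simp
  | cons l S ih =>
    rw [Multiset.map_cons, Multiset.sum_cons, Multiset.map_cons, Multiset.sum_cons, ih]
    simp only [Pi.add_apply, add_mul, Finset.sum_add_distrib]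
    congr 1
    unfold lsq sq dotProduct
    rw [map_sum, Finset.sum_mul_sum]
    refine Finset.sum_congr rfl fun i _ => Finset.sum_congr rfl fun k _ => ?_
    rw [map_mul]
    have : star (l k) = (starRingEnd ℂ) (l k) := rfl
    rw [this]
    ring

/-- Decompositions from the cone `RC`. -/
theorem dec_of_RC {h : (ι → ℂ) → (ι → ℂ) → ℂ} {b : ℕ} {J : Set (ι → ℂ)} {A : ι → ι → ℂ}
    (hA : (A, (b : ℝ)) ∈ RC J)
    (hh : ∀ u w, h u w = ∑ i, ∑ k, A i k * (u i * (starRingEnd ℂ) (w k))) : Dec h b J := by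
  obtain ⟨N, S, hN, hS, hsum, T, hTS, hT, hc⟩ := hA
  have hc' : N * b ≤ T.card := by
    have h1 : (N : ℝ) * b ≤ T.card := hc
    exact_mod_cast h1
  obtain ⟨T', hT', hc2⟩ := exists_sub_card hc'
  obtain ⟨U, rfl⟩ := Multiset.le_iff_exists_add.1 (hT'.trans hTS)
  refine dec_of_multiset N U T' hN (fun l hl => hS l (Multiset.mem_add.2 (Or.inr hl)))
    (fun l hl => ⟨hS l (Multiset.mem_add.2 (Or.inl hl)), hT l (Multiset.mem_of_le hT' hl)⟩) hc2
    fun u w => ?_
  rw [← Multiset.sum_add, ← Multiset.map_add, sum_lsq, ← hsum, hh]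
  simp only [Pi.smul_apply, Finset.mul_sum]
  refine Finset.sum_congr rfl fun i _ => Finset.sum_congr rfl fun k _ => ?_
  rw [Complex.real_smul]
  push_cast
  ring

section lift

open scoped Classical in
/-- The extension by zero of a vector. -/
noncomputable def ext (ρ : Fin r → ι) (l : Fin r → ℂ) (i : ι) : ℂ := ∑ a, if ρ a = i then l a else 0

open scoped Classical in
/-- The extension by zero of a matrix. -/
noncomputable def extm (ρ : Fin r → ι) (A : Fin r → Fin r → ℂ) (i k : ι) : ℂ :=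
  ∑ a, ∑ b, if ρ a = i then (if ρ b = k then A a b else 0) else 0

variable {ρ : Fin r → ι}

theorem ext_dot (l : Fin r → ℂ) (v : ι → ℂ) : ext ρ l ⬝ᵥ v = l ⬝ᵥ (v ∘ ρ) := by
  classical
  unfold ext dotProduct
  simp only [Finset.sum_mul, ite_mul, zero_mul]
  rw [Finset.sum_comm]
  refine Finset.sum_congr rfl fun a _ => ?_
  rw [Finset.sum_ite_eq]
  simp

theorem ext_apply (hρ : Function.Injective ρ) (l : Fin r → ℂ) (a : Fin r) : ext ρ l (ρ a) = l a := by
  classical
  unfold ext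
  simp only [hρ.eq_iff]
  simp

theorem ext_lat {l : Fin r → ℂ} (hl : Lat l) : Lat (ext ρ l) := fun i =>
  IsEis.sum _ _ fun a _ => by
    split_ifs
    · exact hl a
    · exact IsEis.zero

theorem extm_add (A B : Fin r → Fin r → ℂ) : extm ρ (A + B) = extm ρ A + extm ρ B := by
  classical
  funext i k
  simp only [extm, Pi.add_apply, ← Finset.sum_add_distrib]
  refine Finset.sum_congr rfl fun a _ => Finset.sum_congr rfl fun b _ => ?_
  split_ifs <;> simp

theorem extm_smul (t : ℝ) (A : Fin r → Fin r → ℂ) : extm ρ (t • A) = t • extm ρ A := by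
  classical
  funext i k
  simp only [extm, Pi.smul_apply, Finset.smul_sum]
  refine Finset.sum_congr rfl fun a _ => Finset.sum_congr rfl fun b _ => ?_
  split_ifs <;> simp

theorem extm_sq (l : Fin r → ℂ) : extm ρ (sq l) = sq (ext ρ l) := by
  classical
  funext i k
  unfold extm sq ext
  rw [star_sum, Finset.sum_mul_sum]
  refine Finset.sum_congr rfl fun a _ => Finset.sum_congr rfl fun b _ => ?_
  split_ifs <;> simp

theorem extm_zero : extm ρ 0 = 0 := by
  classical
  funext i k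
  simp [extm]

theorem extm_sum (S : Multiset (Fin r → ℂ)) :
    extm ρ (S.map sq).sum = ((S.map (ext ρ)).map sq).sum := by
  induction S using Multiset.induction_on with
  | empty => simpa using extm_zero
  | cons l S ih => simp only [Multiset.map_cons, Multiset.sum_cons, extm_add, ih, extm_sq]

theorem RC.lift {A : Fin r → Fin r → ℂ} {β : ℝ} {J : Set (ι → ℂ)} {J' : Set (Fin r → ℂ)}
    (hA : (A, β) ∈ RC J') (hJ : ∀ l, ext ρ l ∈ J → l ∈ J') : (extm ρ A, β) ∈ RC J := by
  obtain ⟨N, S, hN, hS, hsum, T, hTS, hT, hc⟩ := hA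
  refine ⟨N, S.map (ext ρ), hN, ?_, ?_, T.map (ext ρ), Multiset.map_le_map hTS, ?_, ?_⟩
  · intro l hl
    obtain ⟨l', hl', rfl⟩ := Multiset.mem_map.1 hl
    exact ext_lat (hS l' hl')
  · rw [← extm_sum, ← hsum, extm_smul]
  · intro l hl
    obtain ⟨l', hl', rfl⟩ := Multiset.mem_map.1 hl
    exact fun h => hT l' hl' (hJ l' h)
  · rw [Multiset.card_map]
    exact hc

theorem sum_extm (A : Fin r → Fin r → ℂ) (u w : ι → ℂ) :
    ∑ i, ∑ k, extm ρ A i k * (u i * (starRingEnd ℂ) (w k)) =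
      ∑ a, ∑ b, A a b * (u (ρ a) * (starRingEnd ℂ) (w (ρ b))) := by
  classical
  unfold extm
  simp only [Finset.sum_mul, ite_mul, zero_mul]
  calc ∑ i, ∑ k, ∑ a, ∑ b, (if ρ a = i then if ρ b = k then
          A a b * (u i * (starRingEnd ℂ) (w k)) else 0 else 0)
      = ∑ a, ∑ b, ∑ i, ∑ k, (if ρ a = i then if ρ b = k then
          A a b * (u i * (starRingEnd ℂ) (w k)) else 0 else 0) := by
        rw [Finset.sum_congr rfl fun i _ => Finset.sum_comm (s := Finset.univ (α := ι))]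
        rw [Finset.sum_comm]
        refine Finset.sum_congr rfl fun a _ => ?_
        rw [Finset.sum_congr rfl fun i _ => Finset.sum_comm (s := Finset.univ (α := ι))]
        rw [Finset.sum_comm]
    _ = _ := by
        refine Finset.sum_congr rfl fun a _ => Finset.sum_congr rfl fun b _ => ?_
        rw [Finset.sum_eq_single (ρ a), Finset.sum_eq_single (ρ b)]
        · simp
        · intro k _ hk
          rw [if_pos rfl, if_neg (Ne.symm hk)]
        · simp
        · intro i _ hi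
          simp [Ne.symm hi]
        · simp

open scoped Classical in
/-- The indices which are not in the range of `ρ`. -/
noncomputable def co (ρ : Fin r → ι) : Finset ι := Finset.univ.filter fun i => ∀ a, ρ a ≠ i

theorem mem_co {i : ι} : i ∈ co ρ ↔ ∀ a, ρ a ≠ i := by
  classical
  simp [co]

open scoped Classical in
/-- The matrix of the extended form. -/
noncomputable def exA (ρ : Fin r → ι) (c : ℕ) (A : Fin r → Fin r → ℂ) : ι → ι → ℂ :=
  extm ρ A + ∑ i ∈ co ρ, (c : ℝ) • sq (Pi.single i 1)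

/-- The extended form. -/
noncomputable def exH (ρ : Fin r → ι) (c : ℕ) (h : (Fin r → ℂ) → (Fin r → ℂ) → ℂ)
    (u w : ι → ℂ) : ℂ := h (u ∘ ρ) (w ∘ ρ) + c * ∑ i ∈ co ρ, u i * (starRingEnd ℂ) (w i)

/-- The matrix of a form. -/
noncomputable def mx (h : (Fin r → ℂ) → (Fin r → ℂ) → ℂ) (a b : Fin r) : ℂ :=
  h (Pi.single a 1) (Pi.single b 1)

theorem herm_mx {h : (Fin r → ℂ) → (Fin r → ℂ) → ℂ} (hh : IsHermitian h) (u w : Fin r → ℂ) :
    h u w = ∑ a, ∑ b, mx h a b * (u a * (starRingEnd ℂ) (w b)) := by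
  have h2 : ∀ v w, h v w = ∑ i, v i * h (Pi.single i 1) w := by
    intro v w
    let L : (Fin r → ℂ) →ₗ[ℂ] ℂ :=
      { toFun := fun v => h v w
        map_add' := fun u v => hh.add_left u v w
        map_smul' := fun a v => hh.smul_left a v w }
    have h3 : v = ∑ i, v i • (Pi.single i 1 : Fin r → ℂ) := by
      ext i
      simp [Finset.sum_apply, Pi.single_apply]
    have h4 : h v w = L v := rfl
    rw [h4]
    conv_lhs => rw [h3]
    rw [map_sum]
    refine Finset.sum_congr rfl fun i _ => ?_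
    rw [map_smul]
    rfl
  rw [h2 u w]
  refine Finset.sum_congr rfl fun i _ => ?_
  have h3 : h (Pi.single i 1) w = (starRingEnd ℂ) (h w (Pi.single i 1)) := hh.symm _ _
  rw [h3, h2 w, map_sum, Finset.mul_sum]
  refine Finset.sum_congr rfl fun j _ => ?_
  rw [map_mul, ← hh.symm, mx]
  ring

theorem single_dot (i : ι) (v : ι → ℂ) [DecidableEq ι] : (Pi.single i 1 : ι → ℂ) ⬝ᵥ v = v i := by
  rw [single_dotProduct, one_mul]

theorem sum_sq (l u w : ι → ℂ) : ∑ i, ∑ k, sq l i k * (u i * (starRingEnd ℂ) (w k)) =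
    (l ⬝ᵥ u) * (starRingEnd ℂ) (l ⬝ᵥ w) := by
  unfold sq dotProduct
  rw [map_sum, Finset.sum_mul_sum]
  refine Finset.sum_congr rfl fun i _ => Finset.sum_congr rfl fun k _ => ?_
  rw [map_mul]
  have : star (l k) = (starRingEnd ℂ) (l k) := rfl
  rw [this]
  ring

theorem exH_eq {h : (Fin r → ℂ) → (Fin r → ℂ) → ℂ} (hh : IsHermitian h) (c : ℕ) (u w : ι → ℂ) :
    exH ρ c h u w = ∑ i, ∑ k, exA ρ c (mx h) i k * (u i * (starRingEnd ℂ) (w k)) := by
  classical
  unfold exH exA
  simp only [Pi.add_apply, add_mul, Finset.sum_add_distrib, Finset.sum_apply, Pi.smul_apply,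
    Finset.sum_mul]
  rw [sum_extm, herm_mx hh]
  congr 1
  have h1 : ∀ i j : ι, ∑ k, ∑ e ∈ co ρ, (c : ℝ) • sq (Pi.single e 1) i k *
      (u i * (starRingEnd ℂ) (w k)) = ∑ e ∈ co ρ, ∑ k, (c : ℝ) • sq (Pi.single e 1) i k *
      (u i * (starRingEnd ℂ) (w k)) := fun i _ => Finset.sum_comm
  rw [Finset.sum_congr rfl fun i _ => h1 i i, Finset.sum_comm, Finset.mul_sum]
  refine Finset.sum_congr rfl fun e _ => ?_
  have h2 := sum_sq (Pi.single e 1) u w
  rw [single_dot, single_dot] at h2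
  rw [← h2, Finset.mul_sum]
  refine Finset.sum_congr rfl fun i _ => ?_
  rw [Finset.mul_sum]
  refine Finset.sum_congr rfl fun k _ => ?_
  rw [Complex.real_smul]
  push_cast
  ring

theorem exH_herm {h : (Fin r → ℂ) → (Fin r → ℂ) → ℂ} (hh : IsHermitian h) (c : ℕ) :
    IsHermitian (exH ρ c h) where
  add_left u v w := by
    unfold exH
    have h1 : (u + v) ∘ ρ = u ∘ ρ + v ∘ ρ := rfl
    rw [h1, hh.add_left]
    simp only [Pi.add_apply, add_mul, Finset.sum_add_distrib]
    ring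
  smul_left a v w := by
    unfold exH
    have h1 : (a • v) ∘ ρ = a • (v ∘ ρ) := rfl
    rw [h1, hh.smul_left]
    simp only [Pi.smul_apply, smul_eq_mul, mul_assoc, ← Finset.mul_sum]
    ring
  symm v w := by
    unfold exH
    rw [map_add, ← hh.symm, map_mul, map_sum, Complex.conj_natCast]
    congr 2
    refine Finset.sum_congr rfl fun i _ => ?_
    rw [map_mul, Complex.conj_conj, mul_comm]

theorem exH_int {h : (Fin r → ℂ) → (Fin r → ℂ) → ℂ}
    (hint : ∀ u w, Lat u → Lat w → IsEis (h u w)) (c : ℕ) (u w : ι → ℂ) (hu : Lat u)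
    (hw : Lat w) : IsEis (exH ρ c h u w) :=
  (hint _ _ (fun a => hu _) fun a => hw _).add ((IsEis.natCast c).mul
    (IsEis.sum _ _ fun i _ => (hu i).mul (hw i).conj))

theorem lat_single {ι : Type*} [DecidableEq ι] (i : ι) : Lat (Pi.single i 1 : ι → ℂ) := by
  intro k
  rw [Pi.single_apply]
  split_ifs
  · exact IsEis.one
  · exact IsEis.zero

theorem exA_mem_of {A : Fin r → Fin r → ℂ} {J : Set (ι → ℂ)} {β : ℝ} (c : ℕ)
    (hA : (extm ρ A, β) ∈ RC J) : (exA ρ c A, β) ∈ RC J := by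
  classical
  have h1 : (∑ i ∈ co ρ, (((c : ℝ) • sq (Pi.single i 1), (0 : ℝ)) : (ι → ι → ℂ) × ℝ)) ∈ RC J :=
    RC.sum _ _ fun i _ => RC.sq_smul (lat_single i) c
  have h2 := RC.add hA h1
  have h3 : ((extm ρ A, β) + ∑ i ∈ co ρ, (((c : ℝ) • sq (Pi.single i 1), (0 : ℝ)) :
      (ι → ι → ℂ) × ℝ)) = (exA ρ c A, β) := by
    refine Prod.ext ?_ ?_
    · rw [Prod.fst_add, Prod.fst_sum]
      rfl
    · rw [Prod.snd_add, Prod.snd_sum]
      simp
  rwa [h3] at h2

open scoped Classical in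
theorem exA_mem_of' {A : Fin r → Fin r → ℂ} {J : Set (ι → ℂ)} {b c : ℕ} (hbc : b ≤ c)
    (hA : (extm ρ A, (0 : ℝ)) ∈ RC J) {i : ι} (hi : i ∈ co ρ) (hJ : Pi.single i 1 ∉ J) :
    (exA ρ c A, (b : ℝ)) ∈ RC J := by
  classical
  have h1 : (∑ k ∈ (co ρ).erase i, (((c : ℝ) • sq (Pi.single k 1), (0 : ℝ)) :
      (ι → ι → ℂ) × ℝ)) ∈ RC J := RC.sum _ _ fun i _ => RC.sq_smul (lat_single i) c
  have h0 := RC.nsmul c (RC.sq_mem' (J := J) (lat_single i) hJ)
  have h2 := RC.add (RC.add hA h0) h1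
  have h3 : (((extm ρ A, (0 : ℝ)) + (c : ℝ) • ((sq (Pi.single i 1), (1 : ℝ)) :
      (ι → ι → ℂ) × ℝ)) + ∑ k ∈ (co ρ).erase i, (((c : ℝ) • sq (Pi.single k 1), (0 : ℝ)) :
      (ι → ι → ℂ) × ℝ)) = (exA ρ c A, (c : ℝ)) := by
    refine Prod.ext ?_ ?_
    · rw [Prod.fst_add, Prod.fst_sum, Prod.fst_add, Prod.smul_fst]
      show extm ρ A + (c : ℝ) • sq (Pi.single i 1) + ∑ k ∈ (co ρ).erase i, (c : ℝ) •
        sq (Pi.single k 1) = exA ρ c A
      rw [exA, ← Finset.add_sum_erase _ _ hi, add_assoc]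
    · rw [Prod.snd_add, Prod.snd_sum, Prod.snd_add, Prod.smul_snd]
      simp
  rw [h3] at h2
  exact RC.mono h2 (by exact_mod_cast hbc)

end lift

/-- The matrix of a hermitian form. -/
theorem mx_q {h : (Fin r → ℂ) → (Fin r → ℂ) → ℂ} (hh : IsHermitian h) (v : Fin r → ℂ) :
    q (Matrix.of (mx h)) v = (h (star v) (star v)).re := by
  unfold q
  rw [herm_mx hh (star v) (star v)]
  congr 1
  unfold dotProduct mulVec dotProduct
  refine Finset.sum_congr rfl fun a _ => ?_
  rw [Finset.mul_sum]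
  refine Finset.sum_congr rfl fun b _ => ?_
  simp only [Pi.star_apply, Matrix.of_apply]
  have h1 : star (v b) = (starRingEnd ℂ) (v b) := rfl
  rw [h1, Complex.conj_conj]
  ring

theorem mx_herm {h : (Fin r → ℂ) → (Fin r → ℂ) → ℂ} (hh : IsHermitian h) :
    (Matrix.of (mx h)).IsHermitian := by
  ext a b
  rw [conjTranspose_apply, Matrix.of_apply, Matrix.of_apply, mx, mx]
  exact (hh.symm _ _).symm

theorem mx_eis {h : (Fin r → ℂ) → (Fin r → ℂ) → ℂ}
    (hint : ∀ u w, Lat u → Lat w → IsEis (h u w)) (a b : Fin r) : IsEis (Matrix.of (mx h) a b) :=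
  hint _ _ (lat_single a) (lat_single b)

theorem lat_star {v : ι → ℂ} (hv : Lat v) : Lat (star v) := fun i => (hv i).star

end Pool.Agent.R895
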