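import Pool.Agent.R895.Sig

/-!
# A bound for the order of vanishing of theta functions at the lattice points
-/

set_option autoImplicit false

namespace Pool.Agent.R895

open Complex Filter Topology Asymptotics

theorem isEis_dist {z l : ℂ} (hz : IsEis z) (hl : IsEis l) (h : ‖z - l‖ < 1) : z = l := by
  by_contra hne
  have h1 := (hz.sub hl).one_le_normSq (sub_ne_zero.2 hne)
  rw [normSq_eq_norm_sq] at h1
  nlinarith [norm_nonneg (z - l)]

/-- There are at most lattice points in the exceptional set: removable singularities. -/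
theorem extend_eis (g : ℂ → ℂ) (hg : ∀ z, ¬IsEis z → DifferentiableAt ℂ g z) (C : ℝ)
    (hC : ∀ z, ¬IsEis z → ‖g z‖ ≤ C) :
    ∃ G : ℂ → ℂ, Differentiable ℂ G ∧ (∀ z, ¬IsEis z → G z = g z) ∧ ∀ z, ‖G z‖ ≤ C := by
  classical
  let G : ℂ → ℂ := fun z => if IsEis z then limUnder (𝓝[≠] z) g else g z
  have hGg : ∀ z, ¬IsEis z → G z = g z := fun z hz => by
    show (if IsEis z then limUnder (𝓝[≠] z) g else g z) = g z
    rw [if_neg hz]
  -- near a point the lattice has at most one point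
  have hloc : ∀ l, IsEis l → ∀ z ∈ Metric.ball l 1, z ≠ l → ¬IsEis z := by
    intro l hl z hz hne hz'
    exact hne (isEis_dist hz' hl (by rwa [← dist_eq_norm]))
  have hdiff : Differentiable ℂ G := by
    intro z
    by_cases hz : IsEis z
    · have h1 : DifferentiableOn ℂ (Function.update g z (limUnder (𝓝[≠] z) g)) (Metric.ball z 1) := by
        refine Complex.differentiableOn_update_limUnder_of_bddAbove (Metric.ball_mem_nhds z one_pos)
          ?_ ⟨C, ?_⟩
        · intro w hw
          exact (hg w (hloc z hz w hw.1 hw.2)).differentiableWithinAt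
        · rintro _ ⟨w, hw, rfl⟩
          exact hC w (hloc z hz w hw.1 hw.2)
      have h2 := h1.differentiableAt (Metric.ball_mem_nhds z one_pos)
      refine h2.congr_of_eventuallyEq ?_
      filter_upwards [Metric.ball_mem_nhds z one_pos] with w hw
      by_cases hwz : w = z
      · subst hwz
        rw [Function.update_self]
        show (if IsEis w then limUnder (𝓝[≠] w) g else g w) = _
        rw [if_pos hz]
      · rw [Function.update_of_ne hwz, hGg w (hloc z hz w hw hwz)]
    · -- a lattice point near `z`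
      refine (hg z hz).congr_of_eventuallyEq ?_
      obtain ⟨a, ha, -⟩ := exists_near z
      have hfin : {w : ℂ | IsEis w ∧ normSq w ≤ (‖z‖ + 1) ^ 2}.Finite := finite_eis _
      have hopen : ({w : ℂ | IsEis w ∧ normSq w ≤ (‖z‖ + 1) ^ 2})ᶜ ∈ 𝓝 z :=
        hfin.isClosed.isOpen_compl.mem_nhds fun h => hz h.1
      filter_upwards [hopen, Metric.ball_mem_nhds z one_pos] with w hw hw2
      refine hGg w fun hw3 => hw ⟨hw3, ?_⟩
      rw [normSq_eq_norm_sq]
      rw [Metric.mem_ball, dist_eq_norm] at hw2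
      have h3 : ‖w‖ ≤ ‖z‖ + 1 := by
        have := norm_add_le (w - z) z
        rw [sub_add_cancel] at this
        linarith
      exact pow_le_pow_left₀ (norm_nonneg _) h3 2
  refine ⟨G, hdiff, hGg, fun z => ?_⟩
  by_cases hz : IsEis z
  · have h1 : Tendsto (fun w => ‖G w‖) (𝓝[≠] z) (𝓝 ‖G z‖) :=
      ((hdiff z).continuousAt.norm.tendsto).mono_left nhdsWithin_le_nhds
    refine le_of_tendsto h1 ?_
    have h2 : Metric.ball z 1 ∈ 𝓝[≠] z := nhdsWithin_le_nhds (Metric.ball_mem_nhds z one_pos)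
    filter_upwards [h2, self_mem_nhdsWithin] with w hw hw2
    have h3 := hloc z hz w hw hw2
    rw [hGg w h3]
    exact hC w h3
  · rw [hGg z hz]
    exact hC z hz

/-- `sig` is comparable with `z` near `0`. -/
theorem sig_lower : ∃ c : ℝ, 0 < c ∧ ∀ᶠ z in 𝓝 (0 : ℂ), c * ‖z‖ ≤ ‖sig z‖ := by
  obtain ⟨c, hc, hd⟩ := sig_deriv
  have h1 := hd.isLittleO
  rw [sig_zero] at h1
  have hc' : 0 < ‖c‖ / 2 := by have := norm_pos_iff.2 hc; positivity
  refine ⟨‖c‖ / 2, hc', ?_⟩
  filter_upwards [h1.def hc'] with z hz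
  rw [sub_zero, sub_zero, smul_eq_mul] at hz
  have h2 : ‖z * c‖ ≤ ‖sig z‖ + ‖sig z - z * c‖ := by
    have := norm_sub_le (sig z) (sig z - z * c)
    rwa [sub_sub_cancel] at this
  rw [norm_mul] at h2
  nlinarith

theorem not_eis_half (n : ℕ) : ¬IsEis ((n : ℂ) + 1 / 2) := by
  intro h
  obtain ⟨m, hm⟩ := h.real (by simp)
  have h1 : ((n : ℝ) + 1 / 2) = m := by
    have := congrArg Complex.re hm
    simpa using this
  have h2 : (2 * (n : ℝ) + 1) = 2 * m := by linarith
  have h3 : (2 * (n : ℤ) + 1) = 2 * m := by exact_mod_cast h2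
  omega

theorem liou (f F : ℂ → ℂ) (hf : Differentiable ℂ f) (hF : Differentiable ℂ F) (A : ℝ) (K : ℕ)
    (hper : ∀ l, IsEis l → ∀ z,
      ‖f (z + l)‖ ^ 2 * Real.exp (-(Real.pi * A * normSq (z + l)) - 2 * (F (z + l)).re) =
        ‖f z‖ ^ 2 * Real.exp (-(Real.pi * A * normSq z) - 2 * (F z).re))
    (hord : f =O[𝓝 0] fun z => ‖z‖ ^ K) (hA : A < kap * K) : ∀ z, f z = 0 := by
  classical
  set u : ℂ → ℝ := fun z => ‖f z‖ ^ 2 * Real.exp (-(Real.pi * A * normSq z) - 2 * (F z).re) with hu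
  set w : ℂ → ℝ := fun z => ‖sig z‖ ^ 2 * Real.exp (-(Real.pi * kap * normSq z)) with hw
  have hucont : Continuous u := by
    have h1 := hf.continuous
    have h2 := hF.continuous
    have h3 : Continuous fun z : ℂ => normSq z := continuous_normSq
    have h4 : Continuous fun z : ℂ => (F z).re := continuous_re.comp h2
    simp only [hu]
    fun_prop
  have hwcont : Continuous w := by
    have h1 := sig_entire.continuous
    have h3 : Continuous fun z : ℂ => normSq z := continuous_normSq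
    simp only [hw]
    fun_prop
  have hwpos : ∀ z, ¬IsEis z → 0 < w z := by
    intro z hz
    have := norm_pos_iff.2 (sig_ne hz)
    simp only [hw]
    positivity
  -- the bound on the fundamental disc
  obtain ⟨C0, hC0⟩ : ∃ C0 : ℝ, ∀ᶠ z in 𝓝 (0 : ℂ), u z ≤ C0 * w z ^ K := by
    obtain ⟨c, hc, hlow⟩ := sig_lower
    obtain ⟨c1, hc1⟩ := hord.bound
    -- exponential factors near `0`
    set e1 : ℂ → ℝ := fun z => Real.exp (-(Real.pi * A * normSq z) - 2 * (F z).re) with he1
    set e2 : ℂ → ℝ := fun z => Real.exp (-(Real.pi * kap * normSq z)) with he2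
    have he1c : Continuous e1 := by
      have h2 := hF.continuous
      have h3 : Continuous fun z : ℂ => normSq z := continuous_normSq
      have h4 : Continuous fun z : ℂ => (F z).re := continuous_re.comp h2
      simp only [he1]
      fun_prop
    have he2c : Continuous e2 := by
      have h3 : Continuous fun z : ℂ => normSq z := continuous_normSq
      simp only [he2]
      fun_prop
    have h1 : ∀ᶠ z in 𝓝 (0 : ℂ), e1 z < e1 0 + 1 :=
      he1c.continuousAt.eventually_lt continuousAt_const (by linarith)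
    have h2 : ∀ᶠ z in 𝓝 (0 : ℂ), 1 / 2 < e2 z := by
      refine continuousAt_const.eventually_lt he2c.continuousAt ?_
      simp only [he2]
      simp
      norm_num
    refine ⟨c1 ^ 2 * (e1 0 + 1) / ((c ^ 2 * (1 / 2)) ^ K), ?_⟩
    filter_upwards [hlow, hc1, h1, h2] with z hz1 hz2 hz3 hz4
    have a1 : ‖f z‖ ^ 2 ≤ c1 ^ 2 * (‖z‖ ^ 2) ^ K := by
      rw [Real.norm_of_nonneg (by positivity)] at hz2
      calc ‖f z‖ ^ 2 ≤ (c1 * ‖z‖ ^ K) ^ 2 := pow_le_pow_left₀ (norm_nonneg _) hz2 2
        _ = c1 ^ 2 * (‖z‖ ^ 2) ^ K := by rw [mul_pow, ← pow_mul, ← pow_mul, mul_comm K 2]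
    have a2 : c ^ 2 * (1 / 2) * ‖z‖ ^ 2 ≤ w z := by
      have b1 : c ^ 2 * ‖z‖ ^ 2 ≤ ‖sig z‖ ^ 2 := by
        rw [← mul_pow]
        exact pow_le_pow_left₀ (by positivity) hz1 2
      have b2 : c ^ 2 * ‖z‖ ^ 2 * (1 / 2) ≤ ‖sig z‖ ^ 2 * e2 z :=
        mul_le_mul b1 hz4.le (by norm_num) (by positivity)
      simp only [hw]
      calc c ^ 2 * (1 / 2) * ‖z‖ ^ 2 = c ^ 2 * ‖z‖ ^ 2 * (1 / 2) := by ring
        _ ≤ _ := b2
    have a3 : (c ^ 2 * (1 / 2)) ^ K * (‖z‖ ^ 2) ^ K ≤ w z ^ K := by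
      rw [← mul_pow]
      exact pow_le_pow_left₀ (by positivity) a2 K
    have a4 : u z ≤ c1 ^ 2 * (‖z‖ ^ 2) ^ K * (e1 0 + 1) := by
      simp only [hu]
      refine mul_le_mul a1 hz3.le (Real.exp_pos _).le (by positivity)
    have a5 : 0 < (c ^ 2 * (1 / 2)) ^ K := by positivity
    have a6 : 0 ≤ e1 0 := (Real.exp_pos _).le
    calc u z ≤ c1 ^ 2 * (‖z‖ ^ 2) ^ K * (e1 0 + 1) := a4
      _ = c1 ^ 2 * (e1 0 + 1) / ((c ^ 2 * (1 / 2)) ^ K) *
          ((c ^ 2 * (1 / 2)) ^ K * (‖z‖ ^ 2) ^ K) := by field_simp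
      _ ≤ _ := mul_le_mul_of_nonneg_left a3 (by positivity)
  obtain ⟨ε, hε, hε2⟩ := Metric.eventually_nhds_iff.1 hC0
  have hcomp : IsCompact ({z : ℂ | normSq z ≤ 1 / 3} \ Metric.ball 0 ε) := by
    refine IsCompact.diff ?_ Metric.isOpen_ball
    refine Metric.isCompact_of_isClosed_isBounded
      (isClosed_le continuous_normSq continuous_const) ?_
    refine (Metric.isBounded_closedBall (x := (0 : ℂ)) (r := 1)).subset ?_
    intro z hz
    have h1 : normSq z ≤ 1 / 3 := hz
    rw [mem_closedBall_zero_iff]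
    rw [normSq_eq_norm_sq] at h1
    nlinarith [norm_nonneg z]
  have hDeis : ∀ z ∈ ({z : ℂ | normSq z ≤ 1 / 3} \ Metric.ball 0 ε), ¬IsEis z := by
    rintro z ⟨hz1, hz2⟩ hz3
    have hz0 : z ≠ 0 := by
      rintro rfl
      exact hz2 (Metric.mem_ball_self hε)
    have h1 := hz3.one_le_normSq hz0
    have h2 : normSq z ≤ 1 / 3 := hz1
    linarith
  obtain ⟨C1, hC1⟩ : ∃ C1 : ℝ, ∀ z ∈ ({z : ℂ | normSq z ≤ 1 / 3} \ Metric.ball 0 ε),
      u z / w z ^ K ≤ C1 := by
    have hcont : ContinuousOn (fun z => u z / w z ^ K)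
        ({z : ℂ | normSq z ≤ 1 / 3} \ Metric.ball 0 ε) := by
      refine hucont.continuousOn.div (hwcont.pow K).continuousOn fun z hz => ?_
      exact pow_ne_zero _ (hwpos z (hDeis z hz)).ne'
    obtain ⟨C1, hC1⟩ := (hcomp.image_of_continuousOn hcont).bddAbove
    exact ⟨C1, fun z hz => hC1 ⟨z, hz, rfl⟩⟩
  set C := max C0 C1 with hC
  have hbound : ∀ z, ¬IsEis z → u z ≤ C * w z ^ K := by
    intro z hz
    obtain ⟨a, ha, hza⟩ := exists_near z
    have hu' : u (z - a) = u z := by
      have := hper a ha (z - a)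
      rw [sub_add_cancel] at this
      exact this.symm
    have hw' : w (z - a) = w z := by
      have := sig_norm ha (z - a)
      rw [sub_add_cancel] at this
      exact this.symm
    have hza2 : ¬IsEis (z - a) := by
      intro h
      apply hz
      have := h.add ha
      rwa [sub_add_cancel] at this
    rw [← hu', ← hw']
    have hwK : 0 < w (z - a) ^ K := pow_pos (hwpos _ hza2) K
    by_cases hball : z - a ∈ Metric.ball (0 : ℂ) ε
    · refine (hε2 hball).trans ?_
      exact mul_le_mul_of_nonneg_right (le_max_left _ _) hwK.le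
    · have h1 := hC1 (z - a) ⟨hza, hball⟩
      rw [div_le_iff₀ hwK] at h1
      exact h1.trans (mul_le_mul_of_nonneg_right (le_max_right _ _) hwK.le)
  -- the quotient
  set g : ℂ → ℂ := fun z => f z * exp (-F z) / sig z ^ K with hg
  have hδ : 0 < kap * K - A := by linarith
  have hgn : ∀ z, ¬IsEis z → ‖g z‖ ^ 2 ≤ C * Real.exp (-(Real.pi * (kap * K - A) * normSq z)) := by
    intro z hz
    have h1 := hbound z hz
    have hs : 0 < ‖sig z‖ := norm_pos_iff.2 (sig_ne hz)
    have h2 : ‖g z‖ ^ 2 = ‖f z‖ ^ 2 * Real.exp (-(2 * (F z).re)) / (‖sig z‖ ^ 2) ^ K := by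
      simp only [hg]
      rw [norm_div, norm_mul, norm_pow, norm_exp, div_pow, mul_pow, ← Real.exp_nat_mul,
        ← pow_mul, ← pow_mul, mul_comm K 2]
      congr 3
      simp
    rw [h2, div_le_iff₀ (by positivity)]
    simp only [hu, hw] at h1
    rw [mul_pow, ← Real.exp_nat_mul] at h1
    have e1 : Real.exp (-(Real.pi * A * normSq z) - 2 * (F z).re) =
        Real.exp (-(2 * (F z).re)) * Real.exp (-(Real.pi * A * normSq z)) := by
      rw [← Real.exp_add]; congr 1; ring
    have e2 : Real.exp ((K : ℝ) * -(Real.pi * kap * normSq z)) =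
        Real.exp (-(Real.pi * (kap * K - A) * normSq z)) * Real.exp (-(Real.pi * A * normSq z)) := by
      rw [← Real.exp_add]; congr 1; ring
    rw [e1, e2] at h1
    have e3 := Real.exp_pos (-(Real.pi * A * normSq z))
    have h3 : ‖f z‖ ^ 2 * Real.exp (-(2 * (F z).re)) * Real.exp (-(Real.pi * A * normSq z)) ≤
        C * Real.exp (-(Real.pi * (kap * K - A) * normSq z)) * (‖sig z‖ ^ 2) ^ K *
          Real.exp (-(Real.pi * A * normSq z)) := by
      calc _ = ‖f z‖ ^ 2 * (Real.exp (-(2 * (F z).re)) * Real.exp (-(Real.pi * A * normSq z))) := by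
            ring
        _ ≤ _ := h1
        _ = _ := by ring
    exact le_of_mul_le_mul_right h3 e3
  have hC0' : 0 ≤ C := by
    have h1 := hgn _ (not_eis_half 0)
    have h2 : 0 ≤ C * Real.exp (-(Real.pi * (kap * K - A) * normSq (((0 : ℕ) : ℂ) + 1 / 2))) :=
      le_trans (by positivity) h1
    exact nonneg_of_mul_nonneg_left h2 (Real.exp_pos _)
  have hgb : ∀ z, ¬IsEis z → ‖g z‖ ≤ √C := by
    intro z hz
    apply Real.le_sqrt_of_sq_le
    refine (hgn z hz).trans ?_
    have h1 : Real.exp (-(Real.pi * (kap * K - A) * normSq z)) ≤ 1 := by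
      rw [Real.exp_le_one_iff]
      have := mul_nonneg (mul_nonneg Real.pi_pos.le hδ.le) (normSq_nonneg z)
      linarith
    calc C * Real.exp (-(Real.pi * (kap * K - A) * normSq z)) ≤ C * 1 :=
          mul_le_mul_of_nonneg_left h1 hC0'
      _ = C := mul_one C
  have hgd : ∀ z, ¬IsEis z → DifferentiableAt ℂ g z := by
    intro z hz
    simp only [hg]
    exact ((hf z).mul (hF z).neg.cexp).div ((sig_entire z).pow K) (pow_ne_zero _ (sig_ne hz))
  obtain ⟨G, hGd, hGg, hGb⟩ := extend_eis g hgd _ hgb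
  have hconst : ∀ z w, G z = G w := by
    intro z w
    apply hGd.apply_eq_apply_of_bounded
    rw [isBounded_iff_forall_norm_le]
    exact ⟨√C, by rintro _ ⟨z, rfl⟩; exact hGb z⟩
  have hG0 : G 0 = 0 := by
    have h1 : ∀ n : ℕ, ‖G 0‖ ^ 2 ≤
        C * Real.exp (-(Real.pi * (kap * K - A) * normSq ((n : ℂ) + 1 / 2))) := by
      intro n
      rw [hconst 0 ((n : ℂ) + 1 / 2), hGg _ (not_eis_half n)]
      exact hgn _ (not_eis_half n)
    have h2 : Tendsto (fun n : ℕ =>
        C * Real.exp (-(Real.pi * (kap * K - A) * normSq ((n : ℂ) + 1 / 2)))) atTop (𝓝 (C * 0)) := by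
      refine Tendsto.const_mul C ?_
      refine Real.tendsto_exp_atBot.comp ?_
      have h3 : ∀ n : ℕ, -(Real.pi * (kap * K - A) * normSq ((n : ℂ) + 1 / 2)) ≤
          -(Real.pi * (kap * K - A)) * n := by
        intro n
        have h4 : (n : ℝ) ≤ normSq ((n : ℂ) + 1 / 2) := by
          have : (n : ℂ) + 1 / 2 = (((n : ℝ) + 1 / 2 : ℝ) : ℂ) := by push_cast; ring
          rw [this, normSq_ofReal]
          nlinarith [sq_nonneg ((n : ℝ))]
        have h5 := mul_pos Real.pi_pos hδ
        nlinarith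
      refine tendsto_atBot_mono h3 ?_
      refine Tendsto.const_mul_atTop_of_neg ?_ tendsto_natCast_atTop_atTop
      have := mul_pos Real.pi_pos hδ
      linarith
    rw [mul_zero] at h2
    have h3 : ‖G 0‖ ^ 2 ≤ 0 := ge_of_tendsto' h2 h1
    have h4 : ‖G 0‖ = 0 := by nlinarith [norm_nonneg (G 0)]
    exact norm_eq_zero.1 h4
  have hf0 : ∀ z, ¬IsEis z → f z = 0 := by
    intro z hz
    have h1 : g z = 0 := by rw [← hGg z hz, hconst z 0, hG0]
    simp only [hg] at h1
    rcases div_eq_zero_iff.1 h1 with h2 | h2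
    · rcases mul_eq_zero.1 h2 with h3 | h3
      · exact h3
      · exact absurd h3 (exp_ne_zero _)
    · exact absurd h2 (pow_ne_zero _ (sig_ne hz))
  intro z
  by_cases hz : IsEis z
  · have h1 : Tendsto f (𝓝[≠] z) (𝓝 (f z)) :=
      (hf z).continuousAt.tendsto.mono_left nhdsWithin_le_nhds
    have h2 : Tendsto f (𝓝[≠] z) (𝓝 0) := by
      refine tendsto_const_nhds.congr' ?_
      have h2 : Metric.ball z 1 ∈ 𝓝[≠] z := nhdsWithin_le_nhds (Metric.ball_mem_nhds z one_pos)
      filter_upwards [h2, self_mem_nhdsWithin] with v hv hv2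
      refine (hf0 v fun hv3 => hv2 (isEis_dist hv3 hz ?_)).symm
      rwa [← dist_eq_norm]
    exact tendsto_nhds_unique h1 h2
  · exact hf0 z hz

end Pool.Agent.R895
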