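import Pool.Agent.R895.NefC

/-!
# The cone conjecture for blow-ups of torus quotients: general form
-/

set_option autoImplicit false

namespace Pool.Agent.R895

open Matrix hiding IsHermitian
open Filter Topology
open Pool.Agent.Y167 (CData cone AffGrp Pol Cp cone_ind cone_add cone_smul cone_sum cone_le
  mem_cone_self mem_cone_of_sum zero_mem_cone cone_cut cone_image cone_mono)
open Pool.Agent.Y167.CC (LinGrp Preserves IsFundDomain)

variable {ι : Type*} [Fintype ι] {r m : ℕ} {ρ : Fin r → ι}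
  {j : (Fin r → ℂ) →ₗ[ℂ] (ι → ℂ)}

theorem cone_of_scaled {W : Type*} [AddCommGroup W] [Module ℝ W] {a : W} {S : Finset W} {k : ℝ}
    (hk : 0 < k) (h : k • a ∈ S) : a ∈ cone S := by
  have h1 := cone_smul (mem_cone_self h) (inv_nonneg.2 hk.le)
  rwa [smul_smul, inv_mul_cancel₀ hk.ne', one_smul] at h1

/-- The group generated by the integral classes is preserved. -/
theorem closure_map {g : N1 (kum ι m) j ≃ₗ[ℝ] N1 (kum ι m) j}
    (hg : ∀ x ∈ integral (kum ι m) j, g x ∈ integral (kum ι m) j) {x : N1 (kum ι m) j}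
    (hx : x ∈ AddSubgroup.closure (integral (kum ι m) j)) :
    g x ∈ AddSubgroup.closure (integral (kum ι m) j) := by
  have h1 : AddSubgroup.closure (integral (kum ι m) j) ≤
      (AddSubgroup.closure (integral (kum ι m) j)).comap
        (g : N1 (kum ι m) j ≃+ N1 (kum ι m) j).toAddMonoidHom := by
    rw [AddSubgroup.closure_le]
    intro x hx
    exact AddSubgroup.subset_closure (hg x hx)
  exact h1 hx

/-- **The cone conjecture**, general form. -/
theorem core [Nonempty ι] (hj : IsExt ρ j) (hρ : Function.Injective ρ) (hr0 : 2 ≤ r)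
    (hr : r ≤ 4) (𝒢 : LinGrp (N1 (kum ι m) j)) (h1 : Preserves 𝒢 (integral (kum ι m) j))
    (h2 : Preserves 𝒢 (nefCone (kum ι m) j ∩ effCone (kum ι m) j))
    (h3 : ∀ g u, IsPb g u → g ∈ 𝒢) :
    ∃ S : Finset (N1 (kum ι m) j), ↑S ⊆ integral (kum ι m) j ∧
      cone S ⊆ nefCone (kum ι m) j ∩ effCone (kum ι m) j ∧
      IsFundDomain 𝒢 (nefCone (kum ι m) j ∩ effCone (kum ι m) j) (cone S) := by
  classical
  have hr' : 0 < r := by omega
  obtain ⟨y₀, hy0, hy1, hy2⟩ := exists_y₀ m hj hρ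
  obtain ⟨Y, D⟩ := exists_cdata hj hr' hy0 hy1 hy2
  obtain ⟨F₁, hF₁, hcov⟩ := covering m hj hρ
  have h𝒢L : ∀ g ∈ 𝒢, ∀ x ∈ AddSubgroup.closure (integral (kum ι m) j),
      g x ∈ AddSubgroup.closure (integral (kum ι m) j) := fun g hg x hx =>
    closure_map (h1 g hg) hx
  have hpd : ∀ (t : ℝ) (x : N1 (kum ι m) j), 0 < t → x - t • y₀ ∈ Nf m j →
      x ∈ Nf m j ∧ ∃ t : ℝ, 0 < t ∧ ∀ v, t * (std v v).re ≤ (frm x v v).re := by
    intro t x ht hx
    have h4 : x = (x - t • y₀) + t • y₀ := by abel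
    refine ⟨?_, t * 12, by positivity, fun v => ?_⟩
    · rw [h4]
      exact Nf_add hx (Nf_smul ht.le D.y_N)
    · rw [h4, frm_add, Complex.add_re, frm_smul, Complex.re_ofReal_mul, hy1, re_twelve]
      have := hx.1 v
      linarith
  have hadd : ∀ x ∈ Nf m j, ∀ t : ℝ, 0 < t →
      x + t • y₀ ∈ nefCone (kum ι m) j ∩ effCone (kum ι m) j := by
    intro x hx t ht
    obtain ⟨k1, k2⟩ := hpd t (x + t • y₀) ht (by rwa [add_sub_cancel_right])
    exact Cp_le hj hρ hr0 hr (Cp_of_pd hj hρ k1 k2)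
  have h𝒢N : ∀ g ∈ 𝒢, ∀ x ∈ Nf m j, g x ∈ Nf m j := by
    intro g hg x hx
    refine mem_closed (y := g y₀) isClosed_Nf fun n => ?_
    have h4 := h2 g hg _ (hadd x hx (1 / ((n : ℝ) + 1)) (by positivity))
    rw [map_add, map_smul] at h4
    exact nefCone_le hj hρ h4.1
  obtain ⟨S, hS1, hS2, hS3⟩ := D.domain 𝒢 h𝒢L h𝒢N F₁ hF₁ (by
    rintro x ⟨t, ht, hx⟩
    obtain ⟨k1, k2⟩ := hpd t x ht hx
    obtain ⟨g, u, hg, hgx⟩ := hcov x k1 k2
    exact ⟨g, h3 g u hg, hgx⟩)
  have hcone : ∀ x, x ∈ cone (S.image fun a => (6 : ℝ) • a) ↔ x ∈ cone S := by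
    intro x
    constructor
    · refine fun h => cone_le (fun a ha => ?_) h
      obtain ⟨a', ha', rfl⟩ := Finset.mem_image.1 ha
      exact cone_smul (mem_cone_self ha') (by norm_num)
    · refine fun h => cone_le (fun a ha => ?_) h
      exact cone_of_scaled (k := 6) (by norm_num)
        (Finset.mem_image_of_mem (fun a => (6 : ℝ) • a) ha)
  have hcone' : cone (S.image fun a => (6 : ℝ) • a) = cone S := Set.ext hcone
  refine ⟨S.image fun a => (6 : ℝ) • a, ?_, ?_, ?_, ?_⟩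
  · intro a ha
    obtain ⟨a', ha', rfl⟩ := Finset.mem_image.1 ha
    exact six_int hj hρ (hS1 a' ha').1 (hS1 a' ha').2
  · rw [hcone']
    intro x hx
    exact Cp_le hj hρ hr0 hr ⟨S, hS1, hx⟩
  · ext x
    rw [← mem_Cp_iff hj hρ hr0 hr, hS2, hcone', Set.mem_iUnion₂]
    constructor
    · rintro ⟨g, hg, hgx⟩
      exact ⟨g⁻¹, 𝒢.inv_mem hg, g x, hgx, g.symm_apply_apply x⟩
    · rintro ⟨g, hg, y, hy, rfl⟩
      refine ⟨g⁻¹, 𝒢.inv_mem hg, ?_⟩
      have : (g⁻¹ : N1 (kum ι m) j ≃ₗ[ℝ] N1 (kum ι m) j) (g y) = y := g.symm_apply_apply y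
      rwa [this]
  · intro g hg hg1
    rw [hcone', Set.eq_empty_iff_forall_notMem]
    obtain ⟨φ, hφ0, hφ1, hφ2⟩ := hS3 g hg hg1
    rintro x ⟨hx, y, hy, rfl⟩
    have h4 := hφ2 y hy
    obtain ⟨w, hw⟩ : ∃ w, 0 < φ w := by
      by_contra hcon
      push Not at hcon
      apply hφ0
      ext w
      have e1 := hcon w
      have e2 := hcon (-w)
      rw [map_neg] at e2
      show φ w = 0
      linarith
    have hcont : Continuous fun t : ℝ => g y - t • w := by fun_prop
    have hmem : ∀ᶠ t : ℝ in 𝓝 0, g y - t • w ∈ interior (cone S) := by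
      apply hcont.continuousAt.eventually_mem
      rw [zero_smul, sub_zero]
      exact isOpen_interior.mem_nhds hx
    obtain ⟨ε, hε, hball⟩ := Metric.eventually_nhds_iff.1 hmem
    have h5 := interior_subset (hball (y := ε / 2) (by
      rw [Real.dist_eq, sub_zero, abs_of_pos (by linarith)]
      linarith))
    have h6 := hφ1 _ h5
    rw [map_sub, map_smul, smul_eq_mul] at h6
    have h7 : 0 < ε / 2 * φ w := by positivity
    linarith

end Pool.Agent.R895
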