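import Pool.Agent.Y167.CCMain

/-!
# Movable cones of quotients of complex tori
-/

set_option autoImplicit false

namespace Pool.Agent.R895.TMov

open Pool.Agent.W594.SYZ2 Pool.Agent.TH735.AQ
open Pool.Agent.Y167 (AffGrp EffDiv NumTrivial Normalizes IsClass cone Rel cone_ind)
open Pool.Agent.Y167.CC

variable {V E : Type*} [NormedAddCommGroup V] [NormedSpace ℂ V]
  [NormedAddCommGroup E] [NormedSpace ℂ E] {Γ : AffGrp V} {j : E →ₗ[ℂ] V}

/-- The linear system `|L|` has no fixed component, that is, its base locus has codimension at least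
`2`: an entire function which divides all sections of `L` has no zeros. -/
def IsMovable (L : LineBundle Γ) : Prop :=
  ∀ τ : V → ℂ, Differentiable ℂ τ →
    (∀ s, L.IsSection s → ∃ q : V → ℂ, Differentiable ℂ q ∧ ∀ v, s v = τ v * q v) → ∀ v, τ v ≠ 0

/-- The classes of movable line bundles. -/
def movable (Γ : AffGrp V) (j : E →ₗ[ℂ] V) : Set (N1 Γ j) :=
  {x | ∃ L : LineBundle Γ, IsClass j L (form x) ∧ IsMovable L}

/-- The closed movable cone: the closure of the convex cone spanned by the classes of movable line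
bundles. -/
def movCone (Γ : AffGrp V) (j : E →ₗ[ℂ] V) : Set (N1 Γ j) :=
  closure {x | ∃ S : Finset (N1 Γ j), ↑S ⊆ movable Γ j ∧ x ∈ cone S}

/-- A line bundle which is generated by its sections is movable. -/
theorem isMovable_of_bpf {L : LineBundle Γ} (h : ∀ v, ∃ s, L.IsSection s ∧ s v ≠ 0) :
    IsMovable L := by
  intro τ _ hτ v h0
  obtain ⟨s, hs, hsv⟩ := h v
  obtain ⟨q, -, hq⟩ := hτ s hs
  exact hsv (by rw [hq, h0, zero_mul])

theorem movable_sub : movable Γ j ⊆ effective Γ j := by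
  rintro x ⟨L, hL, hm⟩
  by_contra hcon
  refine hm (fun _ => 0) (differentiable_const 0) (fun s hs => ?_) 0 rfl
  refine ⟨fun _ => 0, differentiable_const 0, fun v => ?_⟩
  by_contra hv
  exact hcon ⟨L, s, hL, hs, v, fun h => hv (by rw [h, mul_zero])⟩

theorem isClosed_nef : IsClosed (nefCone Γ j) := by
  have h1 : nefCone Γ j = ⋂ u : E, {x : N1 Γ j | 0 ≤ (form x u u).re} := by
    ext x
    simp only [nefCone, Set.mem_iInter, Set.mem_ofPred_eq]
  rw [h1]
  refine isClosed_iInter fun u => isClosed_le continuous_const ?_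
  exact Complex.continuous_re.comp
    ((continuous_apply u).comp ((continuous_apply u).comp continuous_subtype_val))

/-- On a quotient of a complex torus the movable effective classes are the nef effective classes. -/
theorem movEff_eq [FiniteDimensional ℂ V] [FiniteDimensional ℂ E] {H₀ : V → V → ℂ}
    (R : Rel Γ j H₀) :
    movCone Γ j ∩ effCone Γ j = nefCone Γ j ∩ effCone Γ j := by
  refine Set.Subset.antisymm (fun x hx => ⟨?_, hx.2⟩) fun x hx => ⟨?_, hx.2⟩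
  · refine closure_minimal ?_ isClosed_nef hx.1
    rintro y ⟨S, hS, hy⟩
    exact eff_nef R.tq ⟨S, hS.trans movable_sub, hy⟩
  · exact subset_closure (nefEff_sub_span (P := movable Γ j) R (fun x L hL hs => ⟨L, hL, isMovable_of_bpf hs⟩) hx)

/-- The movable cone conjecture for pairs on torus quotients. -/
theorem mov_pairs [FiniteDimensional ℂ V] [FiniteDimensional ℂ E] {H₀ : V → V → ℂ}
    (R : Rel Γ j H₀) {ι : Type*} [Fintype ι] (Δ : EffDiv Γ ι) (hΔ : NumTrivial Δ j)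
    (𝒢 : LinGrp (N1 Γ j)) (h𝒢M : Preserves 𝒢 (integral Γ j))
    (h𝒢N : Preserves 𝒢 (movCone Γ j ∩ effCone Γ j))
    (h𝒢 : ∀ f : V ≃ᵃ[ℂ] V, Normalizes Γ f → (∀ v, ∃ e, f v = v + j e) →
      (∀ v, Δ.mul (f v) = Δ.mul v) → ∀ g : N1 Γ j ≃ₗ[ℝ] N1 Γ j, IsPullback f g → g ∈ 𝒢) :
    ∃ S : Finset (N1 Γ j), ↑S ⊆ integral Γ j ∧ cone S ⊆ movCone Γ j ∩ effCone Γ j ∧
      IsFundDomain 𝒢 (movCone Γ j ∩ effCone Γ j) (cone S) := by
  rw [movEff_eq R] at h𝒢N ⊢
  exact core_int R Δ hΔ 𝒢 h𝒢M h𝒢N h𝒢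

/-- The movable cone conjecture for torus quotients. -/
theorem mov_all [FiniteDimensional ℂ V] [FiniteDimensional ℂ E] {H₀ : V → V → ℂ}
    (R : Rel Γ j H₀) (𝒢 : LinGrp (N1 Γ j)) (h𝒢M : Preserves 𝒢 (integral Γ j))
    (h𝒢N : Preserves 𝒢 (movCone Γ j ∩ effCone Γ j))
    (h𝒢 : ∀ f : V ≃ᵃ[ℂ] V, Normalizes Γ f → (∀ v, ∃ e, f v = v + j e) →
      ∀ g : N1 Γ j ≃ₗ[ℝ] N1 Γ j, IsPullback f g → g ∈ 𝒢) :
    ∃ S : Finset (N1 Γ j), ↑S ⊆ integral Γ j ∧ cone S ⊆ movCone Γ j ∩ effCone Γ j ∧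
      IsFundDomain 𝒢 (movCone Γ j ∩ effCone Γ j) (cone S) := by
  rw [movEff_eq R] at h𝒢N ⊢
  obtain ⟨S, h1, h2, h3, h4⟩ := Pool.Agent.Y167.core₀ R (Pool.Agent.Y167.intL Γ j) one_pos
    (fun x hx => by rw [Nat.cast_one, one_smul]; exact hx)
    (fun x hx => by rw [Nat.cast_one, one_smul]; exact hx) 𝒢 h𝒢M h𝒢N
    (fun m u _ f hf hf2 g hg => h𝒢 f hf (fun v => by
      obtain ⟨e, he⟩ := hf2 v
      exact ⟨_, he⟩) g hg)
  refine ⟨S, h1, h2, ?_, fun g hg hg1 => Set.disjoint_iff_inter_eq_empty.1 (h4 g hg hg1)⟩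
  refine Set.ext fun x => (h3 x).trans ?_
  simp only [Set.mem_iUnion, Set.mem_image, exists_prop]
  rfl

end Pool.Agent.R895.TMov
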