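import Pool.Agent.R895.Core

/-!
# The nef cone and the effective cone
-/

set_option autoImplicit false

namespace Pool.Agent.R895

open Matrix hiding IsHermitian
open Filter Topology
open Pool.Agent.W594.SYZ2 (IsHermitian)
open Pool.Agent.W594.SYZ2.TQ (h_add_right h_smul_right h_zero_left h_zero_right)
open Pool.Agent.Y167 (CData cone AffGrp Pol Cp cone_ind cone_add cone_smul cone_sum cone_le
  mem_cone_self mem_cone_of_sum zero_mem_cone cone_cut cone_image cone_mono)
open Pool.Agent.Y167.CC (LinGrp Preserves IsFundDomain)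

section top

variable {V E : Type*} [NormedAddCommGroup V] [NormedSpace ℂ V]
  [NormedAddCommGroup E] [NormedSpace ℂ E] {Γ : AffGrp V} {j : E →ₗ[ℂ] V}

instance : IsTopologicalAddGroup (N1 Γ j) :=
  inferInstanceAs (IsTopologicalAddGroup (N1s Γ j))

instance : ContinuousSMul ℝ (N1 Γ j) :=
  inferInstanceAs (ContinuousSMul ℝ (N1s Γ j))

theorem continuous_form (u w : E) : Continuous fun x : N1 Γ j => form x u w :=
  (continuous_apply w).comp ((continuous_apply u).comp (continuous_fst.comp continuous_subtype_val))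

theorem continuous_coef : Continuous fun x : N1 Γ j => coef x :=
  continuous_snd.comp continuous_subtype_val

theorem span_add {A : Set (N1 Γ j)} {x y : N1 Γ j} (hx : x ∈ span A) (hy : y ∈ span A) :
    x + y ∈ span A := by
  classical
  obtain ⟨S, hS, hx⟩ := hx
  obtain ⟨T, hT, hy⟩ := hy
  refine ⟨S ∪ T, ?_, cone_add (cone_mono Finset.subset_union_left hx)
    (cone_mono Finset.subset_union_right hy)⟩
  rw [Finset.coe_union]
  exact Set.union_subset hS hT

theorem span_smul {A : Set (N1 Γ j)} {x : N1 Γ j} (hx : x ∈ span A) {t : ℝ} (ht : 0 ≤ t) :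
    t • x ∈ span A := by
  obtain ⟨S, hS, hx⟩ := hx
  exact ⟨S, hS, cone_smul hx ht⟩

theorem span_zero {A : Set (N1 Γ j)} : (0 : N1 Γ j) ∈ span A :=
  ⟨∅, by simp, zero_mem_cone _⟩

theorem span_self {A : Set (N1 Γ j)} {x : N1 Γ j} (hx : x ∈ A) : x ∈ span A :=
  ⟨{x}, by simpa using hx, mem_cone_self (Finset.mem_singleton_self x)⟩

theorem nef_add {x y : N1 Γ j} (hx : x ∈ nefCone Γ j) (hy : y ∈ nefCone Γ j) :
    x + y ∈ nefCone Γ j :=
  map_mem_closure₂ continuous_add hx hy fun _ ha _ hb => span_add ha hb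

theorem nef_smul {x : N1 Γ j} (hx : x ∈ nefCone Γ j) {t : ℝ} (ht : 0 ≤ t) :
    t • x ∈ nefCone Γ j :=
  map_mem_closure (continuous_const_smul t) hx fun _ ha => span_smul ha ht

theorem nef_zero : (0 : N1 Γ j) ∈ nefCone Γ j := subset_closure span_zero

theorem cone_nef {S : Finset (N1 Γ j)} (hS : ∀ a ∈ S, a ∈ nefCone Γ j) {x : N1 Γ j}
    (hx : x ∈ cone S) : x ∈ nefCone Γ j :=
  cone_ind (p := fun x => x ∈ nefCone Γ j) nef_zero (fun _ _ h1 h2 => nef_add h1 h2)
    (fun _ _ ht h => nef_smul h ht) hS hx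

theorem cone_span {S : Finset (N1 Γ j)} {A : Set (N1 Γ j)} (hS : ∀ a ∈ S, a ∈ span A) {x : N1 Γ j}
    (hx : x ∈ cone S) : x ∈ span A :=
  cone_ind (p := fun x => x ∈ span A) span_zero (fun _ _ h1 h2 => span_add h1 h2)
    (fun _ _ ht h => span_smul h ht) hS hx

/-- A limit along a ray. -/
theorem mem_closed {A : Set (N1 Γ j)} (hA : IsClosed A) {x y : N1 Γ j}
    (h : ∀ n : ℕ, x + (1 / ((n : ℝ) + 1)) • y ∈ A) : x ∈ A := by
  have h1 : Tendsto (fun n : ℕ => x + (1 / ((n : ℝ) + 1)) • y) atTop (𝓝 (x + (0 : ℝ) • y)) :=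
    (tendsto_one_div_add_atTop_nhds_zero_nat.smul_const y).const_add x
  rw [zero_smul, add_zero] at h1
  exact hA.mem_of_tendsto h1 (Eventually.of_forall h)

end top

variable {ι : Type*} [Fintype ι] {r m : ℕ} {ρ : Fin r → ι}
  {j : (Fin r → ℂ) →ₗ[ℂ] (ι → ℂ)}

theorem continuous_frm (v : Fin r → ℂ) : Continuous fun x : N1 (kum ι m) j => (frm x v v).re := by
  unfold frm
  exact Complex.continuous_re.comp ((continuous_form v v).div_const _)

theorem isClosed_Nf : IsClosed (Nf m j) := by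
  have h1 : Nf m j = (⋂ v, {x : N1 (kum ι m) j | 0 ≤ (frm x v v).re}) ∩ ({x | 0 ≤ coef x} ∩
      ⋂ v : {v : Fin r → ℂ // Lat v ∧ v ≠ 0}, {x | coef x ≤ (frm x v.1 v.1).re}) := by
    ext x
    simp only [Nf, Set.mem_inter_iff, Set.mem_iInter, Set.mem_ofPred_eq, Subtype.forall, and_imp]
  rw [h1]
  refine IsClosed.inter (isClosed_iInter fun v => ?_) (IsClosed.inter ?_
    (isClosed_iInter fun v => ?_))
  · exact isClosed_le continuous_const (continuous_frm v)
  · exact isClosed_le continuous_const continuous_coef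
  · exact isClosed_le continuous_coef (continuous_frm v.1)

theorem nefCone_le [Nonempty ι] (hj : IsExt ρ j) (hρ : Function.Injective ρ) :
    nefCone (kum ι m) j ⊆ Nf m j := by
  refine closure_minimal ?_ isClosed_Nf
  rintro x ⟨S, hS, hx⟩
  exact cone_ind (p := fun x => x ∈ Nf m j) Nf_zero (fun _ _ h1 h2 => Nf_add h1 h2)
    (fun _ _ ht h => Nf_smul ht h) (fun a ha => semiample_Nf hj hρ (hS ha)) hx

theorem re_twelve (z : ℂ) : (12 * z).re = 12 * z.re := by
  have : (12 : ℂ) = ((12 : ℝ) : ℂ) := by norm_num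
  rw [this, Complex.re_ofReal_mul]

theorem coef_nat {a : N1 (kum ι m) j} (ha : a ∈ Nf m j) {n : ℤ} (hn : coef a = n) :
    ∃ b : ℕ, coef a = b := by
  have h1 := ha.2.1
  rw [hn] at h1
  have h2 : 0 ≤ n := by exact_mod_cast h1
  obtain ⟨b, rfl⟩ := Int.eq_ofNat_of_zero_le h2
  exact ⟨b, by rw [hn]; simp⟩

/-- An integral class in the cone `Nf` is nef. -/
theorem nef_of_int [Nonempty ι] (hj : IsExt ρ j) (hρ : Function.Injective ρ) (hr : r ≤ 4)
    {a : N1 (kum ι m) j} (ha : a ∈ AddSubgroup.closure (integral (kum ι m) j))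
    (haN : a ∈ Nf m j) : a ∈ nefCone (kum ι m) j := by
  obtain ⟨y₀, -, hy1, hy2⟩ := exists_y₀ m hj hρ
  obtain ⟨D, n, hn⟩ := eis_of_mem hj ha
  obtain ⟨b, hb⟩ := coef_nat haN hn
  refine mem_closed (y := y₀) isClosed_closure fun k => subset_closure ?_
  set K : ℕ := k + 1 with hK
  have hKr : ((K : ℕ) : ℝ) = (k : ℝ) + 1 := by rw [hK]; push_cast; rfl
  have hK0 : (0 : ℝ) < K := by rw [hKr]; positivity
  have D' : Dat fun u w => (K : ℂ) * frm a u w + ((12 : ℕ) : ℂ) * std u w :=
    (D.natMul K).add (std_dat.natMul 12)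
  have hre : ∀ v, ((K : ℂ) * frm a v v + ((12 : ℕ) : ℂ) * std v v).re =
      K * (frm a v v).re + 12 * (std v v).re := by
    intro v
    rw [Complex.add_re, re_natMul, re_natMul]
    norm_num
  have hsa : (6 : ℝ) • ((K : ℝ) • a + y₀) ∈ semiample (kum ι m) j := by
    refine semiample_cls hj hρ hr D' (K * b + 6) (fun v hv => ?_) (fun v hv hv0 => ?_)
      (fun u w => ?_) ?_
    · rw [hre]
      have h1 := haN.1 v
      have h2 := std_pos hv
      positivity
    · rw [hre]
      have h1 := haN.2.2 v hv hv0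
      rw [hb] at h1
      have h2 := one_le_std hv hv0
      push_cast
      nlinarith
    · rw [frm_smul, frm_add, frm_smul, hy1]
      push_cast
      ring
    · rw [coef_smul, coef_add, coef_smul, hb, hy2]
      push_cast
      ring
  have h1 := span_smul (span_self hsa) (t := 1 / (6 * K)) (by positivity)
  have h2 : (1 / (6 * (K : ℝ))) • (6 : ℝ) • ((K : ℝ) • a + y₀) =
      a + (1 / ((k : ℝ) + 1)) • y₀ := by
    rw [← hKr, smul_smul, smul_add, smul_smul]
    have e1 : 1 / (6 * (K : ℝ)) * 6 * K = 1 := by field_simp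
    have e2 : 1 / (6 * (K : ℝ)) * 6 = 1 / K := by field_simp
    rw [e1, e2, one_smul]
  rwa [h2] at h1

/-- An integral class in the cone `Nf` is effective. -/
theorem eff_of_int [Nonempty ι] (hj : IsExt ρ j) (hρ : Function.Injective ρ) (hr0 : 2 ≤ r)
    (hr : r ≤ 4) {a : N1 (kum ι m) j} (ha : a ∈ AddSubgroup.closure (integral (kum ι m) j))
    (haN : a ∈ Nf m j) : a ∈ effCone (kum ι m) j := by
  obtain ⟨D, n, hn⟩ := eis_of_mem hj ha
  obtain ⟨b, hb⟩ := coef_nat haN hn
  have key : (∀ v, v ≠ 0 → 0 < (frm a v v).re) ∧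
      (∀ v, Lat v → v ≠ 0 → (b : ℝ) ≤ (frm a v v).re) ∨ b = 0 ∧ ∀ v, 0 ≤ (frm a v v).re := by
    by_cases hpd : ∀ v, v ≠ 0 → 0 < (frm a v v).re
    · exact Or.inl ⟨hpd, fun v hv hv0 => by rw [← hb]; exact haN.2.2 v hv hv0⟩
    · push Not at hpd
      obtain ⟨v, hv, hv0⟩ := hpd
      obtain ⟨w, hw, hw0, hww⟩ := exists_ker D haN.1 hv (le_antisymm hv0 (haN.1 v))
      have h1 := haN.2.2 w hw hw0
      rw [hb, hww] at h1
      refine Or.inr ⟨?_, haN.1⟩
      have h2 : b ≤ 0 := by exact_mod_cast h1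
      omega
  obtain ⟨N, hN, heff⟩ := effective_cls (m := m) hj hρ hr0 hr D b key (y := (6 : ℝ) • a)
    (fun u w => by rw [frm_smul]; push_cast; ring) (by rw [coef_smul, hb])
  have hNr : (0 : ℝ) < N := by exact_mod_cast hN
  have h1 := span_smul (span_self heff) (t := 1 / (6 * N)) (by positivity)
  have h2 : (1 / (6 * (N : ℝ))) • (N : ℝ) • (6 : ℝ) • a = a := by
    rw [smul_smul, smul_smul]
    have e1 : 1 / (6 * (N : ℝ)) * N * 6 = 1 := by field_simp
    rw [e1, one_smul]
  rwa [h2] at h1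

/-- The element of a cone of integral classes of `Nf`. -/
theorem Cp_le [Nonempty ι] (hj : IsExt ρ j) (hρ : Function.Injective ρ) (hr0 : 2 ≤ r)
    (hr : r ≤ 4) {x : N1 (kum ι m) j}
    (hx : x ∈ Cp (AddSubgroup.closure (integral (kum ι m) j)) (Nf m j)) :
    x ∈ nefCone (kum ι m) j ∩ effCone (kum ι m) j := by
  obtain ⟨S, hS, hx⟩ := hx
  exact ⟨cone_nef (fun a ha => nef_of_int hj hρ hr (hS a ha).1 (hS a ha).2) hx,
    cone_span (fun a ha => eff_of_int hj hρ hr0 hr (hS a ha).1 (hS a ha).2) hx⟩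

/-- The classes of `Nf` with a positive definite form are spanned by integral classes of `Nf`. -/
theorem Cp_of_pd [Nonempty ι] (hj : IsExt ρ j) (hρ : Function.Injective ρ)
    {x : N1 (kum ι m) j} (hx : x ∈ Nf m j)
    (hpd : ∃ t : ℝ, 0 < t ∧ ∀ v, t * (std v v).re ≤ (frm x v v).re) :
    x ∈ Cp (AddSubgroup.closure (integral (kum ι m) j)) (Nf m j) := by
  classical
  obtain ⟨F₁, hF₁, hcov⟩ := covering m hj hρ
  obtain ⟨g, u, hg, hgx⟩ := hcov x hx hpd
  have h1 := cone_image (g.symm : N1 (kum ι m) j →ₗ[ℝ] N1 (kum ι m) j) hgx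
  have h2 : (g.symm : N1 (kum ι m) j →ₗ[ℝ] N1 (kum ι m) j) (g x) = x := g.symm_apply_apply x
  rw [h2] at h1
  refine ⟨_, fun a ha => ?_, h1⟩
  obtain ⟨a, ha', rfl⟩ := Finset.mem_image.1 ha
  exact ⟨hg.cl' (hF₁ a ha').1, hg.nf' (hF₁ a ha').2⟩

/-- The nef cone. -/
theorem nefCone_eq [Nonempty ι] (hj : IsExt ρ j) (hρ : Function.Injective ρ) (hr : r ≤ 4) :
    nefCone (kum ι m) j = Nf m j := by
  refine Set.Subset.antisymm (nefCone_le hj hρ) fun x hx => ?_
  obtain ⟨y₀, hy0, hy1, hy2⟩ := exists_y₀ m hj hρ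
  have hyN : y₀ ∈ Nf m j := by
    refine ⟨fun v => ?_, by rw [hy2]; norm_num, fun v hv hv0 => ?_⟩
    · rw [hy1, re_twelve]
      have := std_nonneg v
      positivity
    · rw [hy1, re_twelve, hy2]
      have := one_le_std hv hv0
      linarith
  refine mem_closed (y := y₀) isClosed_closure fun k => ?_
  have hk : (0 : ℝ) < 1 / ((k : ℝ) + 1) := by positivity
  obtain ⟨S, hS, h1⟩ := Cp_of_pd hj hρ (Nf_add hx (Nf_smul hk.le hyN))
    ⟨1 / ((k : ℝ) + 1) * 12, by positivity, fun v => by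
      rw [frm_add, Complex.add_re, frm_smul, Complex.re_ofReal_mul, hy1, re_twelve]
      have := hx.1 v
      linarith⟩
  exact cone_nef (fun a ha => nef_of_int hj hρ hr (hS a ha).1 (hS a ha).2) h1

/-- A positive definite form is bounded below. -/
theorem exists_lower {h : (Fin r → ℂ) → (Fin r → ℂ) → ℂ} (hh : IsHermitian h)
    (hp : ∀ v, v ≠ 0 → 0 < (h v v).re) :
    ∃ t : ℝ, 0 < t ∧ ∀ v, t * (std v v).re ≤ (h v v).re := by
  have hpd : Pd (Matrix.of (mx h)) := ⟨mx_herm hh, fun v hv => by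
    rw [mx_q hh]
    exact hp _ (by rwa [star_ne_zero])⟩
  obtain ⟨c, hc, hlow⟩ := hpd.lower
  refine ⟨c / (r + 1), by positivity, fun v => ?_⟩
  have h1 := hlow (star v)
  rw [mx_q hh, star_star] at h1
  refine le_trans ?_ h1
  have h2 : (std v v).re ≤ (r + 1) * ‖star v‖ ^ 2 := by
    rw [std_re]
    calc ∑ i, Complex.normSq (v i) ≤ ∑ _i : Fin r, ‖star v‖ ^ 2 := by
          refine Finset.sum_le_sum fun i _ => ?_
          rw [Complex.normSq_eq_norm_sq]
          have h3 : ‖v i‖ ≤ ‖star v‖ := by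
            have := norm_le_pi_norm (star v) i
            rwa [Pi.star_apply, norm_star] at this
          exact pow_le_pow_left₀ (norm_nonneg _) h3 2
      _ = r * ‖star v‖ ^ 2 := by simp
      _ ≤ _ := by nlinarith [sq_nonneg ‖star v‖]
  calc c / (r + 1) * (std v v).re ≤ c / (r + 1) * ((r + 1) * ‖star v‖ ^ 2) :=
        mul_le_mul_of_nonneg_left h2 (by positivity)
    _ = c * ‖star v‖ ^ 2 := by
        have : (r : ℝ) + 1 ≠ 0 := by positivity
        field_simp

/-- A nef class which is in the effective cone is spanned by integral classes of `Nf`. -/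
theorem Cp_of_eff [Nonempty ι] (hj : IsExt ρ j) (hρ : Function.Injective ρ)
    {x : N1 (kum ι m) j} (hx : x ∈ Nf m j) (heff : x ∈ effCone (kum ι m) j) :
    x ∈ Cp (AddSubgroup.closure (integral (kum ι m) j)) (Nf m j) := by
  classical
  by_cases hpd : ∀ v, v ≠ 0 → 0 < (frm x v v).re
  · exact Cp_of_pd hj hρ hx (exists_lower (frm_herm x) hpd)
  push Not at hpd
  obtain ⟨v, hv, hv0⟩ := hpd
  have hvx : (frm x v v).re = 0 := le_antisymm hv0 (hx.1 v)
  obtain ⟨S, hS, c, hc, hxc⟩ := heff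
  -- the sum of the classes with a positive coefficient
  set P := S.filter fun a => c a ≠ 0 with hP
  have hxP : x = ∑ a ∈ P, c a • a := by
    rw [hxc, hP]
    refine (Finset.sum_subset (Finset.filter_subset _ _) fun a ha ha' => ?_).symm
    rw [Finset.mem_filter, not_and, not_not] at ha'
    rw [ha' ha, zero_smul]
  have hcpos : ∀ a ∈ P, 0 < c a := fun a ha =>
    lt_of_le_of_ne (hc a) (Ne.symm (Finset.mem_filter.1 ha).2)
  have hPe : ∀ a ∈ P, a ∈ effective (kum ι m) j := fun a ha => hS (Finset.mem_filter.1 ha).1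
  have hPd : ∀ a ∈ P, Dat (frm a) ∧ ∀ v, 0 ≤ (frm a v v).re := fun a ha => by
    obtain ⟨L, s, hL, -⟩ := hPe a ha
    exact ⟨(eis_of_mem hj (AddSubgroup.subset_closure ⟨L, hL⟩)).1, effective_psd hj (hPe a ha)⟩
  have hsum : ∀ (d : N1 (kum ι m) j → ℝ) (s : Finset (N1 (kum ι m) j)) (v w : Fin r → ℂ),
      frm (∑ a ∈ s, d a • a) v w = ∑ a ∈ s, (d a : ℂ) * frm a v w := by
    intro d s v w
    induction s using Finset.induction_on with
    | empty => rw [Finset.sum_empty, Finset.sum_empty, frm_zero]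
    | insert a s ha ih => rw [Finset.sum_insert ha, Finset.sum_insert ha, frm_add, ih, frm_smul]
  have hsre : ∀ (d : N1 (kum ι m) j → ℝ) (s : Finset (N1 (kum ι m) j)) (v : Fin r → ℂ),
      (∑ a ∈ s, (d a : ℂ) * frm a v v).re = ∑ a ∈ s, d a * (frm a v v).re := by
    intro d s v
    rw [Complex.re_sum]
    exact Finset.sum_congr rfl fun a _ => Complex.re_ofReal_mul _ _
  -- each of them vanishes on `v`
  have hz : ∀ (w : Fin r → ℂ), (frm x w w).re = 0 ↔ ∀ a ∈ P, (frm a w w).re = 0 := by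
    intro w
    have h1 : (frm x w w).re = ∑ a ∈ P, c a * (frm a w w).re := by
      rw [← hsre, ← hsum, ← hxP]
    rw [h1, Finset.sum_eq_zero_iff_of_nonneg fun a ha =>
      mul_nonneg (hcpos a ha).le ((hPd a ha).2 w)]
    refine forall₂_congr fun a ha => ?_
    rw [mul_eq_zero, or_iff_right (hcpos a ha).ne']
  -- the sum of the forms
  have hD : Dat fun u w => ∑ a ∈ P, frm a u w := by
    refine ⟨⟨fun u v w => ?_, fun a v w => ?_, fun v w => ?_⟩, fun u w hu hw =>
      IsEis.sum _ _ fun a ha => (hPd a ha).1.int u w hu hw⟩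
    · rw [← Finset.sum_add_distrib]
      exact Finset.sum_congr rfl fun a _ => (frm_herm a).add_left u v w
    · rw [Finset.mul_sum]
      exact Finset.sum_congr rfl fun b _ => (frm_herm b).smul_left a v w
    · rw [map_sum]
      exact Finset.sum_congr rfl fun a _ => (frm_herm a).symm v w
  have hDre : ∀ v, (∑ a ∈ P, frm a v v).re = ∑ a ∈ P, (frm a v v).re := fun v =>
    Complex.re_sum _ _
  have hDz : ∀ w, (∑ a ∈ P, frm a w w).re = 0 ↔ ∀ a ∈ P, (frm a w w).re = 0 := by
    intro w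
    rw [hDre, Finset.sum_eq_zero_iff_of_nonneg fun a ha => (hPd a ha).2 w]
  obtain ⟨w, hw, hw0, hww⟩ := exists_ker hD (fun v => by
    rw [hDre]
    exact Finset.sum_nonneg fun a ha => (hPd a ha).2 v) hv ((hDz v).2 ((hz v).1 hvx))
  have hxw : (frm x w w).re = 0 := (hz w).2 ((hDz w).1 hww)
  have hcx : coef x = 0 := by
    have h1 := hx.2.2 w hw hw0
    rw [hxw] at h1
    exact le_antisymm h1 hx.2.1
  -- the classes with coefficient zero
  choose! y hy1 hy2 hy3' using fun a (ha : a ∈ P) => exists_cls m hj hρ (hPd a ha).1 0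
  have hy3 : ∀ a ∈ P, coef (y a) = 0 := fun a ha => by rw [hy3' a ha]; norm_num
  refine ⟨P.image y, fun b hb => ?_, ?_⟩
  · obtain ⟨a, ha, rfl⟩ := Finset.mem_image.1 hb
    refine ⟨AddSubgroup.subset_closure (hy1 a ha), fun v => ?_, by rw [hy3 a ha],
      fun v _ _ => ?_⟩
    · rw [hy2 a ha, re_six]
      have := (hPd a ha).2 v
      positivity
    · rw [hy2 a ha, re_six, hy3 a ha]
      have := (hPd a ha).2 v
      positivity
  · have h1 : x = ∑ a ∈ P, (c a / 6) • y a := by
      have hf : ∀ (s : Finset (N1 (kum ι m) j)) (v w : Fin r → ℂ), s ⊆ P →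
          frm (∑ a ∈ s, (c a / 6) • y a) v w = ∑ a ∈ s, (c a : ℂ) * frm a v w := by
        intro s v w
        induction s using Finset.induction_on with
        | empty => intro _; rw [Finset.sum_empty, Finset.sum_empty, frm_zero]
        | insert a s ha ih =>
          intro hs
          rw [Finset.sum_insert ha, Finset.sum_insert ha, frm_add,
            ih fun a ha => hs (Finset.mem_insert_of_mem ha), frm_smul,
            hy2 a (hs (Finset.mem_insert_self _ _))]
          push_cast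
          ring
      have hcs : ∀ s : Finset (N1 (kum ι m) j), s ⊆ P → coef (∑ a ∈ s, (c a / 6) • y a) = 0 := by
        intro s
        induction s using Finset.induction_on with
        | empty => intro _; rw [Finset.sum_empty, coef_zero]
        | insert a s ha ih =>
          intro hs
          rw [Finset.sum_insert ha, coef_add, ih fun a ha => hs (Finset.mem_insert_of_mem ha),
            coef_smul, hy3 a (hs (Finset.mem_insert_self _ _))]
          ring
      refine N1_ext' (fun v w => ?_) ?_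
      · rw [hf P v w (Finset.Subset.refl _), ← hsum, ← hxP]
      · rw [hcx, hcs P (Finset.Subset.refl _)]
    rw [h1]
    exact mem_cone_of_sum P _ _ (fun a ha => Finset.mem_image_of_mem _ ha)
      fun a _ => div_nonneg (hc a) (by norm_num)

theorem mem_Cp_iff [Nonempty ι] (hj : IsExt ρ j) (hρ : Function.Injective ρ) (hr0 : 2 ≤ r)
    (hr : r ≤ 4) (x : N1 (kum ι m) j) :
    x ∈ Cp (AddSubgroup.closure (integral (kum ι m) j)) (Nf m j) ↔
      x ∈ nefCone (kum ι m) j ∩ effCone (kum ι m) j :=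
  ⟨fun h => Cp_le hj hρ hr0 hr h, fun h => Cp_of_eff hj hρ (nefCone_le hj hρ h.1) h.2⟩

/-- The multiple `6 a` of an element of the group spanned by integral classes is integral if the
coefficient is nonnegative. -/
theorem six_int [Nonempty ι] (hj : IsExt ρ j) (hρ : Function.Injective ρ) {a : N1 (kum ι m) j}
    (ha : a ∈ AddSubgroup.closure (integral (kum ι m) j)) (haN : a ∈ Nf m j) :
    (6 : ℝ) • a ∈ integral (kum ι m) j := by
  obtain ⟨D, n, hn⟩ := eis_of_mem hj ha
  obtain ⟨b, hb⟩ := coef_nat haN hn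
  obtain ⟨y, h1, h2, h3⟩ := exists_cls m hj hρ D b
  have h4 : (6 : ℝ) • a = y := by
    refine N1_ext' (fun u w => ?_) ?_
    · rw [frm_smul, h2]
      push_cast
      ring
    · rw [coef_smul, h3, hb]
  rw [h4]
  exact h1

end Pool.Agent.R895
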