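import Pool.Agent.R895.Eis

/-!
# Reduction of positive definite hermitian forms over the Eisenstein integers
-/

set_option autoImplicit false

namespace Pool.Agent.R895

open Matrix

/-- The value at `x` of the hermitian form with matrix `M`. -/
noncomputable def q {ι : Type*} [Fintype ι] (M : Matrix ι ι ℂ) (x : ι → ℂ) : ℝ :=
  (star x ⬝ᵥ (M *ᵥ x)).re

/-- The matrix `M` is hermitian and positive definite. -/
def Pd {ι : Type*} [Fintype ι] (M : Matrix ι ι ℂ) : Prop := M.IsHermitian ∧ ∀ x, x ≠ 0 → 0 < q M x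

/-- The matrix `M` is hermitian and positive semidefinite. -/
def Psd {ι : Type*} [Fintype ι] (M : Matrix ι ι ℂ) : Prop := M.IsHermitian ∧ ∀ x, 0 ≤ q M x

section basic

variable {ι : Type*} [Fintype ι]

theorem q_conj (M g : Matrix ι ι ℂ) (x : ι → ℂ) : q (gᴴ * M * g) x = q M (g *ᵥ x) := by
  unfold q
  congr 1
  rw [star_mulVec, ← mulVec_mulVec, ← mulVec_mulVec, ← dotProduct_mulVec]

theorem q_add (M N : Matrix ι ι ℂ) (x : ι → ℂ) : q (M + N) x = q M x + q N x := by
  unfold q
  rw [add_mulVec, dotProduct_add, Complex.add_re]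

theorem q_smul (c : ℝ) (M : Matrix ι ι ℂ) (x : ι → ℂ) : q ((c : ℂ) • M) x = c * q M x := by
  unfold q
  rw [smul_mulVec, dotProduct_smul, smul_eq_mul, Complex.re_ofReal_mul]

theorem q_zero (x : ι → ℂ) : q (0 : Matrix ι ι ℂ) x = 0 := by
  unfold q
  rw [zero_mulVec, dotProduct_zero, Complex.zero_re]

theorem q_sum {κ : Type*} (s : Finset κ) (M : κ → Matrix ι ι ℂ) (x : ι → ℂ) :
    q (∑ i ∈ s, M i) x = ∑ i ∈ s, q (M i) x := by
  classical
  induction s using Finset.induction_on with
  | empty => simp [q_zero]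
  | insert i s hi ih => rw [Finset.sum_insert hi, Finset.sum_insert hi, q_add, ih]

theorem q_vec (w x : ι → ℂ) : q (vecMulVec w (star w)) x = Complex.normSq (star w ⬝ᵥ x) := by
  unfold q
  rw [vecMulVec_mulVec, dotProduct_smul]
  have h : star x ⬝ᵥ w = star (star w ⬝ᵥ x) := by
    rw [star_dotProduct]
  rw [h, op_smul_eq_smul, smul_eq_mul]
  have h2 : star (star w ⬝ᵥ x) = (starRingEnd ℂ) (star w ⬝ᵥ x) := rfl
  rw [h2, Complex.mul_conj, Complex.ofReal_re]

theorem q_dec {κ : Type*} [Fintype κ] (m : κ → ℝ) (x : κ → ι → ℂ) (v : ι → ℂ) :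
    q (∑ i, (m i : ℂ) • vecMulVec (x i) (star (x i))) v =
      ∑ i, m i * Complex.normSq (star (x i) ⬝ᵥ v) := by
  rw [q_sum]
  exact Finset.sum_congr rfl fun i _ => by rw [q_smul, q_vec]

theorem Pd.psd {M : Matrix ι ι ℂ} (h : Pd M) : Psd M := by
  refine ⟨h.1, fun x => ?_⟩
  by_cases hx : x = 0
  · rw [hx]; unfold q; simp
  · exact (h.2 x hx).le

theorem herm_conj {M : Matrix ι ι ℂ} (h : M.IsHermitian) (g : Matrix ι ι ℂ) :
    (gᴴ * M * g).IsHermitian := by
  unfold IsHermitian
  rw [conjTranspose_mul, conjTranspose_mul, conjTranspose_conjTranspose, h.eq, Matrix.mul_assoc]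

theorem continuous_q (M : Matrix ι ι ℂ) : Continuous (q M) := by
  unfold q
  have : Continuous fun x : ι → ℂ => star x ⬝ᵥ (M *ᵥ x) := by
    simp only [dotProduct, mulVec]
    fun_prop
  exact Complex.continuous_re.comp this

theorem q_smul_vec (M : Matrix ι ι ℂ) (c : ℂ) (x : ι → ℂ) :
    q M (c • x) = Complex.normSq c * q M x := by
  unfold q
  rw [mulVec_smul, dotProduct_smul, star_smul, smul_dotProduct, smul_smul, smul_eq_mul]
  have : c * star c = ((Complex.normSq c : ℝ) : ℂ) := Complex.mul_conj c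
  rw [this, Complex.re_ofReal_mul]

theorem Pd.lower {M : Matrix ι ι ℂ} (h : Pd M) : ∃ c : ℝ, 0 < c ∧ ∀ x, c * ‖x‖ ^ 2 ≤ q M x := by
  classical
  rcases isEmpty_or_nonempty ι with hi | hi
  · refine ⟨1, one_pos, fun x => ?_⟩
    have : x = 0 := Subsingleton.elim _ _
    rw [this]; simp [q]
  · have hc : IsCompact (Metric.sphere (0 : ι → ℂ) 1) := isCompact_sphere _ _
    have hne : (Metric.sphere (0 : ι → ℂ) 1).Nonempty := NormedSpace.sphere_nonempty.2 zero_le_one
    obtain ⟨u, hu, hmin⟩ := hc.exists_isMinOn hne (continuous_q M).continuousOn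
    have hu0 : u ≠ 0 := by
      rintro rfl
      simp at hu
    refine ⟨q M u, h.2 u hu0, fun x => ?_⟩
    by_cases hx : x = 0
    · rw [hx]; simp [q]
    · have hx' : 0 < ‖x‖ := norm_pos_iff.2 hx
      have h1 : ((‖x‖⁻¹ : ℝ) : ℂ) • x ∈ Metric.sphere (0 : ι → ℂ) 1 := by
        rw [mem_sphere_zero_iff_norm, norm_smul, Complex.norm_real, norm_inv, norm_norm,
          inv_mul_cancel₀ hx'.ne']
      have h2 : q M u ≤ q M (((‖x‖⁻¹ : ℝ) : ℂ) • x) := hmin h1
      rw [q_smul_vec, Complex.normSq_ofReal] at h2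
      have h3 : ‖x‖⁻¹ * ‖x‖⁻¹ * q M x * ‖x‖ ^ 2 = q M x := by
        field_simp
      calc q M u * ‖x‖ ^ 2 ≤ ‖x‖⁻¹ * ‖x‖⁻¹ * q M x * ‖x‖ ^ 2 :=
            mul_le_mul_of_nonneg_right h2 (by positivity)
        _ = q M x := h3

/-- A vector with Eisenstein integers as coordinates. -/
def IsLat (x : ι → ℂ) : Prop := ∀ i, IsEis (x i)

theorem finite_lat (C : ℝ) : {x : ι → ℂ | IsLat x ∧ ‖x‖ ^ 2 ≤ C}.Finite := by
  refine (Set.Finite.pi' fun _ : ι => finite_eis C).subset ?_
  rintro x ⟨h1, h2⟩ i
  refine ⟨h1 i, ?_⟩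
  rw [Complex.normSq_eq_norm_sq]
  refine le_trans ?_ h2
  exact pow_le_pow_left₀ (norm_nonneg _) (norm_le_pi_norm x i) 2

/-- A positive definite form attains its minimum on a nonempty set of lattice vectors. -/
theorem Pd.exists_min {M : Matrix ι ι ℂ} (h : Pd M) {A : Set (ι → ℂ)} (hA : ∀ x ∈ A, IsLat x)
    (hne : A.Nonempty) : ∃ x ∈ A, ∀ y ∈ A, q M x ≤ q M y := by
  obtain ⟨c, hc, hlow⟩ := h.lower
  obtain ⟨x₀, hx₀⟩ := hne
  have hfin : (A ∩ {x | q M x ≤ q M x₀}).Finite := by
    refine (finite_lat (q M x₀ / c)).subset ?_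
    rintro x ⟨h1, h2⟩
    refine ⟨hA x h1, ?_⟩
    rw [le_div_iff₀ hc, mul_comm]
    exact (hlow x).trans h2
  obtain ⟨x, hx, hmin⟩ := Set.exists_min_image _ (q M) hfin
    ⟨x₀, hx₀, (le_refl _ : q M x₀ ≤ q M x₀)⟩
  refine ⟨x, hx.1, fun y hy => ?_⟩
  rcases le_or_gt (q M y) (q M x₀) with h1 | h1
  · exact hmin y ⟨hy, h1⟩
  · exact hx.2.trans h1.le

end basic

variable {n : ℕ}

/-- The group `GL_n(ℤ[ω])`. -/
structure IsGL (g : Matrix (Fin n) (Fin n) ℂ) : Prop where
  ent : ∀ i j, IsEis (g i j)
  inv : ∃ h : Matrix (Fin n) (Fin n) ℂ, (∀ i j, IsEis (h i j)) ∧ g * h = 1 ∧ h * g = 1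

namespace IsGL

theorem one : IsGL (1 : Matrix (Fin n) (Fin n) ℂ) := by
  have h : ∀ i j, IsEis ((1 : Matrix (Fin n) (Fin n) ℂ) i j) := by
    intro i j
    rw [one_apply]
    split_ifs
    · exact IsEis.one
    · exact IsEis.zero
  exact ⟨h, 1, h, by simp, by simp⟩

theorem eis_mul {g h : Matrix (Fin n) (Fin n) ℂ} (hg : ∀ i j, IsEis (g i j))
    (hh : ∀ i j, IsEis (h i j)) (i j : Fin n) : IsEis ((g * h) i j) := by
  rw [mul_apply]
  exact IsEis.sum _ _ fun k _ => (hg i k).mul (hh k j)

theorem mul {g h : Matrix (Fin n) (Fin n) ℂ} (hg : IsGL g) (hh : IsGL h) : IsGL (g * h) := by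
  obtain ⟨g', h1, h2, h3⟩ := hg.inv
  obtain ⟨h', h4, h5, h6⟩ := hh.inv
  refine ⟨eis_mul hg.ent hh.ent, h' * g', eis_mul h4 h1, ?_, ?_⟩
  · calc g * h * (h' * g') = g * (h * h') * g' := by simp only [Matrix.mul_assoc]
      _ = 1 := by rw [h5, Matrix.mul_one, h2]
  · calc h' * g' * (g * h) = h' * (g' * g) * h := by simp only [Matrix.mul_assoc]
      _ = 1 := by rw [h3, Matrix.mul_one, h6]

theorem conjTranspose {g : Matrix (Fin n) (Fin n) ℂ} (hg : IsGL g) : IsGL gᴴ := by
  obtain ⟨g', h1, h2, h3⟩ := hg.inv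
  refine ⟨fun i j => (hg.ent j i).star, g'ᴴ, fun i j => (h1 j i).star, ?_, ?_⟩
  · rw [← conjTranspose_mul, h3, conjTranspose_one]
  · rw [← conjTranspose_mul, h2, conjTranspose_one]

theorem mulVec {g : Matrix (Fin n) (Fin n) ℂ} (hg : IsGL g) {x : Fin n → ℂ} (hx : IsLat x) :
    IsLat (g *ᵥ x) := fun i => by
  have h := IsEis.sum Finset.univ (fun k => g i k * x k) fun k _ => (hg.ent i k).mul (hx k)
  exact h

theorem mulVec_ne {g : Matrix (Fin n) (Fin n) ℂ} (hg : IsGL g) {x : Fin n → ℂ} (hx : x ≠ 0) :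
    g *ᵥ x ≠ 0 := by
  intro h
  obtain ⟨g', -, -, h3⟩ := hg.inv
  apply hx
  have := congrArg (fun v => g' *ᵥ v) h
  simp only [mulVec_mulVec, h3, one_mulVec, mulVec_zero] at this
  exact this

theorem normSq_det {g : Matrix (Fin n) (Fin n) ℂ} (hg : IsGL g) : Complex.normSq g.det = 1 := by
  have hdet : ∀ {g : Matrix (Fin n) (Fin n) ℂ}, (∀ i j, IsEis (g i j)) → IsEis g.det := by
    intro g hg
    rw [det_apply]
    refine IsEis.sum _ _ fun σ _ => ?_
    have h1 : ∀ s : Finset (Fin n), IsEis (∏ i ∈ s, g (σ i) i) := by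
      intro s
      classical
      induction s using Finset.induction_on with
      | empty => simpa using IsEis.one
      | insert i s hi ih => rw [Finset.prod_insert hi]; exact (hg _ _).mul ih
    rcases Int.units_eq_one_or (Equiv.Perm.sign σ) with h | h
    · rw [h]; simpa using h1 _
    · rw [h]; simpa using (h1 _).neg
  obtain ⟨g', h1, h2, h3⟩ := hg.inv
  have h4 : g.det * g'.det = 1 := by rw [← det_mul, h2, det_one]
  have h5 : Complex.normSq g.det * Complex.normSq g'.det = 1 := by
    rw [← Complex.normSq_mul, h4, Complex.normSq_one]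
  obtain ⟨a, ha⟩ := (hdet hg.ent).normSq
  obtain ⟨b, hb⟩ := (hdet h1).normSq
  rw [ha, hb] at h5
  have h6 : a * b = 1 := by exact_mod_cast h5
  rw [ha, Nat.eq_one_of_mul_eq_one_right h6, Nat.cast_one]

end IsGL

theorem Pd.conj {M : Matrix (Fin n) (Fin n) ℂ} (h : Pd M) {g : Matrix (Fin n) (Fin n) ℂ}
    (hg : IsGL g) : Pd (gᴴ * M * g) :=
  ⟨herm_conj h.1 g, fun x hx => by rw [q_conj]; exact h.2 _ (hg.mulVec_ne hx)⟩

/-- The matrix `[[1, c], [0, N]]`. -/
def up (c : Fin n → ℂ) (N : Matrix (Fin n) (Fin n) ℂ) : Matrix (Fin (n + 1)) (Fin (n + 1)) ℂ :=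
  fun i j => Fin.cases (Fin.cases 1 c j) (fun i' => Fin.cases 0 (fun j' => N i' j') j) i

/-- The matrix `[[0, 0], [0, N]]`. -/
def low (N : Matrix (Fin n) (Fin n) ℂ) : Matrix (Fin (n + 1)) (Fin (n + 1)) ℂ :=
  fun i j => Fin.cases 0 (fun i' => Fin.cases 0 (fun j' => N i' j') j) i

section block

variable (c d : Fin n → ℂ) (N P : Matrix (Fin n) (Fin n) ℂ)

@[simp] theorem up_zz : up c N 0 0 = 1 := rfl
@[simp] theorem up_zs (j : Fin n) : up c N 0 j.succ = c j := rfl
@[simp] theorem up_sz (i : Fin n) : up c N i.succ 0 = 0 := rfl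
@[simp] theorem up_ss (i j : Fin n) : up c N i.succ j.succ = N i j := rfl
@[simp] theorem low_zj (j : Fin (n + 1)) : low N 0 j = 0 := rfl
@[simp] theorem low_sz (i : Fin n) : low N i.succ 0 = 0 := rfl
@[simp] theorem low_ss (i j : Fin n) : low N i.succ j.succ = N i j := rfl

theorem low_iz (i : Fin (n + 1)) : low N i 0 = 0 := by
  refine Fin.cases ?_ (fun i => ?_) i <;> rfl

theorem up_mul : up c N * up d P = up (d + c ᵥ* P) (N * P) := by
  ext i j
  refine Fin.cases ?_ (fun i => ?_) i <;> refine Fin.cases ?_ (fun j => ?_) j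
  · simp [mul_apply, Fin.sum_univ_succ]
  · simp [mul_apply, Fin.sum_univ_succ, vecMul, dotProduct]
  · simp [mul_apply, Fin.sum_univ_succ]
  · simp [mul_apply, Fin.sum_univ_succ]

theorem up_one : up (0 : Fin n → ℂ) 1 = 1 := by
  ext i j
  refine Fin.cases ?_ (fun i => ?_) i <;> refine Fin.cases ?_ (fun j => ?_) j
  · simp
  · simp [one_apply, Fin.ext_iff]
  · simp [one_apply, Fin.ext_iff]
  · simp [one_apply, Fin.ext_iff]

theorem up_low : (up c N)ᴴ * low P * up c N = low (Nᴴ * P * N) := by
  ext i j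
  refine Fin.cases ?_ (fun i => ?_) i <;> refine Fin.cases ?_ (fun j => ?_) j
  · simp [mul_apply, Fin.sum_univ_succ, low_iz]
  · simp [mul_apply, Fin.sum_univ_succ, low_iz]
  · simp [mul_apply, Fin.sum_univ_succ, low_iz]
  · simp [mul_apply, Fin.sum_univ_succ]

theorem up_isGL (hc : ∀ j, IsEis (c j)) (hN : IsGL N) : IsGL (up c N) := by
  obtain ⟨N', h1, h2, h3⟩ := hN.inv
  refine ⟨?_, up (-(c ᵥ* N')) N', ?_, ?_, ?_⟩
  · intro i j
    refine Fin.cases ?_ (fun i => ?_) i <;> refine Fin.cases ?_ (fun j => ?_) j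
    · exact IsEis.one
    · exact hc j
    · exact IsEis.zero
    · exact hN.ent i j
  · intro i j
    refine Fin.cases ?_ (fun i => ?_) i <;> refine Fin.cases ?_ (fun j => ?_) j
    · exact IsEis.one
    · exact (IsEis.sum _ _ fun k _ => (hc k).mul (h1 k j)).neg
    · exact IsEis.zero
    · exact h1 i j
  · rw [up_mul, h2, neg_add_cancel, up_one]
  · rw [up_mul, h3, neg_vecMul, vecMul_vecMul, h3, vecMul_one, add_neg_cancel, up_one]

theorem low_sum {κ : Type*} (s : Finset κ) (f : κ → Matrix (Fin n) (Fin n) ℂ) :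
    low (∑ i ∈ s, f i) = ∑ i ∈ s, low (f i) := by
  ext i j
  rw [Matrix.sum_apply]
  refine Fin.cases ?_ (fun i => ?_) i <;> refine Fin.cases ?_ (fun j => ?_) j
  · simp
  · simp
  · simp
  · simp [Matrix.sum_apply]

theorem low_vec (a : ℂ) (u : Fin n → ℂ) : low (a • vecMulVec u (star u)) =
    a • vecMulVec (Fin.cons 0 u : Fin (n + 1) → ℂ) (star (Fin.cons 0 u)) := by
  ext i j
  refine Fin.cases ?_ (fun i => ?_) i <;> refine Fin.cases ?_ (fun j => ?_) j
  · simp [vecMulVec_apply]
  · simp [vecMulVec_apply]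
  · simp [vecMulVec_apply]
  · simp [vecMulVec_apply]

theorem q_low (N : Matrix (Fin n) (Fin n) ℂ) (a : ℂ) (v : Fin n → ℂ) :
    q (low N) (Fin.cons a v) = q N v := by
  unfold q
  simp [dotProduct, mulVec, Fin.sum_univ_succ]

end block

/-- The decomposition `M = a x x* + [[0, 0], [0, M']]` with `x 0 = 1`. -/
theorem Pd.schur {M : Matrix (Fin (n + 1)) (Fin (n + 1)) ℂ} (h : Pd M) :
    ∃ (a : ℝ) (x : Fin (n + 1) → ℂ) (M' : Matrix (Fin n) (Fin n) ℂ), 0 < a ∧ x 0 = 1 ∧
      a = q M (Pi.single 0 1) ∧ Pd M' ∧ M = (a : ℂ) • vecMulVec x (star x) + low M' := by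
  set a : ℝ := q M (Pi.single 0 1) with ha
  have ha0 : 0 < a := h.2 _ (by
    intro h0
    have := congrFun h0 0
    simp at this)
  have ha1 : M 0 0 = (a : ℂ) := by
    have h1 : (M 0 0).im = 0 := by
      have := congrFun (congrFun h.1.eq 0) 0
      rw [conjTranspose_apply] at this
      have h2 := congrArg Complex.im this
      have h3 : (star (M 0 0)).im = -(M 0 0).im := rfl
      rw [h3] at h2
      linarith
    have h2 : a = (M 0 0).re := by
      rw [ha]
      unfold q
      simp [dotProduct, mulVec, Pi.single_apply]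
    rw [h2]
    exact Complex.ext (by simp) (by simp [h1])
  have hac : (a : ℂ) ≠ 0 := by exact_mod_cast ha0.ne'
  set x : Fin (n + 1) → ℂ := fun i => M i 0 / a with hx
  set M' : Matrix (Fin n) (Fin n) ℂ := fun i j => M i.succ j.succ - M i.succ 0 * M 0 j.succ / a
    with hM'
  have hM : M = (a : ℂ) • vecMulVec x (star x) + low M' := by
    have hst : ∀ i, star (M i 0) = M 0 i := by
      intro i
      have := congrFun (congrFun h.1.eq 0) i
      rwa [conjTranspose_apply] at this
    have hst2 : ∀ i, star (x i) = M 0 i / a := by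
      intro i
      simp only [hx, star_div₀, hst]
      congr 1
      exact Complex.conj_ofReal a
    ext i j
    rw [Matrix.add_apply, Matrix.smul_apply, vecMulVec_apply, Pi.star_apply, hst2, smul_eq_mul]
    refine Fin.cases ?_ (fun i => ?_) i <;> refine Fin.cases ?_ (fun j => ?_) j
    · simp only [hx, low_zj, add_zero]
      rw [ha1]
      field_simp
    · simp only [hx, low_zj, add_zero]
      rw [ha1]
      field_simp
    · simp only [hx, low_sz, add_zero]
      rw [ha1]
      field_simp
    · rw [low_ss]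
      simp only [hx, hM']
      field_simp
      ring
  have hx0 : x 0 = 1 := by
    simp only [hx, ha1]
    field_simp
  refine ⟨a, x, M', ha0, hx0, rfl, ⟨?_, fun v hv => ?_⟩, hM⟩
  · unfold IsHermitian
    ext i j
    have hst : ∀ i j, star (M i j) = M j i := by
      intro i j
      have := congrFun (congrFun h.1.eq j) i
      rwa [conjTranspose_apply] at this
    rw [conjTranspose_apply]
    simp only [hM']
    rw [star_sub, star_div₀, star_mul', hst, hst, hst]
    have : star (a : ℂ) = a := Complex.conj_ofReal a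
    rw [this]
    ring
  · set c : ℂ := -∑ j, star (x j.succ) * v j with hc
    have h1 : star x ⬝ᵥ (Fin.cons c v : Fin (n + 1) → ℂ) = 0 := by
      simp only [dotProduct, Fin.sum_univ_succ, Pi.star_apply, Fin.cons_zero, Fin.cons_succ, hx0,
        star_one, one_mul, hc]
      ring
    have h2 : q M (Fin.cons c v) = q M' v := by
      rw [hM, q_add, q_smul, q_vec, h1, q_low]
      simp
    rw [← h2]
    apply h.2
    intro h0
    apply hv
    ext j
    have := congrFun h0 j.succ
    simpa using this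

/-- **Reduction theory.** -/
theorem exists_red : ∀ (n : ℕ) (M : Matrix (Fin n) (Fin n) ℂ), Pd M →
    ∃ (g : Matrix (Fin n) (Fin n) ℂ) (x : Fin n → Fin n → ℂ) (m : Fin n → ℝ), IsGL g ∧
      (∀ i, 0 < m i) ∧ (∀ i j : Fin n, (i : ℕ) + 1 = j → 2 / 3 * m i ≤ m j) ∧
      (∀ i, x i i = 1) ∧ (∀ i j, j < i → x i j = 0) ∧
      (∀ i j, i < j → Complex.normSq (x i j) ≤ 1 / 3) ∧
      gᴴ * M * g = ∑ i, (m i : ℂ) • vecMulVec (x i) (star (x i)) := by
  intro n
  induction n with
  | zero =>
    intro M _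
    exact ⟨1, fun i => i.elim0, fun i => i.elim0, IsGL.one, fun i => i.elim0, fun i => i.elim0,
      fun i => i.elim0, fun i => i.elim0, fun i => i.elim0, by ext i; exact i.elim0⟩
  | succ n ih =>
    intro M hM
    -- a minimal unimodular column
    obtain ⟨v, ⟨g₁, hg₁, rfl⟩, hmin⟩ := hM.exists_min
      (A := {v | ∃ g, IsGL g ∧ v = g *ᵥ (Pi.single 0 1)}) (by
        rintro _ ⟨g, hg, rfl⟩
        refine hg.mulVec fun i => ?_
        by_cases hi : i = 0
        · rw [hi, Pi.single_eq_same]; exact IsEis.one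
        · rw [Pi.single_eq_of_ne hi]; exact IsEis.zero) ⟨_, 1, IsGL.one, rfl⟩
    obtain ⟨a, x₀, M', ha, hx₀, haq, hM', hdec⟩ := (hM.conj hg₁).schur
    obtain ⟨g', x', m', hg', hm', hch, hd, hz, hs, hM'd⟩ := ih M' hM'
    -- size reduction
    choose e he1 he2 using fun j : Fin n => exists_near ((g'ᴴ *ᵥ (fun i => x₀ i.succ)) j)
    set c : Fin n → ℂ := fun j => -star (e j) with hc
    set G := up c g' with hG
    have hGL : IsGL G := up_isGL _ _ (fun j => (he1 j).star.neg) hg'
    set y : Fin (n + 1) → ℂ := Gᴴ *ᵥ x₀ with hy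
    have hy0 : y 0 = 1 := by
      simp [hy, hG, mulVec, dotProduct, Fin.sum_univ_succ, hx₀]
    have hys : ∀ j : Fin n, y j.succ = (g'ᴴ *ᵥ (fun i => x₀ i.succ)) j - e j := by
      intro j
      simp only [hy, hG, mulVec, dotProduct, Fin.sum_univ_succ, hx₀, conjTranspose_apply, up_zs,
        up_ss, hc, mul_one, star_neg, star_star]
      ring
    have hmat : (g₁ * G)ᴴ * M * (g₁ * G) = ∑ i : Fin (n + 1),
        (((Fin.cons a m' : Fin (n + 1) → ℝ) i : ℝ) : ℂ) •
          vecMulVec ((Fin.cons y (fun i => Fin.cons 0 (x' i)) : Fin (n + 1) → Fin (n + 1) → ℂ) i)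
            (star ((Fin.cons y (fun i => Fin.cons 0 (x' i)) : Fin (n + 1) → Fin (n + 1) → ℂ) i)) := by
      have h1 : (g₁ * G)ᴴ * M * (g₁ * G) = Gᴴ * (g₁ᴴ * M * g₁) * G := by
        rw [conjTranspose_mul]
        simp only [Matrix.mul_assoc]
      rw [h1, hdec, Matrix.mul_add, Matrix.add_mul, up_low, hM'd, low_sum, Fin.sum_univ_succ]
      simp only [Fin.cons_zero, Fin.cons_succ]
      congr 1
      · rw [Matrix.mul_smul, Matrix.smul_mul, mul_vecMulVec, vecMulVec_mul, hy, star_mulVec,
          conjTranspose_conjTranspose]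
      · exact Finset.sum_congr rfl fun i _ => low_vec _ _
    refine ⟨g₁ * G, Fin.cons y (fun i => Fin.cons 0 (x' i)), Fin.cons a m', hg₁.mul hGL, ?_, ?_,
      ?_, ?_, ?_, hmat⟩
    · intro i
      refine Fin.cases ?_ (fun i => ?_) i
      · exact ha
      · exact hm' i
    · intro i j hij
      refine Fin.cases (fun hij => ?_) (fun i => ?_) i hij
      · -- the first step
        obtain ⟨k, rfl⟩ : ∃ k : Fin n, j = k.succ := by
          refine ⟨⟨j - 1, ?_⟩, ?_⟩
          · have := j.2
            have h0 : ((0 : Fin (n + 1)) : ℕ) = 0 := rfl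
            omega
          · ext
            have h0 : ((0 : Fin (n + 1)) : ℕ) = 0 := rfl
            simp only [Fin.val_succ]
            omega
        have hk : (k : ℕ) = 0 := by
          have h0 : ((0 : Fin (n + 1)) : ℕ) = 0 := rfl
          simp only [Fin.val_succ] at hij
          omega
        simp only [Fin.cons_zero, Fin.cons_succ]
        -- the swap
        set P : Matrix (Fin (n + 1)) (Fin (n + 1)) ℂ :=
          (Equiv.swap (0 : Fin (n + 1)) k.succ).toPEquiv.toMatrix with hP
        have hPe : ∀ i j, IsEis (P i j) := by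
          intro i j
          rw [hP, PEquiv.toMatrix_apply]
          split_ifs
          · exact IsEis.one
          · exact IsEis.zero
        have hPP : P * P = 1 := by
          rw [hP, ← PEquiv.toMatrix_trans]
          have : (Equiv.swap (0 : Fin (n + 1)) k.succ).toPEquiv.trans
              (Equiv.swap (0 : Fin (n + 1)) k.succ).toPEquiv = PEquiv.refl _ := by
            rw [← Equiv.toPEquiv_trans]
            have : (Equiv.swap (0 : Fin (n + 1)) k.succ).trans (Equiv.swap 0 k.succ) =
                Equiv.refl _ := by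
              ext i
              simp
            rw [this]
            exact Equiv.toPEquiv_refl
          rw [this, PEquiv.toMatrix_refl]
        have hPGL : IsGL P := ⟨hPe, P, hPe, hPP, hPP⟩
        have hPv : P *ᵥ (Pi.single 0 1) = Pi.single k.succ 1 := by
          ext i
          have hiff : (0 : Fin (n + 1)) = Equiv.swap (0 : Fin (n + 1)) k.succ i ↔ i = k.succ := by
            constructor
            · intro h
              have := congrArg (Equiv.swap (0 : Fin (n + 1)) k.succ) h
              rw [Equiv.swap_apply_left, Equiv.swap_apply_self] at this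
              exact this.symm
            · rintro rfl
              rw [Equiv.swap_apply_right]
          rw [mulVec_single_one, col_apply, hP, PEquiv.toMatrix_apply, Pi.single_apply]
          simp only [Equiv.toPEquiv_apply, Option.mem_def, Option.some_inj]
          by_cases hi : i = k.succ
          · rw [if_pos (hiff.2 hi).symm, if_pos hi]
          · rw [if_neg (fun h => hi (hiff.1 h.symm)), if_neg hi]
        have h1 := hmin _ ⟨g₁ * G * P, (hg₁.mul hGL).mul hPGL, rfl⟩
        rw [← mulVec_mulVec, hPv, ← q_conj M (g₁ * G), hmat, q_dec, ← q_conj M g₁, ← haq,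
          Fin.sum_univ_succ] at h1
        simp only [Fin.cons_zero, Fin.cons_succ] at h1
        have h2 : ∀ w : Fin (n + 1) → ℂ, Complex.normSq (star w ⬝ᵥ (Pi.single k.succ 1)) =
            Complex.normSq (w k.succ) := by
          intro w
          rw [dotProduct_single, mul_one, Pi.star_apply]
          exact Complex.normSq_conj _
        rw [h2] at h1
        have h3 : ∑ i : Fin n, m' i * Complex.normSq (star (Fin.cons 0 (x' i) : Fin (n + 1) → ℂ) ⬝ᵥ
            (Pi.single k.succ 1)) = m' k := by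
          rw [Finset.sum_eq_single k]
          · rw [h2, Fin.cons_succ, hd]
            simp
          · intro i _ hik
            rw [h2, Fin.cons_succ, hz i k (by
              rw [Fin.lt_def, hk]
              exact Nat.pos_of_ne_zero fun h => hik (Fin.ext (by rw [h, hk])))]
            simp
          · intro h
            exact absurd (Finset.mem_univ k) h
        rw [h3, hys] at h1
        have h4 := he2 k
        have h5 : a * Complex.normSq ((g'ᴴ *ᵥ fun i => x₀ i.succ) k - e k) ≤ a * (1 / 3) :=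
          mul_le_mul_of_nonneg_left h4 ha.le
        linarith
      · intro hij
        obtain ⟨k, rfl⟩ : ∃ k : Fin n, j = k.succ := by
          refine ⟨⟨j - 1, ?_⟩, ?_⟩
          · have := j.2
            omega
          · ext
            simp only [Fin.val_succ] at hij ⊢
            omega
        simp only [Fin.cons_succ]
        apply hch
        simp only [Fin.val_succ] at hij
        omega
    · intro i
      refine Fin.cases ?_ (fun i => ?_) i
      · exact hy0
      · simp only [Fin.cons_succ]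
        exact hd i
    · intro i j hij
      refine Fin.cases (fun hij => ?_) (fun i => ?_) i hij
      · exact absurd hij (by simp)
      · intro hij
        refine Fin.cases (fun hij => ?_) (fun j => ?_) j hij
        · simp only [Fin.cons_succ, Fin.cons_zero]
        · intro hij
          simp only [Fin.cons_succ]
          exact hz i j (by simpa using hij)
    · intro i j hij
      refine Fin.cases (fun hij => ?_) (fun i => ?_) i hij
      · refine Fin.cases (fun hij => ?_) (fun j => ?_) j hij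
        · exact absurd hij (by simp)
        · intro _
          simp only [Fin.cons_zero]
          rw [hys]
          exact he2 j
      · intro hij
        refine Fin.cases (fun hij => ?_) (fun j => ?_) j hij
        · exact absurd hij (by simp)
        · intro hij
          simp only [Fin.cons_succ]
          exact hs i j (by simpa using hij)

end Pool.Agent.R895
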