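import Pool.Agent.R895.Geo
import Pool.Agent.Y167.Red

/-!
# Reduction theory and pullbacks
-/

set_option autoImplicit false

namespace Pool.Agent.R895

open Matrix hiding IsHermitian
open Filter Topology
open Pool.Agent.W594.SYZ2 (IsHermitian)
open Pool.Agent.W594.SYZ2.TQ (h_add_right h_smul_right h_zero_left h_zero_right)
open Pool.Agent.Y167 (CData cone AffGrp Pol)

section basis

/-- Coordinates of a complex number with respect to `1, ω`. -/
noncomputable def eqv : ℂ ≃ₗ[ℝ] (Fin 2 → ℝ) where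
  toFun z := ![z.re + z.im / √3, 2 * z.im / √3]
  map_add' x y := by
    funext i
    fin_cases i <;> simp <;> ring
  map_smul' t x := by
    funext i
    fin_cases i <;> simp <;> ring
  invFun v := v 0 + v 1 * om
  left_inv z := by
    have h3 := sqrt3_pos
    apply Complex.ext
    · simp [om]
      field_simp
      ring
    · simp [om]
      field_simp
  right_inv v := by
    have h3 := sqrt3_pos
    funext i
    fin_cases i
    · simp [om]
      field_simp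
      ring
    · simp [om]
      field_simp

theorem eqv_symm (v : Fin 2 → ℝ) : eqv.symm v = v 0 + v 1 * om := rfl

theorem eis_iff (z : ℂ) : IsEis z ↔ ∀ k, ∃ n : ℤ, eqv z k = n := by
  constructor
  · rintro ⟨a, b, rfl⟩ k
    have h1 : (a : ℂ) + b * om = eqv.symm ![(a : ℝ), (b : ℝ)] := by
      rw [eqv_symm]
      simp
    rw [h1, eqv.apply_symm_apply]
    fin_cases k
    · exact ⟨a, rfl⟩
    · exact ⟨b, rfl⟩
  · intro h
    obtain ⟨a, ha⟩ := h 0
    obtain ⟨b, hb⟩ := h 1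
    refine ⟨a, b, ?_⟩
    rw [← eqv.symm_apply_apply z, eqv_symm, ha, hb]
    push_cast
    rfl

/-- The lattice. -/
def lat (r : ℕ) : AddSubgroup (Fin r → ℂ) where
  carrier := {v | Lat v}
  zero_mem' := fun _ => IsEis.zero
  add_mem' := fun h1 h2 i => (h1 i).add (h2 i)
  neg_mem' := fun h i => (h i).neg

/-- A basis of the lattice. -/
noncomputable def bas0 (r : ℕ) : Module.Basis (Σ _ : Fin r, Fin 2) ℝ (Fin r → ℂ) :=
  Pi.basis fun _ : Fin r => Module.Basis.ofEquivFun eqv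

theorem bas0_repr {r : ℕ} (v : Fin r → ℂ) (i : Fin r) (k : Fin 2) :
    (bas0 r).repr v ⟨i, k⟩ = eqv (v i) k := by
  rw [bas0, Pi.basis_repr]
  rfl

theorem exists_basis (r : ℕ) : ∃ (d : ℕ) (b : Module.Basis (Fin d) ℝ (Fin r → ℂ)),
    ∀ x, x ∈ lat r ↔ ∀ i, ∃ n : ℤ, b.repr x i = n := by
  refine ⟨Fintype.card (Σ _ : Fin r, Fin 2), (bas0 r).reindex (Fintype.equivFin _), fun x => ?_⟩
  have h1 : ∀ i, ((bas0 r).reindex (Fintype.equivFin _)).repr x i =
      eqv (x ((Fintype.equivFin (Σ _ : Fin r, Fin 2)).symm i).1)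
        ((Fintype.equivFin (Σ _ : Fin r, Fin 2)).symm i).2 := by
    intro i
    rw [Module.Basis.repr_reindex_apply, ← bas0_repr]
  constructor
  · intro hx i
    rw [h1]
    exact (eis_iff _).1 (hx _) _
  · intro hx i
    rw [eis_iff]
    intro k
    obtain ⟨n, hn⟩ := hx (Fintype.equivFin _ ⟨i, k⟩)
    rw [h1, Equiv.symm_apply_apply] at hn
    exact ⟨n, hn⟩

end basis

variable {r : ℕ}

theorem exists_pol (r : ℕ) : ∃ (d : ℕ) (b : Module.Basis (Fin d) ℝ (Fin r → ℂ)),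
    Pol (fun u w : Fin r → ℂ => (kap : ℂ) * std u w) (lat r) ∅ d b := by
  obtain ⟨d, b, hb⟩ := exists_basis r
  refine ⟨d, b, ⟨⟨fun u v w => ?_, fun a v w => ?_, fun v w => ?_⟩, fun v hv => ?_, hb,
    fun x hx y hy => ?_, fun g hg => absurd hg (Set.notMem_empty g)⟩⟩
  · rw [std_herm.add_left]; ring
  · rw [std_herm.smul_left]; ring
  · rw [map_mul, ← std_herm.symm, Complex.conj_ofReal]
  · rw [Complex.re_ofReal_mul]
    exact mul_pos kap_pos (std_pos hv)
  · rw [Complex.im_ofReal_mul]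
    exact kap_im_eis (std_int x y hx hy)

variable {ι : Type*} [Fintype ι] {m : ℕ} {ρ : Fin r → ι}
  {j : (Fin r → ℂ) →ₗ[ℂ] (ι → ℂ)}

theorem form_span (hj : IsExt ρ j) (x : N1 (kum ι m) j) :
    form x ∈ Submodule.span ℝ {z | Pol.IsInt (lat r) ∅ z} := by
  obtain ⟨x, hx⟩ := x
  show x.1 ∈ _
  induction hx using Submodule.span_induction with
  | mem x hx =>
    obtain ⟨L, H, hL, h1, -⟩ := hx
    refine Submodule.subset_span ⟨⟨fun u v w => ?_, fun a v w => ?_, fun v w => ?_⟩,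
      fun g hg => absurd hg (Set.notMem_empty g), fun u hu w hw => ?_⟩
    · rw [h1, h1, h1, map_add, hL.1.add_left]
    · rw [h1, h1, map_smul, hL.1.smul_left]
    · rw [h1, h1, ← hL.1.symm]
    · rw [h1]
      exact chern_int hL (hj.lat hu) (hj.lat hw)
  | zero => exact Submodule.zero_mem _
  | add x y _ _ h1 h2 => exact Submodule.add_mem _ h1 h2
  | smul t x _ h1 => exact Submodule.smul_mem _ t h1

theorem dat_of_isInt {z : (Fin r → ℂ) → (Fin r → ℂ) → ℂ} (hz : Pol.IsInt (lat r) ∅ z) :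
    Dat fun u w => z u w / kap where
  herm := by
    refine ⟨fun u v w => ?_, fun a v w => ?_, fun v w => ?_⟩
    · rw [hz.herm.add_left, add_div]
    · rw [hz.herm.smul_left, mul_div_assoc]
    · rw [map_div₀, ← hz.herm.symm, Complex.conj_ofReal]
  int u w hu hw := by
    have e1 : ∀ z : ℂ, kap * (z / kap).im = z.im := by
      intro z
      rw [← Complex.im_ofReal_mul, mul_div_cancel₀ _ kap_ne]
    refine eis_of_kap ?_ ?_
    · obtain ⟨n, hn⟩ := hz.int u hu w hw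
      exact ⟨n, by rw [e1, hn]⟩
    · obtain ⟨n, hn⟩ := hz.int (om • u) (fun i => IsEis.omega.mul (hu i)) w hw
      exact ⟨n, by rw [← mul_div_assoc, e1, ← hn, hz.herm.smul_left]⟩

/-- **Reduction theory.** -/
theorem red_cls (hj : IsExt ρ j) (m : ℕ) :
    ∃ F : Finset ((Fin r → ℂ) → (Fin r → ℂ) → ℂ), (∀ z ∈ F, Dat z ∧ ∀ v, 0 ≤ (z v v).re) ∧
      ∀ x : N1 (kum ι m) j, (∃ t : ℝ, 0 < t ∧ ∀ v, t * (std v v).re ≤ (frm x v v).re) →
        ∃ u : (Fin r → ℂ) ≃ₗ[ℂ] (Fin r → ℂ), (∀ v, Lat v → Lat (u v)) ∧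
          (∀ v, Lat v → Lat (u.symm v)) ∧
          ∃ c : ((Fin r → ℂ) → (Fin r → ℂ) → ℂ) → ℝ, (∀ z, 0 ≤ c z) ∧
            ∀ v w, frm x v w = ∑ z ∈ F, c z * z (u v) (u w) := by
  classical
  obtain ⟨d, b, P⟩ := exists_pol r
  obtain ⟨F, hF, hred⟩ := P.red
  let sc : ((Fin r → ℂ) → (Fin r → ℂ) → ℂ) → ((Fin r → ℂ) → (Fin r → ℂ) → ℂ) :=
    fun z u w => z u w / kap
  have hsc : Function.Injective sc := by
    intro z z' hzz
    funext u w
    have h1 : z u w / kap = z' u w / kap := congrFun (congrFun hzz u) w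
    have h2 := kap_ne
    field_simp at h1
    exact h1
  refine ⟨F.image sc, fun z hz => ?_, fun x hx => ?_⟩
  · obtain ⟨z, hz', rfl⟩ := Finset.mem_image.1 hz
    obtain ⟨h1, h2⟩ := hF z hz'
    refine ⟨dat_of_isInt h1, fun v => ?_⟩
    show 0 ≤ (z v v / kap).re
    rw [re_kap_div]
    exact div_nonneg (h2 v) kap_pos.le
  · obtain ⟨t, ht, hxt⟩ := hx
    obtain ⟨u, hu1, hu2, -, c, hc, hsum⟩ := hred (form x) (form_span hj x) ⟨t, ht, fun v => by
      rw [form_frm, Complex.re_ofReal_mul, Complex.re_ofReal_mul]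
      have h1 := hxt v
      have h2 := kap_pos
      nlinarith⟩
    refine ⟨u, fun v hv => hu1 v hv, fun v hv => hu2 v hv, fun z => c fun u w => kap * z u w,
      fun z => hc _, fun v w => ?_⟩
    rw [Finset.sum_image fun z _ z' _ h => hsc h]
    unfold frm
    rw [hsum, Finset.sum_div]
    refine Finset.sum_congr rfl fun z _ => ?_
    have h2 := kap_ne
    have h3 : (fun u w => (kap : ℂ) * sc z u w) = z := by
      funext u w
      show (kap : ℂ) * (z u w / kap) = z u w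
      field_simp
    show (c z : ℂ) * z (u v) (u w) / kap =
      (c (fun u w => (kap : ℂ) * sc z u w) : ℂ) * (z (u v) (u w) / kap)
    rw [h3, mul_div_assoc]

section pull

/-- The automorphism of `ℂ^ι` given by `u` on the coordinates in the range of `ρ`. -/
noncomputable def blk (hj : IsExt ρ j) (hρ : Function.Injective ρ)
    (u : (Fin r → ℂ) ≃ₗ[ℂ] (Fin r → ℂ)) : (ι → ℂ) ≃ₗ[ℂ] (ι → ℂ) where
  toFun v := v + j (u (v ∘ ρ) - v ∘ ρ)
  map_add' v w := by
    have h1 : (v + w) ∘ ρ = v ∘ ρ + w ∘ ρ := rfl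
    rw [h1, map_add]
    simp only [map_add, map_sub]
    abel
  map_smul' a v := by
    have h1 : (a • v) ∘ ρ = a • (v ∘ ρ) := rfl
    rw [h1, map_smul, RingHom.id_apply, ← smul_sub, map_smul, smul_add]
  invFun v := v + j (u.symm (v ∘ ρ) - v ∘ ρ)
  left_inv v := by
    have h1 : (v + j (u (v ∘ ρ) - v ∘ ρ)) ∘ ρ = u (v ∘ ρ) := by
      have : (v + j (u (v ∘ ρ) - v ∘ ρ)) ∘ ρ = v ∘ ρ + j (u (v ∘ ρ) - v ∘ ρ) ∘ ρ := rfl
      rw [this, hj.comp hρ]
      abel
    show (v + j (u (v ∘ ρ) - v ∘ ρ)) + j (u.symm ((v + j (u (v ∘ ρ) - v ∘ ρ)) ∘ ρ) -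
      (v + j (u (v ∘ ρ) - v ∘ ρ)) ∘ ρ) = v
    rw [h1, u.symm_apply_apply]
    simp only [map_sub]
    abel
  right_inv v := by
    have h1 : (v + j (u.symm (v ∘ ρ) - v ∘ ρ)) ∘ ρ = u.symm (v ∘ ρ) := by
      have : (v + j (u.symm (v ∘ ρ) - v ∘ ρ)) ∘ ρ =
          v ∘ ρ + j (u.symm (v ∘ ρ) - v ∘ ρ) ∘ ρ := rfl
      rw [this, hj.comp hρ]
      abel
    show (v + j (u.symm (v ∘ ρ) - v ∘ ρ)) + j (u ((v + j (u.symm (v ∘ ρ) - v ∘ ρ)) ∘ ρ) -
      (v + j (u.symm (v ∘ ρ) - v ∘ ρ)) ∘ ρ) = v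
    rw [h1, u.apply_symm_apply]
    simp only [map_sub]
    abel

variable (hj : IsExt ρ j) (hρ : Function.Injective ρ) {u : (Fin r → ℂ) ≃ₗ[ℂ] (Fin r → ℂ)}

theorem blk_apply (v : ι → ℂ) : blk hj hρ u v = v + j (u (v ∘ ρ) - v ∘ ρ) := rfl

theorem blk_symm : (blk hj hρ u).symm = blk hj hρ u.symm := by
  ext v
  rfl

theorem blk_j (w : Fin r → ℂ) : blk hj hρ u (j w) = j (u w) := by
  rw [blk_apply, hj.comp hρ, map_sub]
  abel

theorem blk_lat (hu : ∀ v, Lat v → Lat (u v)) {v : ι → ℂ} (hv : Lat v) :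
    Lat (blk hj hρ u v) := by
  rw [blk_apply]
  have h1 : Lat (v ∘ ρ) := fun a => hv _
  have h2 : Lat (j (u (v ∘ ρ) - v ∘ ρ)) := hj.lat fun a => (hu _ h1 a).sub (h1 a)
  exact fun i => (hv i).add (h2 i)

theorem blk_co (v : ι → ℂ) {i : ι} (hi : i ∈ co ρ) : blk hj hρ u v i = v i := by
  rw [blk_apply, Pi.add_apply, hj.co _ hi, add_zero]

end pull

theorem conj_mem {f : (ι → ℂ) ≃ₗ[ℂ] (ι → ℂ)} (hf : ∀ v, Lat v → Lat (f v))
    {γ : (ι → ℂ) ≃ᵃ[ℂ] (ι → ℂ)} (hγ : γ ∈ kum ι m) :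
    f.toAffineEquiv * γ * f.toAffineEquiv⁻¹ ∈ kum ι m := by
  obtain ⟨ζ, l, h1, h2, h3, h4⟩ := hγ
  refine ⟨ζ, f l, h1, h2, hf l h3, fun v => ?_⟩
  show f (γ (f.symm v)) = _
  rw [h4, map_add, map_smul, f.apply_symm_apply]

theorem normalizes {f : (ι → ℂ) ≃ₗ[ℂ] (ι → ℂ)} (hf : ∀ v, Lat v → Lat (f v))
    (hf' : ∀ v, Lat v → Lat (f.symm v)) : Normalizes (kum ι m) f := by
  intro γ
  refine ⟨fun h => conj_mem hf h, fun h => ?_⟩
  have h1 := conj_mem hf' h
  have h2 : f.symm.toAffineEquiv * (f.toAffineEquiv * γ * f.toAffineEquiv⁻¹) *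
      f.symm.toAffineEquiv⁻¹ = γ := by
    ext v i
    show f.symm (f (γ (f.symm (f v)))) i = γ v i
    rw [f.symm_apply_apply, f.symm_apply_apply]
  rwa [h2] at h1

section pullback

variable {V E : Type*} [NormedAddCommGroup V] [NormedSpace ℂ V] [FiniteDimensional ℂ V]
  [NormedAddCommGroup E] [NormedSpace ℂ E] {Γ : AffGrp V} {j : E →ₗ[ℂ] V}

/-- The conjugate of an element of `Γ`. -/
noncomputable def cjg {f : V ≃ₗ[ℂ] V} (hf : Normalizes Γ f) (γ : Γ) : Γ :=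
  ⟨f.toAffineEquiv * γ.1 * f.toAffineEquiv⁻¹, (hf γ.1).1 γ.2⟩

omit [FiniteDimensional ℂ V] in
theorem cjg_apply {f : V ≃ₗ[ℂ] V} (hf : Normalizes Γ f) (γ : Γ) (v : V) :
    act (cjg hf γ) (f v) = f (act γ v) := by
  show f (γ.1 (f.symm (f v))) = f (γ.1 v)
  rw [f.symm_apply_apply]

omit [FiniteDimensional ℂ V] in
theorem cjg_mul {f : V ≃ₗ[ℂ] V} (hf : Normalizes Γ f) (γ δ : Γ) :
    cjg hf (γ * δ) = cjg hf γ * cjg hf δ := by
  apply Subtype.ext
  show f.toAffineEquiv * (γ.1 * δ.1) * f.toAffineEquiv⁻¹ =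
    (f.toAffineEquiv * γ.1 * f.toAffineEquiv⁻¹) * (f.toAffineEquiv * δ.1 * f.toAffineEquiv⁻¹)
  group

theorem differentiable_equiv (f : V ≃ₗ[ℂ] V) : Differentiable ℂ f :=
  (LinearMap.toContinuousLinearMap (f : V →ₗ[ℂ] V)).differentiable

/-- The pullback of a line bundle by the automorphism given by `f`. -/
noncomputable def pullB {f : V ≃ₗ[ℂ] V} (hf : Normalizes Γ f) (L : BlBundle Γ) : BlBundle Γ where
  e := fun γ v => L.e (cjg hf γ) (f v)
  k := L.k
  holo := fun γ => (L.holo _).comp (differentiable_equiv f)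
  ne_zero := fun γ v => L.ne_zero _ _
  mul := fun γ δ v => by rw [cjg_mul, L.mul, cjg_apply]
  stab := fun γ v h1 h2 => by
    refine L.stab _ _ (by rw [cjg_apply, h1]) fun δ hδ => ?_
    have h3 : f.symm.toAffineEquiv * δ.1 * f.symm.toAffineEquiv⁻¹ ∈ Γ := by
      rw [hf]
      have h4 : f.toAffineEquiv * (f.symm.toAffineEquiv * δ.1 * f.symm.toAffineEquiv⁻¹) *
          f.toAffineEquiv⁻¹ = δ.1 := by
        ext v
        show f (f.symm (δ.1 (f (f.symm v)))) = δ.1 v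
        rw [f.apply_symm_apply, f.apply_symm_apply]
      rw [h4]
      exact δ.2
    refine h2 ⟨_, h3⟩ ?_
    show f.symm (δ.1 (f 0)) = v
    have hδ' : δ.1 0 = f v := hδ
    rw [map_zero, hδ', f.symm_apply_apply]
  exc := fun γ ζ h => by
    rw [map_zero]
    refine L.exc _ ζ fun v => ?_
    have h1 := cjg_apply hf γ (f.symm v)
    rw [f.apply_symm_apply, h, map_smul, f.apply_symm_apply] at h1
    exact h1

theorem isClass_pullB {f : V ≃ₗ[ℂ] V} (hf : Normalizes Γ f) {u : E → E}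
    (hfu : ∀ e, f (j e) = j (u e)) {L : BlBundle Γ} {x : (E → E → ℂ) × ℝ}
    (hL : IsClass j L x) : IsClass j (pullB hf L) (fun v w => x.1 (u v) (u w), x.2) := by
  obtain ⟨H, ⟨hH, F, hF, hFe⟩, h1, h2⟩ := hL
  refine ⟨fun v w => H (f v) (f w), ⟨⟨fun u v w => ?_, fun a v w => ?_, fun v w => ?_⟩,
    fun v => F (f v), hF.comp (differentiable_equiv f), fun γ v => ?_⟩, fun v w => ?_, h2⟩
  · rw [map_add, hH.add_left]
  · rw [map_smul, hH.smul_left]
  · exact hH.symm _ _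
  · have h3 := hFe (cjg hf γ) (f v)
    rw [cjg_apply] at h3
    exact h3
  · show x.1 (u v) (u w) = H (f (j v)) (f (j w))
    rw [h1, hfu, hfu]

end pullback

/-- The action of `u` on the classes. -/
def pb (u : (Fin r → ℂ) → (Fin r → ℂ)) (x : ((Fin r → ℂ) → (Fin r → ℂ) → ℂ) × ℝ) :
    ((Fin r → ℂ) → (Fin r → ℂ) → ℂ) × ℝ := (fun v w => x.1 (u v) (u w), x.2)

theorem pb_mem {f : (ι → ℂ) ≃ₗ[ℂ] (ι → ℂ)} (hf : Normalizes (kum ι m) f)
    {u : (Fin r → ℂ) → (Fin r → ℂ)} (hfu : ∀ e, f (j e) = j (u e))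
    {x : ((Fin r → ℂ) → (Fin r → ℂ) → ℂ) × ℝ} (hx : x ∈ N1s (kum ι m) j) :
    pb u x ∈ N1s (kum ι m) j := by
  unfold N1s at hx
  induction hx using Submodule.span_induction with
  | mem x hx =>
    obtain ⟨L, hL⟩ := hx
    exact Submodule.subset_span ⟨_, isClass_pullB hf hfu hL⟩
  | zero => exact Submodule.zero_mem _
  | add x y _ _ h1 h2 => exact Submodule.add_mem _ h1 h2
  | smul t x _ h1 => exact Submodule.smul_mem _ t h1

/-- The action of an automorphism on the classes. -/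
theorem exists_pull (m : ℕ) (hj : IsExt ρ j) (hρ : Function.Injective ρ)
    {u : (Fin r → ℂ) ≃ₗ[ℂ] (Fin r → ℂ)} (hu : ∀ v, Lat v → Lat (u v))
    (hu' : ∀ v, Lat v → Lat (u.symm v)) : ∃ g : N1 (kum ι m) j ≃ₗ[ℝ] N1 (kum ι m) j,
      (∀ x v w, form (g x) v w = form x (u v) (u w)) ∧ (∀ x, coef (g x) = coef x) ∧
      (∀ x v w, form (g.symm x) v w = form x (u.symm v) (u.symm w)) ∧
      (∀ x, coef (g.symm x) = coef x) ∧
      (∀ x ∈ integral (kum ι m) j, g x ∈ integral (kum ι m) j) ∧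
      (∀ x ∈ integral (kum ι m) j, g.symm x ∈ integral (kum ι m) j) := by
  have hn : Normalizes (kum ι m) (blk hj hρ u) :=
    normalizes (fun v hv => blk_lat hj hρ hu hv) fun v hv => by
      rw [blk_symm]
      exact blk_lat hj hρ hu' hv
  have hn' : Normalizes (kum ι m) (blk hj hρ u.symm) :=
    normalizes (fun v hv => blk_lat hj hρ hu' hv) fun v hv => by
      rw [blk_symm]
      exact blk_lat hj hρ hu hv
  have hb : ∀ e, blk hj hρ u (j e) = j (u e) := fun e => blk_j hj hρ e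
  have hb' : ∀ e, blk hj hρ u.symm (j e) = j (u.symm e) := fun e => blk_j hj hρ e
  let g : N1 (kum ι m) j ≃ₗ[ℝ] N1 (kum ι m) j :=
    { toFun := fun x => ⟨pb u x.1, pb_mem hn hb x.2⟩
      map_add' := fun x y => rfl
      map_smul' := fun c x => rfl
      invFun := fun x => ⟨pb u.symm x.1, pb_mem hn' hb' x.2⟩
      left_inv := fun x => by
        apply Subtype.ext
        refine Prod.ext ?_ rfl
        funext v w
        show x.1.1 (u (u.symm v)) (u (u.symm w)) = x.1.1 v w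
        rw [u.apply_symm_apply, u.apply_symm_apply]
      right_inv := fun x => by
        apply Subtype.ext
        refine Prod.ext ?_ rfl
        funext v w
        show x.1.1 (u.symm (u v)) (u.symm (u w)) = x.1.1 v w
        rw [u.symm_apply_apply, u.symm_apply_apply] }
  refine ⟨g, fun _ _ _ => rfl, fun _ => rfl, fun _ _ _ => rfl, fun _ => rfl, ?_, ?_⟩
  · rintro x ⟨L, hL⟩
    exact ⟨_, isClass_pullB hn hb hL⟩
  · rintro x ⟨L, hL⟩
    exact ⟨_, isClass_pullB hn' hb' hL⟩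

end Pool.Agent.R895
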