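import Pool.Agent.R895.Bun2

/-!
# Bounds for the classes of line bundles
-/

set_option autoImplicit false

namespace Pool.Agent.R895

open Complex Filter Topology Asymptotics
open Matrix hiding IsHermitian
open Pool.Agent.W594.SYZ2 (IsHermitian LineBundle latt IsChernForm)
open Pool.Agent.W594.SYZ2.TQ (h_add_right h_smul_right h_zero_left h_zero_right h_neg_left
  h_sub_left h_re_symm IsPot im_int)
open Pool.Agent.Y167 (AffGrp)

variable {ι : Type*} [Fintype ι] {m : ℕ}

theorem kum_le : kum ι 1 ≤ kum ι m := by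
  rintro f ⟨ζ, l, h1, h2, h3, h4⟩
  rw [pow_one] at h1
  exact ⟨ζ, l, by rw [h1, one_pow], h2, h3, h4⟩

/-- The restriction to the group of translations. -/
noncomputable def rs (L : BlBundle (kum ι m)) : LineBundle (kum ι 1) where
  e := fun γ v => L.e ⟨γ.1, kum_le γ.2⟩ v
  holo := fun γ => L.holo _
  ne_zero := fun γ v => L.ne_zero _ v
  mul := fun γ δ v => L.mul ⟨γ.1, kum_le γ.2⟩ ⟨δ.1, kum_le δ.2⟩ v
  stab := fun γ v hv => by
    obtain ⟨ζ, l, h1, -, -, h4⟩ := kum_spec γ
    rw [pow_one] at h1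
    have hl : l = 0 := by
      rw [h4, h1, one_smul] at hv
      simpa using hv
    have hγ : γ.1 = 1 := by
      ext v i
      rw [h4, h1, hl, one_smul, add_zero]
      rfl
    have h5 : (⟨γ.1, kum_le γ.2⟩ : kum ι m) = 1 := Subtype.ext hγ
    rw [h5]
    have h6 := L.mul 1 1 v
    rw [mul_one] at h6
    have h7 : act (1 : kum ι m) v = v := rfl
    rw [h7] at h6
    exact (mul_eq_left₀ (L.ne_zero 1 v)).1 h6.symm

theorem chern_int {L : BlBundle (kum ι m)} {H : (ι → ℂ) → (ι → ℂ) → ℂ} (hL : L.IsChern H)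
    {u w : ι → ℂ} (hu : Lat u) (hw : Lat w) : ∃ n : ℤ, (H u w).im = n := by
  obtain ⟨hH, F, hF, hFe⟩ := hL
  have hpot : IsPot (rs L) H F := ⟨hF, fun γ v => hFe ⟨γ.1, kum_le γ.2⟩ v⟩
  exact im_int hH hpot (show u ∈ latt (kum ι 1) from mem_kum_trans hu)
    (show w ∈ latt (kum ι 1) from mem_kum_trans hw)

theorem eis_of_kap {z : ℂ} (h1 : ∃ n : ℤ, kap * z.im = n) (h2 : ∃ n : ℤ, kap * (om * z).im = n) :
    IsEis z := by
  obtain ⟨x, y, rfl⟩ := exists_coord z
  obtain ⟨a, ha⟩ := h1
  obtain ⟨b, hb⟩ := h2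
  have hk := kap_sqrt
  have e1 : kap * (x + y * om : ℂ).im = y := by
    simp only [om, add_im, ofReal_im, mul_im, ofReal_re]
    linear_combination y / 2 * hk
  have e2 : kap * (om * (x + y * om) : ℂ).im = x - y := by
    simp only [om, add_im, ofReal_im, mul_im, ofReal_re, add_re, mul_re]
    linear_combination (x / 2 - y / 2) * hk
  rw [e1] at ha
  rw [e2] at hb
  refine ⟨a + b, a, ?_⟩
  have hx : x = a + b := by rw [← ha, ← hb]; ring
  rw [ha, hx]
  push_cast
  ring

/-- The Chern form of a line bundle is `κ` times a form with values in the Eisenstein integers. -/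
theorem chern_eis {L : BlBundle (kum ι m)} {H : (ι → ℂ) → (ι → ℂ) → ℂ} (hL : L.IsChern H)
    {u w : ι → ℂ} (hu : Lat u) (hw : Lat w) : IsEis (H u w / kap) := by
  have hk : (kap : ℂ) ≠ 0 := by exact_mod_cast kap_pos.ne'
  have e1 : ∀ z : ℂ, kap * (z / kap).im = z.im := by
    intro z
    rw [← im_ofReal_mul, mul_div_cancel₀ _ hk]
  refine eis_of_kap ?_ ?_
  · obtain ⟨n, hn⟩ := chern_int hL hu hw
    exact ⟨n, by rw [e1, hn]⟩
  · obtain ⟨n, hn⟩ := chern_int hL (u := om • u) (w := w) (fun i => IsEis.omega.mul (hu i)) hw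
    refine ⟨n, ?_⟩
    rw [← mul_div_assoc, e1, ← hn, hL.1.smul_left]

theorem h_quad {H : (ι → ℂ) → (ι → ℂ) → ℂ} (hH : IsHermitian H) (w v : ι → ℂ) (z : ℂ) :
    (H (w + z • v) (w + z • v)).re = (H w w).re + 2 * (z * H v w).re + normSq z * (H v v).re := by
  have e1 : H w v = (starRingEnd ℂ) (H v w) := hH.symm _ _
  have e2 : H (w + z • v) (w + z • v) = H w w + z * H v w + (starRingEnd ℂ) (z * H v w) +
      (normSq z : ℂ) * H v v := by
    rw [hH.add_left, h_add_right hH, h_add_right hH, hH.smul_left, hH.smul_left,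
      h_smul_right hH, h_smul_right hH, e1, map_mul, ← Complex.mul_conj]
    ring
  rw [e2, add_re, add_re, add_re, conj_re, re_ofReal_mul]
  ring

/-- A section vanishes on a line in a lattice direction if the order of vanishing at a point is
too large. -/
theorem sec_zero {L : BlBundle (kum ι m)} {H : (ι → ℂ) → (ι → ℂ) → ℂ} (hL : L.IsChern H)
    {s : (ι → ℂ) → ℂ} (hs : L.IsSection s) (w : ι → ℂ) {v : ι → ℂ} (hv : Lat v) (K : ℕ)
    (hord : (fun z : ℂ => s (w + z • v)) =O[𝓝 0] fun z : ℂ => ‖z‖ ^ K)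
    (hA : (H v v).re < kap * K) : ∀ z : ℂ, s (w + z • v) = 0 := by
  obtain ⟨hH, F, hF, hFe⟩ := hL
  have hd : Differentiable ℂ fun z : ℂ => w + z • v := by fun_prop
  refine liou (fun z => s (w + z • v)) (fun z => F (w + z • v) + Real.pi * z * H v w)
    (hs.holo.comp hd) ((hF.comp hd).add (by fun_prop)) (H v v).re K ?_ hord hA
  intro l hl z
  have hlv : Lat (l • v) := fun i => hl.mul (hv i)
  set γ : kum ι m := ⟨_, mem_kum_trans hlv⟩ with hγ
  have e1 : w + (z + l) • v = act γ (w + z • v) := by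
    rw [hγ]
    show _ = AffineEquiv.constVAdd ℂ (ι → ℂ) (l • v) (w + z • v)
    rw [AffineEquiv.constVAdd_apply, vadd_eq_add, add_smul]
    abel
  have e2 := h_quad hH w v (z + l)
  have e3 := h_quad hH w v z
  have e4 := hFe γ (w + z • v)
  rw [← e1] at e4
  have e5 : s (w + (z + l) • v) = L.e γ (w + z • v) * s (w + z • v) := by
    rw [e1, hs.eq]
  rw [e5, norm_mul, mul_pow, e4, e2, e3, mul_comm (Real.exp _) (‖s (w + z • v)‖ ^ 2), mul_assoc,
    ← Real.exp_add]
  congr 2
  have e6 : ∀ y : ℂ, (F (w + z • v) + Real.pi * y * H v w : ℂ).re =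
      (F (w + z • v)).re + Real.pi * (y * H v w).re := by
    intro y
    rw [add_re, mul_assoc, re_ofReal_mul]
  have e7 : (F (w + (z + l) • v) + Real.pi * (z + l) * H v w : ℂ).re =
      (F (w + (z + l) • v)).re + Real.pi * ((z + l) * H v w).re := by
    rw [add_re, mul_assoc, re_ofReal_mul]
  rw [e6, e7]
  ring

/-- The Chern form of a line bundle with a section is positive semidefinite on the lattice. -/
theorem chern_lat_nonneg {L : BlBundle (kum ι m)} {H : (ι → ℂ) → (ι → ℂ) → ℂ}
    (hL : L.IsChern H) {s : (ι → ℂ) → ℂ} (hs : L.IsSection s) (h0 : ∃ v, s v ≠ 0)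
    {v : ι → ℂ} (hv : Lat v) : 0 ≤ (H v v).re := by
  by_contra hcon
  push Not at hcon
  obtain ⟨w, hw⟩ := h0
  apply hw
  have h1 := sec_zero hL hs w hv 0 (by
    simp only [pow_zero]
    have hd : Differentiable ℂ fun z : ℂ => w + z • v := by fun_prop
    exact (hs.holo.comp hd).continuous.continuousAt.isBigO_one ℝ) (by simpa using hcon) 0
  simpa using h1

/-- A hermitian form which is nonnegative on the lattice is positive semidefinite. -/
theorem nonneg_of_lat {H : (ι → ℂ) → (ι → ℂ) → ℂ} (hH : IsHermitian H)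
    (h : ∀ v, Lat v → 0 ≤ (H v v).re) (v : ι → ℂ) : 0 ≤ (H v v).re := by
  choose a ha1 ha2 using fun (n : ℕ) (i : ι) => exists_near (((n : ℂ) + 1) * v i)
  set u : ℕ → ι → ℂ := fun n => ((n : ℂ) + 1)⁻¹ • a n with hu
  have hn0 : ∀ n : ℕ, ((n : ℂ) + 1) ≠ 0 := fun n => by exact_mod_cast Nat.succ_ne_zero n
  have hlim : Tendsto u atTop (𝓝 v) := by
    rw [tendsto_pi_nhds]
    intro i
    rw [tendsto_iff_norm_sub_tendsto_zero]
    refine squeeze_zero (fun _ => norm_nonneg _) (fun n => ?_)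
      (tendsto_one_div_add_atTop_nhds_zero_nat (𝕜 := ℝ))
    have h1 : u n i - v i = -(((n : ℂ) + 1)⁻¹ * (((n : ℂ) + 1) * v i - a n i)) := by
      simp only [hu, Pi.smul_apply, smul_eq_mul]
      have := hn0 n
      field_simp
      ring
    have h2 : ‖((n : ℂ) + 1) * v i - a n i‖ ≤ 1 := by
      have h3 := ha2 n i
      rw [normSq_eq_norm_sq] at h3
      nlinarith [norm_nonneg (((n : ℂ) + 1) * v i - a n i)]
    have h3 : ‖((n : ℂ) + 1)⁻¹‖ = 1 / ((n : ℝ) + 1) := by
      rw [norm_inv, one_div]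
      congr 1
      have : ((n : ℂ) + 1) = (((n : ℝ) + 1 : ℝ) : ℂ) := by push_cast; rfl
      rw [this, Complex.norm_real, Real.norm_of_nonneg (by positivity)]
    rw [h1, norm_neg, norm_mul, h3]
    calc 1 / ((n : ℝ) + 1) * ‖((n : ℂ) + 1) * v i - a n i‖ ≤ 1 / ((n : ℝ) + 1) * 1 :=
          mul_le_mul_of_nonneg_left h2 (by positivity)
      _ = _ := mul_one _
  classical
  have hcont : Continuous fun v => (H v v).re := by
    have h1 : ∀ v : ι → ℂ, (H v v) = ∑ i, ∑ j, v i * (starRingEnd ℂ) (v j) *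
        H (Pi.single i 1) (Pi.single j 1) := by
      intro v
      have h2 : ∀ w, H v w = ∑ i, v i * H (Pi.single i 1) w := by
        intro w
        let L : (ι → ℂ) →ₗ[ℂ] ℂ :=
          { toFun := fun v => H v w
            map_add' := fun u v => hH.add_left u v w
            map_smul' := fun a v => hH.smul_left a v w }
        have h3 : v = ∑ i, v i • (Pi.single i 1 : ι → ℂ) := by
          ext i
          simp [Finset.sum_apply, Pi.single_apply]
        have h4 : H v w = L v := rfl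
        rw [h4]
        conv_lhs => rw [h3]
        rw [map_sum]
        refine Finset.sum_congr rfl fun i _ => ?_
        rw [map_smul]
        rfl
      rw [h2 v]
      refine Finset.sum_congr rfl fun i _ => ?_
      have h3 : H (Pi.single i 1) v = (starRingEnd ℂ) (H v (Pi.single i 1)) := hH.symm _ _
      rw [h3, h2, map_sum, Finset.mul_sum]
      refine Finset.sum_congr rfl fun j _ => ?_
      rw [map_mul, ← hH.symm]
      ring
    have h4 : (fun v => (H v v).re) = fun v : ι → ℂ => (∑ i, ∑ j, v i * (starRingEnd ℂ) (v j) *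
        H (Pi.single i 1) (Pi.single j 1)).re := funext fun v => by rw [← h1 v]
    rw [h4]
    refine Complex.continuous_re.comp ?_
    refine continuous_finsetSum _ fun i _ => continuous_finsetSum _ fun j _ => ?_
    have h5 : Continuous fun v : ι → ℂ => (starRingEnd ℂ) (v j) :=
      Complex.continuous_conj.comp (continuous_apply j)
    fun_prop
  have h1 : Tendsto (fun n => (H (u n) (u n)).re) atTop (𝓝 (H v v).re) :=
    (hcont.tendsto v).comp hlim
  refine ge_of_tendsto' h1 fun n => ?_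
  have h2 : H (u n) (u n) = ((normSq ((n : ℂ) + 1)⁻¹ : ℝ) : ℂ) * H (a n) (a n) := by
    simp only [hu]
    rw [hH.smul_left, h_smul_right hH, ← mul_assoc, Complex.mul_conj]
  rw [h2, re_ofReal_mul]
  exact mul_nonneg (normSq_nonneg _) (h _ (ha1 n))

theorem pow_chern {L : BlBundle (kum ι m)} {H : (ι → ℂ) → (ι → ℂ) → ℂ} (hL : L.IsChern H)
    (N : ℕ) : (L.pow N).IsChern fun u w => N * H u w := by
  obtain ⟨hH, F, hF, hFe⟩ := hL
  refine ⟨⟨fun u v w => ?_, fun a v w => ?_, fun v w => ?_⟩, fun v => N * F v,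
    hF.const_mul _, fun γ v => ?_⟩
  · rw [hH.add_left]; ring
  · rw [hH.smul_left]; ring
  · rw [map_mul, ← hH.symm, Complex.conj_natCast]
  · have h1 : (L.pow N).e γ v = L.e γ v ^ N := rfl
    rw [h1, norm_pow, ← pow_mul, mul_comm N 2, pow_mul, hFe, ← Real.exp_nat_mul]
    congr 1
    have h2 : ∀ z : ℂ, ((N : ℂ) * z).re = N * z.re := by
      intro z
      have : (N : ℂ) = ((N : ℝ) : ℂ) := by push_cast; rfl
      rw [this, re_ofReal_mul]
    rw [h2, h2, h2, h2]
    ring

/-- The coefficient of a semiample line bundle is nonnegative. -/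
theorem semiample_nonneg [Nonempty ι] {L : BlBundle (kum ι m)} (hsa : L.IsSemiample) :
    0 ≤ L.k := by
  by_contra hcon
  push Not at hcon
  obtain ⟨N, hN, s, hs, c, hc, hlim⟩ := hsa.exc (fun _ => 1) (by
    intro h
    have := congrFun h (Classical.arbitrary ι)
    simp at this)
  apply hc
  refine tendsto_nhds_unique hlim ?_
  have hk : (L.pow N).k = N * L.k := rfl
  obtain ⟨n, hn⟩ : ∃ n : ℕ, (L.pow N).k = -((n : ℤ) + 1) := by
    have h1 : (L.pow N).k < 0 := by
      rw [hk]
      have : (0 : ℤ) < N := by exact_mod_cast hN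
      nlinarith
    refine ⟨(-(L.pow N).k - 1).toNat, ?_⟩
    rw [Int.toNat_of_nonneg (by omega)]
    ring
  have h1 : ∀ t : ℂ, s (t • fun _ => 1) / t ^ (L.pow N).k = s (t • fun _ => 1) * t ^ (n + 1) := by
    intro t
    rw [hn, _root_.zpow_neg, div_inv_eq_mul]
    congr 1
  simp only [h1]
  have h2 : Continuous fun t : ℂ => s (t • fun _ => (1 : ℂ)) * t ^ (n + 1) := by
    have h3 : Continuous fun t : ℂ => (t • fun _ => (1 : ℂ) : ι → ℂ) := by fun_prop
    exact (hs.holo.continuous.comp h3).mul (continuous_pow _)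
  have h3 := h2.tendsto 0
  rw [zero_pow (Nat.succ_ne_zero n), mul_zero] at h3
  exact h3.mono_left nhdsWithin_le_nhds

/-- **The upper bound** for the coefficient of a semiample line bundle. -/
theorem semiample_le [Nonempty ι] {L : BlBundle (kum ι m)} {H : (ι → ℂ) → (ι → ℂ) → ℂ}
    (hL : L.IsChern H) (hsa : L.IsSemiample) {v : ι → ℂ} (hv : Lat v) (hv0 : v ≠ 0) :
    kap * L.k ≤ (H v v).re := by
  by_contra hcon
  push Not at hcon
  have hk0 := semiample_nonneg hsa
  obtain ⟨N, hN, s, hs, c, hc, hlim⟩ := hsa.exc v hv0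
  apply hc
  refine tendsto_nhds_unique hlim ?_
  have hk : (L.pow N).k = N * L.k := rfl
  have hkn : (((L.pow N).k.toNat : ℕ) : ℝ) = N * L.k := by
    have h1 : 0 ≤ (L.pow N).k := by rw [hk]; positivity
    have h2 : (((L.pow N).k.toNat : ℕ) : ℤ) = N * L.k := by rw [Int.toNat_of_nonneg h1, hk]
    exact_mod_cast h2
  have h0 : ∀ z : ℂ, s (0 + z • v) = 0 := by
    refine sec_zero (pow_chern hL N) hs 0 hv (L.pow N).k.toNat ?_ ?_
    · have h1 : Tendsto (fun z : ℂ => 0 + z • v) (𝓝 0) (𝓝 0) := by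
        have h2 : Continuous fun z : ℂ => 0 + z • v := by fun_prop
        simpa using h2.tendsto 0
      have h2 := hs.ord.comp_tendsto h1
      refine h2.trans ?_
      refine IsBigO.of_bound (‖v‖ ^ (L.pow N).k.toNat) (Eventually.of_forall fun z => ?_)
      rw [Function.comp_apply, zero_add, norm_smul, mul_pow, norm_mul, mul_comm]
      simp
    · have h2 : ((N : ℂ) * H v v).re = N * (H v v).re := by
        have : (N : ℂ) = ((N : ℝ) : ℂ) := by push_cast; rfl
        rw [this, re_ofReal_mul]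
      rw [h2, hkn]
      have hNr : (0 : ℝ) < N := by exact_mod_cast hN
      nlinarith
  have h1 : ∀ t : ℂ, s (t • v) / t ^ (L.pow N).k = 0 := by
    intro t
    have := h0 t
    rw [zero_add] at this
    rw [this, zero_div]
  simp only [h1]
  exact tendsto_const_nhds

end Pool.Agent.R895
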